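import Pool.Agent.Lib.MP_4043ba_gt.Fekete

section

set_option autoImplicit false

open Set Metric Filter Topology MeasureTheory
open scoped CompactlySupported Pointwise

namespace Pool.Agent.Lib.MP_4043ba_gt

variable {d : ℕ}

/-- A Borel measure on `K` charging every plank by at most the width of the plank. -/
def IsPlankMeasure (K : Set (E d)) (μ : Measure (E d)) : Prop :=
  μ Kᶜ = 0 ∧ ∀ Q : Plank d, μ Q.carrier ≤ ENNReal.ofReal Q.width

/-- `c` is the cost of a fractional plank covering dominating `f` on `K`. -/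
def FracCost (K : Set (E d)) (f : E d → ℝ) (c : ℝ) : Prop :=
  ∃ (m : ℕ) (P : Fin m → Plank d) (α : Fin m → ℝ), (∀ i, 0 ≤ α i) ∧
    (∀ x ∈ K, f x ≤ ∑ i, α i * (P i).carrier.indicator (fun _ => (1 : ℝ)) x) ∧
    c = ∑ i, α i * (P i).width

/-- The fractional covering functional. -/
noncomputable def fracN (K : Set (E d)) (f : E d → ℝ) : ℝ := sInf {c | FracCost K f c}

lemma FracCost.nonneg {K : Set (E d)} {f : E d → ℝ} {c : ℝ} (h : FracCost K f c) : 0 ≤ c := by
  obtain ⟨m, P, α, hα, -, rfl⟩ := h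
  exact Finset.sum_nonneg fun i _ => mul_nonneg (hα i) (P i).width_nonneg

lemma bddBelow_fracCost (K : Set (E d)) (f : E d → ℝ) : BddBelow {c | FracCost K f c} :=
  ⟨0, fun _ hc => hc.nonneg⟩

lemma fracN_le {K : Set (E d)} {f : E d → ℝ} {c : ℝ} (h : FracCost K f c) : fracN K f ≤ c :=
  csInf_le (bddBelow_fracCost K f) h

lemma fracN_nonneg (K : Set (E d)) (f : E d → ℝ) : 0 ≤ fracN K f :=
  Real.sInf_nonneg fun _ hc => hc.nonneg

lemma fracN_nonpos_of_nonpos {K : Set (E d)} {f : E d → ℝ} (hf : ∀ x ∈ K, f x ≤ 0) :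
    fracN K f ≤ 0 := by
  refine fracN_le ⟨0, fun i => Fin.elim0 i, fun i => Fin.elim0 i, fun i => Fin.elim0 i, ?_, ?_⟩
  · intro x hx
    simpa using hf x hx
  · simp

lemma fracCost_nonempty (hd : 0 < d) {K : Set (E d)} (hK : IsConvexBody K) {f : E d → ℝ}
    (hf : BddAbove (f '' K)) : {c | FracCost K f c}.Nonempty := by
  obtain ⟨m, P, hP⟩ := exists_covering hd hK 1
  obtain ⟨B, hB⟩ := hf
  refine ⟨_, m, P, fun _ => |B|, fun _ => abs_nonneg B, ?_, rfl⟩
  intro x hx
  have h1 := hP x hx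
  obtain ⟨i, hi⟩ := (Set.ncard_pos (Set.toFinite _)).mp h1
  have hi' : x ∈ (P i).carrier := hi
  calc f x ≤ B := hB ⟨x, hx, rfl⟩
    _ ≤ |B| := le_abs_self B
    _ = |B| * (P i).carrier.indicator (fun _ => (1 : ℝ)) x := by
        rw [indicator_of_mem hi', mul_one]
    _ ≤ ∑ i, |B| * (P i).carrier.indicator (fun _ => (1 : ℝ)) x := by
        refine Finset.single_le_sum (f := fun i => |B| * (P i).carrier.indicator
          (fun _ => (1 : ℝ)) x) (fun j _ => ?_) (Finset.mem_univ i)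
        exact mul_nonneg (abs_nonneg B) (indicator_nonneg (fun _ _ => zero_le_one) _)

lemma FracCost.smul {K : Set (E d)} {f : E d → ℝ} {c t : ℝ} (ht : 0 ≤ t) (h : FracCost K f c) :
    FracCost K (fun x => t * f x) (t * c) := by
  obtain ⟨m, P, α, hα, hle, rfl⟩ := h
  refine ⟨m, P, fun i => t * α i, fun i => mul_nonneg ht (hα i), ?_, ?_⟩
  · intro x hx
    calc t * f x ≤ t * ∑ i, α i * (P i).carrier.indicator (fun _ => (1 : ℝ)) x :=
          mul_le_mul_of_nonneg_left (hle x hx) ht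
      _ = _ := by rw [Finset.mul_sum]; exact Finset.sum_congr rfl fun i _ => by ring
  · rw [Finset.mul_sum]; exact Finset.sum_congr rfl fun i _ => by ring

lemma FracCost.add {K : Set (E d)} {f g : E d → ℝ} {c c' : ℝ} (h : FracCost K f c)
    (h' : FracCost K g c') : FracCost K (fun x => f x + g x) (c + c') := by
  obtain ⟨m, P, α, hα, hle, rfl⟩ := h
  obtain ⟨n, Q, β, hβ, hle', rfl⟩ := h'
  refine ⟨m + n, Fin.append P Q, Fin.append α β, ?_, ?_, ?_⟩
  · intro i
    refine Fin.addCases (fun j => ?_) (fun j => ?_) i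
    · rw [Fin.append_left]; exact hα j
    · rw [Fin.append_right]; exact hβ j
  · intro x hx
    rw [Fin.sum_univ_add]
    simp only [Fin.append_left, Fin.append_right]
    exact add_le_add (hle x hx) (hle' x hx)
  · rw [Fin.sum_univ_add]
    simp only [Fin.append_left, Fin.append_right]

lemma fracN_smul {K : Set (E d)} {f : E d → ℝ} {t : ℝ} (ht : 0 < t) :
    fracN K (fun x => t * f x) = t * fracN K f := by
  have hset : {c | FracCost K (fun x => t * f x) c} = t • {c | FracCost K f c} := by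
    ext c
    rw [Set.mem_smul_set]
    constructor
    · intro hc
      refine ⟨t⁻¹ * c, ?_, ?_⟩
      · have := hc.smul (inv_nonneg.mpr ht.le)
        have e : (fun x => t⁻¹ * (t * f x)) = f := by
          funext x
          rw [← mul_assoc, inv_mul_cancel₀ ht.ne', one_mul]
        rw [e] at this
        exact this
      · rw [smul_eq_mul, ← mul_assoc, mul_inv_cancel₀ ht.ne', one_mul]
    · rintro ⟨c', hc', rfl⟩
      exact hc'.smul ht.le
  unfold fracN
  rw [hset, Real.sInf_smul_of_nonneg ht.le, smul_eq_mul]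

lemma fracN_add_le (hd : 0 < d) {K : Set (E d)} (hK : IsConvexBody K) {f g : E d → ℝ}
    (hf : BddAbove (f '' K)) (hg : BddAbove (g '' K)) :
    fracN K (fun x => f x + g x) ≤ fracN K f + fracN K g := by
  have h1 : ∀ c', FracCost K g c' → fracN K (fun x => f x + g x) - c' ≤ fracN K f := by
    intro c' hc'
    refine le_csInf (fracCost_nonempty hd hK hf) fun c hc => ?_
    have := fracN_le (FracCost.add hc hc')
    linarith
  have h2 : fracN K (fun x => f x + g x) - fracN K f ≤ fracN K g := by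
    refine le_csInf (fracCost_nonempty hd hK hg) fun c hc => ?_
    have := h1 c hc
    linarith
  linarith

/-- Fractional coverings are not cheaper than the limit of the integral ones. -/
lemma le_of_fracCost (hd : 0 < d) {K : Set (E d)} (hK : IsConvexBody K) {L : ℝ}
    (hL : ∀ k : ℕ, L * k ≤ plankConst K k) {f : E d → ℝ} (hf : ∀ x ∈ K, 1 ≤ f x) {c : ℝ}
    (hc : FracCost K f c) : minWidth K * L ≤ c := by
  classical
  have hw := minWidth_pos hd hK
  obtain ⟨m, P, α, hα, hle, rfl⟩ := hc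
  set S : ℝ := ∑ i, (P i).width with hS
  have key : ∀ k : ℕ, 0 < k → minWidth K * L ≤ ∑ i, α i * (P i).width + S / k := by
    intro k hk
    have hk' : (0 : ℝ) < k := by exact_mod_cast hk
    have h1 := plankConst_le_of_family (K := K) hw.le (k := k)
      (ι := Σ i : Fin m, Fin ⌈k * α i⌉₊) (fun p => P p.1) (fun x hx => by
        have hset : {p : Σ i : Fin m, Fin ⌈k * α i⌉₊ | x ∈ (P p.1).carrier} =
            ((Finset.univ.filter fun i => x ∈ (P i).carrier).sigma fun i =>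
              (Finset.univ : Finset (Fin ⌈k * α i⌉₊)) : Finset _) := by
          ext ⟨i, j⟩
          simp
        rw [hset, Set.ncard_coe_finset, Finset.card_sigma]
        have h2 : (k : ℝ) ≤ ((∑ i ∈ Finset.univ.filter fun i => x ∈ (P i).carrier,
            (Finset.univ : Finset (Fin ⌈k * α i⌉₊)).card : ℕ) : ℝ) := by
          push_cast
          calc (k : ℝ) = k * 1 := by ring
            _ ≤ k * ∑ i, α i * (P i).carrier.indicator (fun _ => (1 : ℝ)) x :=
                mul_le_mul_of_nonneg_left ((hf x hx).trans (hle x hx)) hk'.le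
            _ = ∑ i ∈ Finset.univ.filter fun i => x ∈ (P i).carrier, k * α i := by
                rw [Finset.mul_sum, Finset.sum_filter]
                refine Finset.sum_congr rfl fun i _ => ?_
                by_cases hi : x ∈ (P i).carrier
                · rw [if_pos hi, indicator_of_mem hi]; ring
                · rw [if_neg hi, indicator_of_notMem hi]; ring
            _ ≤ _ := by
                refine Finset.sum_le_sum fun i _ => ?_
                rw [Finset.card_univ, Fintype.card_fin]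
                exact Nat.le_ceil _
        exact_mod_cast h2)
    have h3 : ∑ p : Σ i : Fin m, Fin ⌈k * α i⌉₊, (P p.1).width ≤
        k * ∑ i, α i * (P i).width + S := by
      rw [Fintype.sum_sigma, hS, Finset.mul_sum, ← Finset.sum_add_distrib]
      refine Finset.sum_le_sum fun i _ => ?_
      simp only [Finset.sum_const, Finset.card_univ, Fintype.card_fin, nsmul_eq_mul]
      have h4 : ((⌈k * α i⌉₊ : ℕ) : ℝ) ≤ k * α i + 1 :=
        (Nat.ceil_lt_add_one (mul_nonneg hk'.le (hα i))).le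
      nlinarith [(P i).width_nonneg]
    have h5 : L * k ≤ 1 / minWidth K * (k * ∑ i, α i * (P i).width + S) :=
      (hL k).trans (h1.trans (mul_le_mul_of_nonneg_left h3 (one_div_nonneg.mpr hw.le)))
    have h6 : minWidth K * (L * k) ≤ k * ∑ i, α i * (P i).width + S := by
      calc minWidth K * (L * k) ≤ minWidth K *
            (1 / minWidth K * (k * ∑ i, α i * (P i).width + S)) :=
            mul_le_mul_of_nonneg_left h5 hw.le
        _ = _ := by field_simp
    calc minWidth K * L = minWidth K * (L * k) / k := by field_simp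
      _ ≤ (k * ∑ i, α i * (P i).width + S) / k := div_le_div_of_nonneg_right h6 hk'.le
      _ = ∑ i, α i * (P i).width + S / k := by field_simp
  have hlim : Tendsto (fun k : ℕ => ∑ i, α i * (P i).width + S / (k : ℝ)) atTop
      (𝓝 (∑ i, α i * (P i).width + 0)) :=
    tendsto_const_nhds.add (tendsto_const_div_atTop_nhds_zero_nat _)
  rw [add_zero] at hlim
  refine ge_of_tendsto hlim ?_
  filter_upwards [eventually_gt_atTop 0] with k hk
  exact key k hk

lemma fracN_le_of_limit (hd : 0 < d) {K : Set (E d)} (hK : IsConvexBody K) {L : ℝ}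
    (hL : Tendsto (fun k : ℕ => plankConst K k / k) atTop (𝓝 L)) {f : E d → ℝ}
    (hf : ∀ x ∈ K, f x ≤ 1) : fracN K f ≤ minWidth K * L := by
  classical
  have hw := minWidth_pos hd hK
  have key : ∀ k : ℕ, 0 < k → fracN K f / minWidth K ≤ plankConst K k / k := by
    intro k hk
    have hk' : (0 : ℝ) < k := by exact_mod_cast hk
    rw [le_div_iff₀ hk']
    obtain ⟨m₀, P₀, hP₀⟩ := exists_covering hd hK k
    refine le_csInf ⟨_, m₀, P₀, hP₀, rfl⟩ ?_
    rintro s ⟨m, P, hP, rfl⟩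
    have h1 : fracN K f ≤ ∑ i, 1 / (k : ℝ) * (P i).width := by
      refine fracN_le ⟨m, P, fun _ => 1 / (k : ℝ), fun _ => by positivity, ?_, rfl⟩
      intro x hx
      refine (hf x hx).trans ?_
      rw [← Finset.mul_sum]
      have h2 := hP x hx
      have h3 : ∑ i, (P i).carrier.indicator (fun _ => (1 : ℝ)) x =
          (Set.ncard {i : Fin m | x ∈ (P i).carrier} : ℝ) := by
        rw [Set.ncard_eq_toFinset_card', Finset.card_eq_sum_ones]
        push_cast
        rw [← Finset.sum_subset (Finset.subset_univ ({i : Fin m | x ∈ (P i).carrier}.toFinset))]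
        · refine Finset.sum_congr rfl fun i hi => ?_
          rw [Set.mem_toFinset] at hi
          have hi' : x ∈ (P i).carrier := hi
          rw [indicator_of_mem hi']
        · intro i _ hi
          rw [Set.mem_toFinset] at hi
          have hi' : x ∉ (P i).carrier := hi
          exact indicator_of_notMem hi' _
      rw [h3, div_mul_eq_mul_div, one_mul, le_div_iff₀ hk', one_mul]
      exact_mod_cast h2
    rw [← Finset.mul_sum] at h1
    calc fracN K f / minWidth K * k ≤ (1 / (k : ℝ) * ∑ i, (P i).width) / minWidth K * k := by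
          gcongr
      _ = 1 / minWidth K * ∑ i, (P i).width := by field_simp
  have h2 : fracN K f / minWidth K ≤ L := by
    refine ge_of_tendsto hL ?_
    filter_upwards [eventually_gt_atTop 0] with k hk
    exact key k hk
  rw [div_le_iff₀ hw] at h2
  linarith

lemma bddAbove_image_Cc {K : Set (E d)} (hK : IsCompact K) (f : C_c(E d, ℝ)) :
    BddAbove ((fun x => f x) '' K) :=
  (hK.image f.continuous).bddAbove

/-- **Duality.** There is a plank measure on `K` of mass `w(K) * lim c_K(k)/k`. -/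
lemma exists_plankMeasure (hd : 0 < d) {K : Set (E d)} (hK : IsConvexBody K) {L : ℝ}
    (hL1 : ∀ k : ℕ, L * k ≤ plankConst K k)
    (hL2 : Tendsto (fun k : ℕ => plankConst K k / k) atTop (𝓝 L)) (hL0 : 0 ≤ L) :
    ∃ μ : Measure (E d), IsPlankMeasure K μ ∧ μ univ = ENNReal.ofReal (minWidth K * L) := by
  have hw := minWidth_pos hd hK
  -- a cut-off function
  obtain ⟨φ₀, hφ1, -, hφc, hφI⟩ := exists_continuous_one_zero_of_isCompact hK.1
    (isClosed_empty (X := E d)) (disjoint_empty K)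
  let φ : C_c(E d, ℝ) := ⟨φ₀, hφc⟩
  have hφK : ∀ x ∈ K, φ x = 1 := fun x hx => hφ1 hx
  have hφne : φ ≠ 0 := by
    obtain ⟨x, hx⟩ := hK.nonempty
    intro h
    have := hφK x hx
    rw [h] at this
    simp at this
  set F : ℝ := minWidth K * L with hF
  have hF0 : 0 ≤ F := mul_nonneg hw.le hL0
  let N : C_c(E d, ℝ) → ℝ := fun f => fracN K (fun x => f x)
  have hNφ : N φ = F := by
    refine le_antisymm (fracN_le_of_limit hd hK hL2 fun x hx => (hφK x hx).le) ?_
    refine le_csInf (fracCost_nonempty hd hK (bddAbove_image_Cc hK.1 φ)) fun c hc => ?_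
    exact le_of_fracCost hd hK hL1 (fun x hx => (hφK x hx).ge) hc
  have hNhom : ∀ c : ℝ, 0 < c → ∀ f : C_c(E d, ℝ), N (c • f) = c * N f := by
    intro c hc f
    exact fracN_smul (f := fun x => f x) hc
  have hNadd : ∀ f g : C_c(E d, ℝ), N (f + g) ≤ N f + N g := by
    intro f g
    exact fracN_add_le hd hK (bddAbove_image_Cc hK.1 f) (bddAbove_image_Cc hK.1 g)
  let f₀ : C_c(E d, ℝ) →ₗ.[ℝ] ℝ := LinearPMap.mkSpanSingleton φ F hφne
  have hf₀ : ∀ x : f₀.domain, f₀ x ≤ N x := by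
    rintro ⟨x, hx⟩
    have hx' : x ∈ Submodule.span ℝ {φ} := hx
    obtain ⟨c, rfl⟩ := Submodule.mem_span_singleton.mp hx'
    have h1 : f₀ ⟨c • φ, hx⟩ = c * F := by
      simp only [f₀, LinearPMap.mkSpanSingleton'_apply]
      simp
    rw [h1]
    rcases lt_or_ge 0 c with hc | hc
    · change c * F ≤ N (c • φ)
      rw [hNhom c hc, hNφ]
    · exact (mul_nonpos_of_nonpos_of_nonneg hc hF0).trans (fracN_nonneg _ _)
  obtain ⟨g, hg1, hg2⟩ := exists_extension_of_le_sublinear f₀ N hNhom hNadd hf₀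
  have hgφ : g φ = F := by
    have h1 := hg1 ⟨φ, Submodule.mem_span_singleton_self φ⟩
    rw [h1]
    exact LinearPMap.mkSpanSingleton_apply ℝ ℝ hφne F
  have hgnonpos : ∀ f : C_c(E d, ℝ), (∀ x ∈ K, f x ≤ 0) → g f ≤ 0 := fun f hf =>
    (hg2 f).trans (fracN_nonpos_of_nonpos hf)
  have hgpos : ∀ f : C_c(E d, ℝ), 0 ≤ f → 0 ≤ g f := by
    intro f hf
    have h1 := hgnonpos (-f) (fun x _ => by
      have := hf x
      simpa using this)
    rw [map_neg] at h1
    linarith
  let Λ : C_c(E d, ℝ) →ₚ[ℝ] ℝ := PositiveLinearMap.mk₀ g hgpos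
  have hΛ : ∀ f, Λ f = g f := fun f => rfl
  let μ := RealRMK.rieszMeasure Λ
  have hμK : μ Kᶜ = 0 := by
    rw [hK.1.isClosed.isOpen_compl.measure_eq_iSup_isCompact]
    refine le_antisymm ?_ zero_le
    refine iSup_le fun C => iSup_le fun hC => iSup_le fun hCc => ?_
    obtain ⟨f₁, hf1, hf2, hfc, hfI⟩ := exists_continuous_one_zero_of_isCompact hCc
      hK.1.isClosed (disjoint_left.mpr fun x hx hxK => hC hx hxK)
    let f : C_c(E d, ℝ) := ⟨f₁, hfc⟩
    have h1 : μ C ≤ ENNReal.ofReal (Λ f) :=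
      RealRMK.rieszMeasure_le_of_eq_one Λ (fun x => (hfI x).1) hCc (fun x hx => hf1 hx)
    have h2 : Λ f ≤ 0 := by
      rw [hΛ]
      exact hgnonpos f fun x hx => (hf2 hx).le
    rwa [ENNReal.ofReal_of_nonpos h2] at h1
  have hae : ∀ᵐ x ∂μ, x ∈ K := by
    rw [ae_iff]
    exact hμK
  refine ⟨μ, ⟨hμK, ?_⟩, ?_⟩
  · intro Q
    have key : ∀ ε : ℝ, 0 < ε → μ Q.carrier ≤ ENNReal.ofReal (Q.width + 2 * ε) := by
      intro ε hε
      have hQc : IsClosed Q.carrier := by
        have h2 : Continuous fun y : E d => (inner ℝ y Q.normal : ℝ) := by fun_prop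
        exact (isClosed_le continuous_const h2).inter (isClosed_le h2 continuous_const)
      have hs : IsCompact (K ∩ Q.carrier) := hK.1.inter_right hQc
      have ht : IsClosed ({x : E d | inner ℝ x Q.normal ≤ Q.lo - ε} ∪
          {x : E d | Q.hi + ε ≤ inner ℝ x Q.normal}) := by
        have h2 : Continuous fun y : E d => (inner ℝ y Q.normal : ℝ) := by fun_prop
        exact (isClosed_le h2 continuous_const).union (isClosed_le continuous_const h2)
      obtain ⟨f₁, hf1, hf2, hfc, hfI⟩ := exists_continuous_one_zero_of_isCompact hs ht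
        (by
          rw [Set.disjoint_left]
          rintro x ⟨-, hx1, hx2⟩ (hx3 | hx3)
          · simp only [mem_ofPred_eq] at hx3
            linarith
          · simp only [mem_ofPred_eq] at hx3
            linarith)
      let f : C_c(E d, ℝ) := ⟨f₁, hfc⟩
      have h1 : μ (K ∩ Q.carrier) ≤ ENNReal.ofReal (Λ f) :=
        RealRMK.rieszMeasure_le_of_eq_one Λ (fun x => (hfI x).1) hs (fun x hx => hf1 hx)
      have h2 : Λ f ≤ Q.width + 2 * ε := by
        rw [hΛ]
        refine (hg2 f).trans (fracN_le ?_)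
        let Q' : Plank d := ⟨Q.normal, Q.lo - ε, Q.hi + ε, Q.norm_normal, by
          have := Q.lo_le_hi
          linarith⟩
        refine ⟨1, fun _ => Q', fun _ => 1, fun _ => zero_le_one, ?_, ?_⟩
        · intro x _
          simp only [Finset.univ_unique, Finset.sum_singleton, one_mul]
          by_cases hx : x ∈ Q'.carrier
          · rw [indicator_of_mem hx]
            exact (hfI x).2
          · rw [indicator_of_notMem hx]
            have hx' : x ∈ {x : E d | inner ℝ x Q.normal ≤ Q.lo - ε} ∪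
                {x : E d | Q.hi + ε ≤ inner ℝ x Q.normal} := by
              by_contra hcon
              apply hx
              simp only [mem_union, mem_ofPred_eq, not_or, not_le] at hcon
              exact ⟨hcon.1.le, hcon.2.le⟩
            exact (hf2 hx').le
        · simp only [Finset.univ_unique, Finset.sum_singleton, one_mul, Plank.width, Q']
          ring
      calc μ Q.carrier ≤ μ (K ∩ Q.carrier) := by
            refine measure_mono_ae ?_
            filter_upwards [hae] with x hx hxQ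
            exact ⟨hx, hxQ⟩
        _ ≤ ENNReal.ofReal (Λ f) := h1
        _ ≤ ENNReal.ofReal (Q.width + 2 * ε) := ENNReal.ofReal_le_ofReal h2
    have h2 : Tendsto (fun ε : ℝ => ENNReal.ofReal (Q.width + 2 * ε)) (𝓝[>] 0)
        (𝓝 (ENNReal.ofReal (Q.width + 2 * 0))) := by
      apply tendsto_nhdsWithin_of_tendsto_nhds
      exact (ENNReal.continuous_ofReal.comp
        (by fun_prop : Continuous fun ε : ℝ => Q.width + 2 * ε)).tendsto 0
    rw [mul_zero, add_zero] at h2
    refine ge_of_tendsto h2 ?_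
    filter_upwards [self_mem_nhdsWithin] with ε hε
    exact key ε hε
  · have h1 : ∫ x, φ x ∂μ = F := by
      rw [RealRMK.integral_rieszMeasure Λ φ, hΛ, hgφ]
    have hfin : μ univ < ⊤ := by
      have h3 : μ K < ⊤ := hK.1.measure_lt_top
      calc μ univ ≤ μ K + μ Kᶜ := by
            rw [← union_compl_self K]; exact measure_union_le _ _
        _ < ⊤ := by rw [hμK, add_zero]; exact h3
    have : IsFiniteMeasure μ := ⟨hfin⟩
    have h2 : ∫ x, φ x ∂μ = ∫ _x, (1 : ℝ) ∂μ := by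
      refine integral_congr_ae ?_
      filter_upwards [hae] with x hx
      exact hφK x hx
    rw [h2, integral_const, smul_eq_mul, mul_one] at h1
    rw [← h1, Measure.real, ENNReal.ofReal_toReal hfin.ne]

/-- Every plank measure has mass at most `w(K) * lim c_K(k)/k`. -/
lemma plankMeasure_univ_le (hd : 0 < d) {K : Set (E d)} (hK : IsConvexBody K) {L : ℝ}
    (hL2 : Tendsto (fun k : ℕ => plankConst K k / k) atTop (𝓝 L))
    {ν : Measure (E d)} (hν : IsPlankMeasure K ν) :
    ν univ ≤ ENNReal.ofReal (minWidth K * L) := by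
  have hw := minWidth_pos hd hK
  by_contra hcon
  push Not at hcon
  obtain ⟨M, hM1, hM2⟩ := ENNReal.lt_iff_exists_nnreal_btwn.mp hcon
  have hM3 : ENNReal.ofReal (M : ℝ) ≤ ν univ := by
    rw [ENNReal.ofReal_coe_nnreal]
    exact hM2.le
  have h1 : ∀ k : ℕ, (M : ℝ) / minWidth K * k ≤ plankConst K k := fun k =>
    le_plankConst_of_measure hd hK k ν hν.1 M.2 hM3 hν.2
  have h2 : (M : ℝ) / minWidth K ≤ L := by
    refine ge_of_tendsto hL2 ?_
    filter_upwards [eventually_gt_atTop 0] with k hk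
    have hk' : (0 : ℝ) < k := by exact_mod_cast hk
    rw [le_div_iff₀ hk']
    exact h1 k
  rw [div_le_iff₀ hw] at h2
  rw [← ENNReal.ofReal_coe_nnreal] at hM1
  have h3 := (ENNReal.ofReal_lt_ofReal_iff_of_nonneg (by
    have : 0 ≤ L := by
      refine ge_of_tendsto hL2 ?_
      filter_upwards with k
      exact div_nonneg (plankConst_nonneg hw.le k) (Nat.cast_nonneg _)
    positivity)).mp hM1
  linarith

end Pool.Agent.Lib.MP_4043ba_gt
end

section

set_option autoImplicit false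

open Set Metric MeasureTheory Real Filter Topology

namespace Pool.Agent.Lib.MP_4043ba_gt

/-- The profile function of the spherical sectors of the ball of `ℝ^(n+1)`. -/
noncomputable def hfun (n : ℕ) (t : ℝ) : ℝ :=
  √(1 - t ^ 2) ^ n * t / (n + 1) + ∫ z in t..1, √(1 - z ^ 2) ^ n

lemma volume_ball_sq {n : ℕ} (hn : 1 ≤ n) (A : ℝ) (hA : 0 ≤ A) :
    volume {p : E n | ‖p‖ ^ 2 < A} = ENNReal.ofReal (√A ^ n) * volume (ball (0 : E n) 1) := by
  have h1 : {p : E n | ‖p‖ ^ 2 < A} = ball 0 (√A) := by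
    ext p
    rw [mem_ball_zero_iff, mem_ofPred_eq, Real.lt_sqrt (norm_nonneg _)]
  rcases hA.eq_or_lt with h0 | hpos
  · rw [h1, ← h0, Real.sqrt_zero, ball_zero, measure_empty, zero_pow (by omega),
      ENNReal.ofReal_zero, zero_mul]
  · rw [h1, Measure.addHaar_ball_of_pos _ _ (Real.sqrt_pos.mpr hpos), finrank_euclideanSpace,
      Fintype.card_fin]

/-- Volume of a spherical sector of the unit ball of `ℝ^(n+1)`. -/
lemma volume_sector {n : ℕ} (hn : 1 ≤ n) (θ : E (n + 1)) (hθ : ‖θ‖ = 1) (t : ℝ) (ht0 : 0 ≤ t)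
    (ht1 : t ≤ 1) :
    volume {y : E (n + 1) | ‖y‖ < 1 ∧ t * ‖y‖ < inner ℝ y θ} =
      ENNReal.ofReal (hfun n t) * volume (ball (0 : E n) 1) := by
  have hS : MeasurableSet {q : ℝ × ℝ | q.2 < 1 ∧ t * √q.2 < q.1} := by
    have hm1 : Measurable fun q : ℝ × ℝ => t * √q.2 := by fun_prop
    exact (measurableSet_lt measurable_snd measurable_const).inter
      (measurableSet_lt hm1 measurable_fst)
  have h1 := volume_slice n θ hθ _ hS
  have h2 : {y : E (n + 1) | ‖y‖ < 1 ∧ t * ‖y‖ < inner ℝ y θ} =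
      {y : E (n + 1) | ((inner ℝ y θ : ℝ), ‖y‖ ^ 2) ∈ {q : ℝ × ℝ | q.2 < 1 ∧ t * √q.2 < q.1}} := by
    ext y
    simp only [mem_ofPred_eq, Real.sqrt_sq (norm_nonneg _)]
    rw [sq_lt_one_iff₀ (norm_nonneg _)]
  rw [h2, h1]
  set V := volume (ball (0 : E n) 1) with hV
  -- the slices
  have hslice : ∀ z : ℝ, volume {p : E n | (z, z ^ 2 + ‖p‖ ^ 2) ∈
      {q : ℝ × ℝ | q.2 < 1 ∧ t * √q.2 < q.1}} =
      (Ioc 0 t).indicator (fun z => ENNReal.ofReal ((z * √(1 / t ^ 2 - 1)) ^ n) * V) z +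
      (Ioo t 1).indicator (fun z => ENNReal.ofReal (√(1 - z ^ 2) ^ n) * V) z := by
    intro z
    simp only [mem_ofPred_eq]
    by_cases hz1 : z ∈ Ioc 0 t
    · have hz2 : z ∉ Ioo t 1 := fun h => absurd h.1 (not_lt.mpr hz1.2)
      rw [indicator_of_mem hz1, indicator_of_notMem hz2, add_zero]
      have htpos : 0 < t := hz1.1.trans_le hz1.2
      have ht2 : t ^ 2 ≤ 1 := by nlinarith
      have hA : 0 ≤ z ^ 2 * (1 / t ^ 2 - 1) := by
        refine mul_nonneg (sq_nonneg _) (sub_nonneg.mpr ?_)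
        rw [le_div_iff₀ (by positivity)]
        linarith
      have hz0 : 0 < z := hz1.1
      have e0 : z * √(1 / t ^ 2 - 1) = √(z ^ 2 * (1 / t ^ 2 - 1)) := by
        rw [Real.sqrt_mul (sq_nonneg z), Real.sqrt_sq hz0.le]
      rw [e0, ← volume_ball_sq hn _ hA]
      congr 1
      ext p
      simp only [mem_ofPred_eq]
      have hq : 0 ≤ z ^ 2 + ‖p‖ ^ 2 := by positivity
      have key : t * √(z ^ 2 + ‖p‖ ^ 2) < z ↔ ‖p‖ ^ 2 < z ^ 2 * (1 / t ^ 2 - 1) := by
        have e1 : z ^ 2 * (1 / t ^ 2 - 1) = z ^ 2 / t ^ 2 - z ^ 2 := by ring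
        rw [e1, lt_sub_iff_add_lt, lt_div_iff₀ (by positivity)]
        have e2 : (‖p‖ ^ 2 + z ^ 2) * t ^ 2 = (t * √(z ^ 2 + ‖p‖ ^ 2)) ^ 2 := by
          rw [mul_pow, Real.sq_sqrt hq]; ring
        rw [e2]
        exact (pow_lt_pow_iff_left₀ (by positivity) hz0.le (by norm_num)).symm
      constructor
      · rintro ⟨-, h⟩
        exact key.mp h
      · intro h
        refine ⟨?_, key.mpr h⟩
        have e1 : z ^ 2 * (1 / t ^ 2 - 1) = z ^ 2 / t ^ 2 - z ^ 2 := by ring
        rw [e1] at h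
        have h3 : z ^ 2 / t ^ 2 ≤ 1 := by
          rw [div_le_one (by positivity)]
          exact pow_le_pow_left₀ hz0.le hz1.2 2
        linarith
    · rw [indicator_of_notMem hz1, zero_add]
      by_cases hz2 : z ∈ Ioo t 1
      · rw [indicator_of_mem hz2]
        have hz0 : 0 < z := ht0.trans_lt hz2.1
        have hA : 0 ≤ 1 - z ^ 2 := by nlinarith [hz2.2]
        rw [← volume_ball_sq hn _ hA]
        congr 1
        ext p
        simp only [mem_ofPred_eq]
        constructor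
        · rintro ⟨h, -⟩
          linarith
        · intro h
          refine ⟨by linarith, ?_⟩
          have h4 : √(z ^ 2 + ‖p‖ ^ 2) ≤ 1 := Real.sqrt_le_one.mpr (by linarith)
          have := hz2.1
          nlinarith [Real.sqrt_nonneg (z ^ 2 + ‖p‖ ^ 2)]
      · rw [indicator_of_notMem hz2]
        have hempty : {p : E n | z ^ 2 + ‖p‖ ^ 2 < 1 ∧ t * √(z ^ 2 + ‖p‖ ^ 2) < z} = ∅ := by
          rw [Set.eq_empty_iff_forall_notMem]
          rintro p ⟨h5, h6⟩
          have hz0 : 0 < z := lt_of_le_of_lt (by positivity) h6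
          have hzt : t < z := by
            by_contra hcon
            exact hz1 ⟨hz0, not_lt.mp hcon⟩
          refine hz2 ⟨hzt, ?_⟩
          have : z ^ 2 < 1 := by nlinarith [sq_nonneg ‖p‖]
          nlinarith
        rw [hempty, measure_empty]
  simp_rw [hslice]
  rw [lintegral_add_left]
  swap
  · exact (Measurable.indicator (by fun_prop) measurableSet_Ioc)
  rw [lintegral_indicator measurableSet_Ioc, lintegral_indicator measurableSet_Ioo,
    lintegral_mul_const _ (by fun_prop), lintegral_mul_const _ (by fun_prop), ← add_mul]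
  congr 1
  have hI1 : ∫⁻ z in Ioc 0 t, ENNReal.ofReal ((z * √(1 / t ^ 2 - 1)) ^ n) =
      ENNReal.ofReal (√(1 - t ^ 2) ^ n * t / (n + 1)) := by
    rw [← ofReal_integral_eq_lintegral_ofReal]
    · congr 1
      rw [← intervalIntegral.integral_of_le ht0]
      have e1 : ∀ z : ℝ, (z * √(1 / t ^ 2 - 1)) ^ n = z ^ n * √(1 / t ^ 2 - 1) ^ n := fun z => by
        rw [mul_pow]
      simp_rw [e1]
      rw [intervalIntegral.integral_mul_const, integral_pow]
      rcases ht0.eq_or_lt with rfl | htpos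
      · simp
      · have e2 : √(1 - t ^ 2) = t * √(1 / t ^ 2 - 1) := by
          have : (1 : ℝ) - t ^ 2 = t ^ 2 * (1 / t ^ 2 - 1) := by field_simp
          rw [this, Real.sqrt_mul (sq_nonneg t), Real.sqrt_sq htpos.le]
        rw [e2, mul_pow, zero_pow (by omega), sub_zero, pow_succ]
        ring
    · exact (Continuous.integrableOn_Icc (by fun_prop)).mono_set Ioc_subset_Icc_self
    · filter_upwards [ae_restrict_mem measurableSet_Ioc] with z hz
      exact pow_nonneg (mul_nonneg hz.1.le (Real.sqrt_nonneg _)) _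
  have hI2 : ∫⁻ z in Ioo t 1, ENNReal.ofReal (√(1 - z ^ 2) ^ n) =
      ENNReal.ofReal (∫ z in t..1, √(1 - z ^ 2) ^ n) := by
    rw [← ofReal_integral_eq_lintegral_ofReal]
    · congr 1
      rw [← integral_Ioc_eq_integral_Ioo, ← intervalIntegral.integral_of_le ht1]
    · exact (Continuous.integrableOn_Icc (by fun_prop)).mono_set Ioo_subset_Icc_self
    · filter_upwards with z
      positivity
  rw [hI1, hI2, ← ENNReal.ofReal_add, hfun]
  · positivity
  · exact intervalIntegral.integral_nonneg ht1 fun z _ => by positivity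

lemma hfun_continuous (n : ℕ) : Continuous (hfun n) := by
  have hc : Continuous fun z : ℝ => √(1 - z ^ 2) ^ n := by fun_prop
  have h1 : Continuous fun t : ℝ => ∫ z in t..1, √(1 - z ^ 2) ^ n := by
    have : (fun t : ℝ => ∫ z in t..1, √(1 - z ^ 2) ^ n) =
        fun t : ℝ => -∫ z in (1 : ℝ)..t, √(1 - z ^ 2) ^ n := by
      funext t
      rw [intervalIntegral.integral_symm]
    rw [this]
    exact (intervalIntegral.continuous_primitive
      (fun a b => hc.intervalIntegrable a b) 1).neg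
  unfold hfun
  exact (by fun_prop : Continuous fun t : ℝ => √(1 - t ^ 2) ^ n * t / (n + 1)).add h1

lemma hfun_hasDerivAt {n : ℕ} (hn : 2 ≤ n) {t : ℝ} (ht : t ∈ Ioo (-1 : ℝ) 1) :
    HasDerivAt (hfun n) (-((n : ℝ) / (n + 1) * √(1 - t ^ 2) ^ (n - 2))) t := by
  obtain ⟨m, rfl⟩ : ∃ m, n = m + 2 := ⟨n - 2, by omega⟩
  have hpos : 0 < 1 - t ^ 2 := by nlinarith [ht.1, ht.2]
  have hs : 0 < √(1 - t ^ 2) := Real.sqrt_pos.mpr hpos
  have hc : Continuous fun z : ℝ => √(1 - z ^ 2) ^ (m + 2) := by fun_prop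
  have h1 : HasDerivAt (fun t : ℝ => ∫ z in t..1, √(1 - z ^ 2) ^ (m + 2))
      (-(√(1 - t ^ 2) ^ (m + 2))) t :=
    intervalIntegral.integral_hasDerivAt_left (hc.intervalIntegrable _ _)
      hc.stronglyMeasurable.stronglyMeasurableAtFilter hc.continuousAt
  have h2 : HasDerivAt (fun t : ℝ => 1 - t ^ 2) (-(2 * t)) t := by
    have := ((hasDerivAt_id t).pow 2).const_sub 1
    simpa using this
  have h3 : HasDerivAt (fun t : ℝ => √(1 - t ^ 2)) (-(2 * t) / (2 * √(1 - t ^ 2))) t :=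
    h2.sqrt hpos.ne'
  have h4 : HasDerivAt (fun t : ℝ => √(1 - t ^ 2) ^ (m + 2))
      (((m + 2 : ℕ) : ℝ) * √(1 - t ^ 2) ^ (m + 1) * (-(2 * t) / (2 * √(1 - t ^ 2)))) t := by
    have := h3.fun_pow (m + 2)
    simpa using this
  have h5 := ((h4.mul (hasDerivAt_id t)).div_const (((m + 2 : ℕ) : ℝ) + 1)).add h1
  refine h5.congr_deriv ?_
  simp only [id, Nat.add_sub_cancel]
  set s := √(1 - t ^ 2) with hsdef
  have hs2 : s ^ 2 = 1 - t ^ 2 := Real.sq_sqrt hpos.le
  have e1 : s ^ (m + 1) * (-(2 * t) / (2 * s)) = -(t * s ^ m) := by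
    rw [pow_succ]; field_simp
  have e2 : ((m + 2 : ℕ) : ℝ) * s ^ (m + 1) * (-(2 * t) / (2 * s)) =
      -(((m + 2 : ℕ) : ℝ) * t * s ^ m) := by
    rw [mul_assoc, e1]; ring
  rw [e2]
  have e3 : s ^ (m + 2) = s ^ m * (1 - t ^ 2) := by rw [pow_add, hs2]
  rw [e3]
  push_cast
  field_simp
  ring

lemma hfun_one {n : ℕ} (hn : 1 ≤ n) : hfun n 1 = 0 := by
  unfold hfun
  simp [zero_pow (by omega : n ≠ 0)]

lemma hfun_sub_le {n : ℕ} (hn : 2 ≤ n) {a b : ℝ} (ha : 0 ≤ a) (hab : a ≤ b) (hb : b ≤ 1) :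
    hfun n a - hfun n b ≤ (n : ℝ) / (n + 1) * (b - a) := by
  have hdiff : DifferentiableOn ℝ (hfun n) (interior (Icc 0 1)) := by
    intro t ht
    rw [interior_Icc] at ht
    exact (hfun_hasDerivAt hn ⟨by linarith [ht.1], ht.2⟩).differentiableAt.differentiableWithinAt
  have hder : ∀ t ∈ interior (Icc (0 : ℝ) 1), -((n : ℝ) / (n + 1)) ≤ deriv (hfun n) t := by
    intro t ht
    rw [interior_Icc] at ht
    rw [(hfun_hasDerivAt hn ⟨by linarith [ht.1], ht.2⟩).deriv]
    have h1 : √(1 - t ^ 2) ^ (n - 2) ≤ 1 :=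
      pow_le_one₀ (Real.sqrt_nonneg _) (Real.sqrt_le_one.mpr (by nlinarith))
    have h2 : (0 : ℝ) ≤ (n : ℝ) / (n + 1) := by positivity
    nlinarith
  have := (convex_Icc (0 : ℝ) 1).mul_sub_le_image_sub_of_le_deriv
    (hfun_continuous n).continuousOn hdiff hder a ⟨ha, hab.trans hb⟩ b ⟨ha.trans hab, hb⟩ hab
  linarith

lemma hfun_sub_ge {n : ℕ} (hn : 2 ≤ n) {ε : ℝ} (h0 : 0 ≤ ε) (h1 : ε < 1) :
    (n : ℝ) / (n + 1) * √(1 - ε ^ 2) ^ (n - 2) * ε ≤ hfun n 0 - hfun n ε := by
  have hdiff : DifferentiableOn ℝ (hfun n) (interior (Icc 0 ε)) := by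
    intro t ht
    rw [interior_Icc] at ht
    exact (hfun_hasDerivAt hn ⟨by linarith [ht.1], by linarith [ht.2]⟩).differentiableAt.differentiableWithinAt
  have hder : ∀ t ∈ interior (Icc (0 : ℝ) ε),
      deriv (hfun n) t ≤ -((n : ℝ) / (n + 1) * √(1 - ε ^ 2) ^ (n - 2)) := by
    intro t ht
    rw [interior_Icc] at ht
    rw [(hfun_hasDerivAt hn ⟨by linarith [ht.1], by linarith [ht.2]⟩).deriv]
    have h2 : √(1 - ε ^ 2) ^ (n - 2) ≤ √(1 - t ^ 2) ^ (n - 2) :=
      pow_le_pow_left₀ (Real.sqrt_nonneg _) (Real.sqrt_le_sqrt (by nlinarith [ht.1, ht.2])) _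
    have h3 : (0 : ℝ) ≤ (n : ℝ) / (n + 1) := by positivity
    exact neg_le_neg (mul_le_mul_of_nonneg_left h2 h3)
  have := (convex_Icc (0 : ℝ) ε).image_sub_le_mul_sub_of_deriv_le
    (hfun_continuous n).continuousOn hdiff hder 0 ⟨le_rfl, h0⟩ ε ⟨h0, le_rfl⟩ h0
  linarith

lemma hfun_nonneg {n : ℕ} {t : ℝ} (ht0 : 0 ≤ t) (ht1 : t ≤ 1) : 0 ≤ hfun n t := by
  unfold hfun
  have : 0 ≤ ∫ z in t..1, √(1 - z ^ 2) ^ n :=
    intervalIntegral.integral_nonneg ht1 fun z _ => by positivity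
  positivity

lemma volume_hyperplane {n : ℕ} (θ : E n) (hθ : ‖θ‖ = 1) :
    volume {y : E n | inner ℝ y θ = (0 : ℝ)} = 0 := by
  have h1 : {y : E n | inner ℝ y θ = (0 : ℝ)} = ((ℝ ∙ θ)ᗮ : Submodule ℝ (E n)) := by
    ext y
    rw [SetLike.mem_coe, Submodule.mem_orthogonal_singleton_iff_inner_left]
    rfl
  rw [h1]
  refine Measure.addHaar_submodule _ _ fun htop => ?_
  have h2 : θ ∈ (ℝ ∙ θ)ᗮ := by rw [htop]; trivial
  rw [Submodule.mem_orthogonal_singleton_iff_inner_left, real_inner_self_eq_norm_sq, hθ] at h2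
  norm_num at h2

lemma measurableSet_strict' {n : ℕ} (θ : E n) (t : ℝ) :
    MeasurableSet {y : E n | ‖y‖ < 1 ∧ t * ‖y‖ < inner ℝ y θ} := by
  have h1 : Measurable fun y : E n => t * ‖y‖ := by fun_prop
  have h2 : Measurable fun y : E n => (inner ℝ y θ : ℝ) := by fun_prop
  exact (measurableSet_lt measurable_norm measurable_const).inter (measurableSet_lt h1 h2)

lemma nonstrict_le {n : ℕ} (hn : 2 ≤ n) (θ : E (n + 1)) (hθ : ‖θ‖ = 1) (t : ℝ) (ht0 : 0 ≤ t)
    (ht1 : t ≤ 1) :
    volume {y : E (n + 1) | ‖y‖ < 1 ∧ t * ‖y‖ ≤ inner ℝ y θ} ≤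
      ENNReal.ofReal (hfun n t) * volume (ball (0 : E n) 1) := by
  rcases ht0.eq_or_lt with h0 | hpos
  · subst h0
    rw [← volume_sector (by omega) θ hθ 0 le_rfl zero_le_one]
    calc volume {y : E (n + 1) | ‖y‖ < 1 ∧ 0 * ‖y‖ ≤ inner ℝ y θ}
        ≤ volume ({y : E (n + 1) | ‖y‖ < 1 ∧ 0 * ‖y‖ < inner ℝ y θ} ∪
          {y : E (n + 1) | inner ℝ y θ = (0 : ℝ)}) := by
          refine measure_mono ?_
          rintro y ⟨hy1, hy2⟩
          rcases hy2.lt_or_eq with h | h
          · exact Or.inl ⟨hy1, h⟩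
          · right
            rw [zero_mul] at h
            exact h.symm
      _ ≤ _ := by
          refine (measure_union_le _ _).trans ?_
          rw [volume_hyperplane θ hθ, add_zero]
  · have hle : ∀ s ∈ Ico 0 t, volume {y : E (n + 1) | ‖y‖ < 1 ∧ t * ‖y‖ ≤ inner ℝ y θ} ≤
        ENNReal.ofReal (hfun n s) * volume (ball (0 : E n) 1) := by
      intro s hs
      rw [← volume_sector (by omega) θ hθ s hs.1 (hs.2.le.trans ht1)]
      calc volume {y : E (n + 1) | ‖y‖ < 1 ∧ t * ‖y‖ ≤ inner ℝ y θ}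
          ≤ volume ({y : E (n + 1) | ‖y‖ < 1 ∧ s * ‖y‖ < inner ℝ y θ} ∪ {0}) := by
            refine measure_mono ?_
            rintro y ⟨hy1, hy2⟩
            rcases eq_or_ne y 0 with rfl | hy
            · right; rfl
            · left
              refine ⟨hy1, lt_of_lt_of_le ?_ hy2⟩
              exact mul_lt_mul_of_pos_right hs.2 (norm_pos_iff.mpr hy)
        _ ≤ volume {y : E (n + 1) | ‖y‖ < 1 ∧ s * ‖y‖ < inner ℝ y θ} +
            volume ({0} : Set (E (n + 1))) := measure_union_le _ _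
        _ = _ := by rw [measure_singleton, add_zero]
    have hlim : Tendsto (fun s : ℝ => ENNReal.ofReal (hfun n s) * volume (ball (0 : E n) 1))
        (𝓝[<] t) (𝓝 (ENNReal.ofReal (hfun n t) * volume (ball (0 : E n) 1))) := by
      apply tendsto_nhdsWithin_of_tendsto_nhds
      refine ENNReal.Tendsto.mul_const ?_ (Or.inr measure_ball_lt_top.ne)
      exact (ENNReal.continuous_ofReal.comp (hfun_continuous n)).tendsto t
    refine ge_of_tendsto hlim ?_
    filter_upwards [Ico_mem_nhdsLT hpos] with s hs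
    exact hle s hs

/-- Volume of the cone over a spherical zone of a half-sphere. -/
lemma band_le {n : ℕ} (hn : 2 ≤ n) (θ : E (n + 1)) (hθ : ‖θ‖ = 1) {a b : ℝ} (ha : 0 ≤ a)
    (hab : a ≤ b) (hb : b ≤ 1) :
    volume {y : E (n + 1) | ‖y‖ < 1 ∧ a * ‖y‖ ≤ inner ℝ y θ ∧ inner ℝ y θ ≤ b * ‖y‖} ≤
      ENNReal.ofReal ((n : ℝ) / (n + 1) * (b - a)) * volume (ball (0 : E n) 1) := by
  have hfinV : volume (ball (0 : E n) 1) ≠ ⊤ := measure_ball_lt_top.ne
  have hdisj : Disjoint {y : E (n + 1) | ‖y‖ < 1 ∧ b * ‖y‖ < inner ℝ y θ}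
      {y : E (n + 1) | ‖y‖ < 1 ∧ a * ‖y‖ ≤ inner ℝ y θ ∧ inner ℝ y θ ≤ b * ‖y‖} := by
    rw [Set.disjoint_left]
    rintro y ⟨-, h3⟩ ⟨-, -, h4⟩
    linarith
  have h3 : {y : E (n + 1) | ‖y‖ < 1 ∧ a * ‖y‖ ≤ inner ℝ y θ} =
      {y : E (n + 1) | ‖y‖ < 1 ∧ b * ‖y‖ < inner ℝ y θ} ∪
      {y : E (n + 1) | ‖y‖ < 1 ∧ a * ‖y‖ ≤ inner ℝ y θ ∧ inner ℝ y θ ≤ b * ‖y‖} := by
    ext y
    simp only [mem_union, mem_ofPred_eq]
    constructor
    · rintro ⟨h4, h5⟩
      rcases lt_or_ge (b * ‖y‖) (inner ℝ y θ) with h6 | h6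
      · exact Or.inl ⟨h4, h6⟩
      · exact Or.inr ⟨h4, h5, h6⟩
    · rintro (⟨h4, h5⟩ | ⟨h4, h5, -⟩)
      · refine ⟨h4, le_trans ?_ h5.le⟩
        exact mul_le_mul_of_nonneg_right hab (norm_nonneg _)
      · exact ⟨h4, h5⟩
  have h4 : volume {y : E (n + 1) | ‖y‖ < 1 ∧ b * ‖y‖ < inner ℝ y θ} +
      volume {y : E (n + 1) | ‖y‖ < 1 ∧ a * ‖y‖ ≤ inner ℝ y θ ∧ inner ℝ y θ ≤ b * ‖y‖} ≤
      ENNReal.ofReal (hfun n a) * volume (ball (0 : E n) 1) := by
    rw [← measure_union' hdisj (measurableSet_strict' θ b), ← h3]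
    exact nonstrict_le hn θ hθ a ha (hab.trans hb)
  rw [volume_sector (by omega) θ hθ b (ha.trans hab) hb] at h4
  have h5 : ENNReal.ofReal (hfun n b) * volume (ball (0 : E n) 1) ≠ ⊤ :=
    ENNReal.mul_ne_top ENNReal.ofReal_ne_top hfinV
  have h6 : ENNReal.ofReal (hfun n a) * volume (ball (0 : E n) 1) ≤
      ENNReal.ofReal (hfun n b) * volume (ball (0 : E n) 1) +
      ENNReal.ofReal ((n : ℝ) / (n + 1) * (b - a)) * volume (ball (0 : E n) 1) := by
    rw [← add_mul, ← ENNReal.ofReal_add (hfun_nonneg (ha.trans hab) hb)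
      (mul_nonneg (by positivity) (by linarith))]
    refine mul_le_mul_left (ENNReal.ofReal_le_ofReal ?_) _
    have := hfun_sub_le hn ha hab hb
    linarith
  exact (ENNReal.add_le_add_iff_left h5).mp (h4.trans h6)

/-- Half of the ball. -/
lemma volume_unitBall_eq {n : ℕ} (hn : 2 ≤ n) :
    volume (ball (0 : E (n + 1)) 1) =
      2 * (ENNReal.ofReal (hfun n 0) * volume (ball (0 : E n) 1)) := by
  obtain ⟨θ, hθ⟩ := sphere_nonempty (Nat.succ_pos n)
  have hθ1 : ‖θ‖ = 1 := by simpa using hθ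
  have hθ2 : ‖-θ‖ = 1 := by rw [norm_neg, hθ1]
  have h1 := volume_sector (by omega : 1 ≤ n) θ hθ1 0 le_rfl zero_le_one
  have h2 := volume_sector (by omega : 1 ≤ n) (-θ) hθ2 0 le_rfl zero_le_one
  have hdisj : Disjoint {y : E (n + 1) | ‖y‖ < 1 ∧ 0 * ‖y‖ < inner ℝ y θ}
      {y : E (n + 1) | ‖y‖ < 1 ∧ 0 * ‖y‖ < inner ℝ y (-θ)} := by
    rw [Set.disjoint_left]
    rintro y ⟨-, h3⟩ ⟨-, h4⟩
    rw [inner_neg_right] at h4
    linarith
  rw [two_mul]
  nth_rewrite 1 [← h1]
  rw [← h2, ← measure_union' hdisj (measurableSet_strict' θ 0)]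
  refine le_antisymm ?_ (measure_mono ?_)
  · calc volume (ball (0 : E (n + 1)) 1) ≤ volume (({y : E (n + 1) | ‖y‖ < 1 ∧ 0 * ‖y‖ < inner ℝ y θ} ∪
          {y : E (n + 1) | ‖y‖ < 1 ∧ 0 * ‖y‖ < inner ℝ y (-θ)}) ∪
          {y : E (n + 1) | inner ℝ y θ = (0 : ℝ)}) := by
          refine measure_mono fun y hy => ?_
          rw [mem_ball_zero_iff] at hy
          simp only [mem_union, mem_ofPred_eq, zero_mul, inner_neg_right]
          rcases lt_trichotomy (inner ℝ y θ : ℝ) 0 with h | h | h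
          · exact Or.inl (Or.inr ⟨hy, by linarith⟩)
          · exact Or.inr h
          · exact Or.inl (Or.inl ⟨hy, h⟩)
      _ ≤ _ := by
          refine (measure_union_le _ _).trans ?_
          rw [volume_hyperplane θ hθ1, add_zero]
  · rintro y (h | h) <;> exact mem_ball_zero_iff.mpr h.1

/-- Lower bound for the volume of the thin double cone around a hyperplane. -/
lemma le_volume_thin {n : ℕ} (hn : 2 ≤ n) (θ : E (n + 1)) (hθ : ‖θ‖ = 1) {ε : ℝ} (h0 : 0 ≤ ε)
    (h1 : ε < 1) :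
    ENNReal.ofReal (2 * ((n : ℝ) / (n + 1) * √(1 - ε ^ 2) ^ (n - 2) * ε)) *
      volume (ball (0 : E n) 1) ≤
      volume {y : E (n + 1) | ‖y‖ < 1 ∧ |inner ℝ y θ| ≤ ε * ‖y‖} := by
  have hfinV : volume (ball (0 : E n) 1) ≠ ⊤ := measure_ball_lt_top.ne
  have h2 := volume_sector (by omega : 1 ≤ n) θ hθ ε h0 h1.le
  have h3 := volume_sector (by omega : 1 ≤ n) (-θ) (by rw [norm_neg, hθ]) ε h0 h1.le
  have hcover : volume (ball (0 : E (n + 1)) 1) ≤
      volume {y : E (n + 1) | ‖y‖ < 1 ∧ |inner ℝ y θ| ≤ ε * ‖y‖} +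
      2 * (ENNReal.ofReal (hfun n ε) * volume (ball (0 : E n) 1)) := by
    rw [two_mul]
    nth_rewrite 1 [← h2]
    rw [← h3, ← add_assoc]
    refine le_trans (measure_mono ?_) (measure_union_le _ _)|>.trans
      (add_le_add_left (measure_union_le _ _) _)
    intro y hy
    rw [mem_ball_zero_iff] at hy
    simp only [mem_union, mem_ofPred_eq, inner_neg_right]
    rcases le_or_gt |(inner ℝ y θ : ℝ)| (ε * ‖y‖) with h | h
    · exact Or.inl (Or.inl ⟨hy, h⟩)
    · rcases lt_abs.mp h with h | h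
      · exact Or.inl (Or.inr ⟨hy, h⟩)
      · exact Or.inr ⟨hy, h⟩
  rw [volume_unitBall_eq hn] at hcover
  have h5 : 2 * (ENNReal.ofReal (hfun n ε) * volume (ball (0 : E n) 1)) ≠ ⊤ :=
    ENNReal.mul_ne_top (by norm_num) (ENNReal.mul_ne_top ENNReal.ofReal_ne_top hfinV)
  have h6 : ENNReal.ofReal (2 * ((n : ℝ) / (n + 1) * √(1 - ε ^ 2) ^ (n - 2) * ε)) *
      volume (ball (0 : E n) 1) + 2 * (ENNReal.ofReal (hfun n ε) * volume (ball (0 : E n) 1)) ≤
      2 * (ENNReal.ofReal (hfun n 0) * volume (ball (0 : E n) 1)) := by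
    have e3 : ∀ x : ℝ, (2 : ENNReal) * (ENNReal.ofReal x * volume (ball (0 : E n) 1)) =
        ENNReal.ofReal (2 * x) * volume (ball (0 : E n) 1) := by
      intro x
      rw [← mul_assoc, ENNReal.ofReal_mul (by norm_num : (0 : ℝ) ≤ 2), ENNReal.ofReal_ofNat]
    rw [e3, e3, ← add_mul, ← ENNReal.ofReal_add (by positivity)
      (mul_nonneg (by norm_num) (hfun_nonneg h0 h1.le))]
    refine mul_le_mul_left (ENNReal.ofReal_le_ofReal ?_) _
    have := hfun_sub_ge hn h0 h1
    linarith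
  exact (ENNReal.add_le_add_iff_right h5).mp (h6.trans hcover)

/-- The uniform probability measure on the unit sphere of `ℝ^(n+1)`, seen on `ℝ^(n+1)`. -/
noncomputable def sphereMeasure (n : ℕ) : Measure (E (n + 1)) :=
  (volume (ball (0 : E (n + 1)) 1))⁻¹ •
    Measure.map (fun y : E (n + 1) => ‖y‖⁻¹ • y) (volume.restrict (ball 0 1))

lemma unitBall_ne_zero (n : ℕ) : volume (ball (0 : E n) 1) ≠ 0 :=
  (measure_ball_pos volume _ one_pos).ne'

lemma unitBall_ne_top (n : ℕ) : volume (ball (0 : E n) 1) ≠ ⊤ := measure_ball_lt_top.ne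

lemma measurable_normalize (n : ℕ) : Measurable fun y : E (n + 1) => ‖y‖⁻¹ • y := by fun_prop

lemma sphereMeasure_apply (n : ℕ) {S : Set (E (n + 1))} (hS : MeasurableSet S) :
    sphereMeasure n S = (volume (ball (0 : E (n + 1)) 1))⁻¹ *
      volume ((fun y : E (n + 1) => ‖y‖⁻¹ • y) ⁻¹' S ∩ ball 0 1) := by
  rw [sphereMeasure, Measure.smul_apply, Measure.map_apply (measurable_normalize n) hS,
    smul_eq_mul, Measure.restrict_apply (hS.preimage (measurable_normalize n))]

instance (n : ℕ) : IsProbabilityMeasure (sphereMeasure n) := by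
  constructor
  rw [sphereMeasure_apply n MeasurableSet.univ, preimage_univ, univ_inter,
    ENNReal.inv_mul_cancel (unitBall_ne_zero _) (unitBall_ne_top _)]

lemma sphereMeasure_ae_norm (n : ℕ) : ∀ᵐ x ∂(sphereMeasure n), ‖x‖ = 1 := by
  rw [ae_iff]
  have hS : MeasurableSet {x : E (n + 1) | ¬‖x‖ = 1} :=
    (measurableSet_eq_fun measurable_norm measurable_const).compl
  rw [sphereMeasure_apply n hS]
  have h1 : (fun y : E (n + 1) => ‖y‖⁻¹ • y) ⁻¹' {x : E (n + 1) | ¬‖x‖ = 1} ∩ ball 0 1 ⊆ {0} := by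
    rintro y ⟨hy, -⟩
    by_contra hy0
    apply hy
    have : ‖y‖ ≠ 0 := norm_ne_zero_iff.mpr hy0
    rw [norm_smul, norm_inv, norm_norm, inv_mul_cancel₀ this]
  rw [measure_mono_null h1 (measure_singleton 0), mul_zero]

/-- The maximal density of the one-dimensional projections of the unit sphere of `ℝ^(n+1)`. -/
noncomputable def cdens (n : ℕ) : ℝ :=
  (n : ℝ) / (n + 1) * ((volume (ball (0 : E n) 1)).toReal /
    (volume (ball (0 : E (n + 1)) 1)).toReal)

lemma cdens_pos {n : ℕ} (hn : 2 ≤ n) : 0 < cdens n := by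
  have h1 : 0 < (volume (ball (0 : E n) 1)).toReal :=
    ENNReal.toReal_pos (unitBall_ne_zero n) (unitBall_ne_top n)
  have h2 : 0 < (volume (ball (0 : E (n + 1)) 1)).toReal :=
    ENNReal.toReal_pos (unitBall_ne_zero _) (unitBall_ne_top _)
  have h3 : (0 : ℝ) < n := by exact_mod_cast (by omega : 0 < n)
  unfold cdens
  positivity

lemma ofReal_cdens_mul {n : ℕ} (t : ℝ) (ht : 0 ≤ t) :
    (volume (ball (0 : E (n + 1)) 1))⁻¹ * (ENNReal.ofReal ((n : ℝ) / (n + 1) * t) *
      volume (ball (0 : E n) 1)) = ENNReal.ofReal (cdens n * t) := by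
  have h1 : volume (ball (0 : E n) 1) = ENNReal.ofReal (volume (ball (0 : E n) 1)).toReal :=
    (ENNReal.ofReal_toReal (unitBall_ne_top n)).symm
  have h2 : volume (ball (0 : E (n + 1)) 1) =
      ENNReal.ofReal (volume (ball (0 : E (n + 1)) 1)).toReal :=
    (ENNReal.ofReal_toReal (unitBall_ne_top _)).symm
  have h3 : 0 < (volume (ball (0 : E (n + 1)) 1)).toReal :=
    ENNReal.toReal_pos (unitBall_ne_zero _) (unitBall_ne_top _)
  rw [h1, h2, ← ENNReal.ofReal_inv_of_pos h3, ← ENNReal.ofReal_mul (by positivity),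
    ← ENNReal.ofReal_mul (by positivity)]
  congr 1
  unfold cdens
  ring

lemma sphere_zone_le_of_nonneg {n : ℕ} (hn : 2 ≤ n) (θ : E (n + 1)) (hθ : ‖θ‖ = 1) {a b : ℝ}
    (ha : 0 ≤ a) (hab : a ≤ b) :
    sphereMeasure n {x | a ≤ inner ℝ x θ ∧ inner ℝ x θ ≤ b} ≤
      ENNReal.ofReal (cdens n * (b - a)) := by
  have hset : MeasurableSet {x : E (n + 1) | a ≤ inner ℝ x θ ∧ inner ℝ x θ ≤ b} := by
    have h2 : Measurable fun y : E (n + 1) => (inner ℝ y θ : ℝ) := by fun_prop
    exact (measurableSet_le measurable_const h2).inter (measurableSet_le h2 measurable_const)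
  have hcs : ∀ y : E (n + 1), inner ℝ y θ ≤ ‖y‖ := fun y => by
    have := real_inner_le_norm y θ
    rwa [hθ, mul_one] at this
  rw [sphereMeasure_apply n hset]
  rcases lt_or_ge 1 a with h | h
  · have h1 : (fun y : E (n + 1) => ‖y‖⁻¹ • y) ⁻¹'
        {x : E (n + 1) | a ≤ inner ℝ x θ ∧ inner ℝ x θ ≤ b} ∩ ball 0 1 = ∅ := by
      rw [Set.eq_empty_iff_forall_notMem]
      rintro y ⟨⟨hy, -⟩, -⟩
      simp only [inner_smul_left, conj_trivial] at hy
      have h2 : ‖y‖⁻¹ * inner ℝ y θ ≤ ‖y‖⁻¹ * ‖y‖ :=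
        mul_le_mul_of_nonneg_left (hcs y) (inv_nonneg.mpr (norm_nonneg _))
      have h3 : ‖y‖⁻¹ * ‖y‖ ≤ 1 := inv_mul_le_one
      linarith
    rw [h1, measure_empty, mul_zero]
    exact zero_le
  · have hsub : (fun y : E (n + 1) => ‖y‖⁻¹ • y) ⁻¹'
        {x : E (n + 1) | a ≤ inner ℝ x θ ∧ inner ℝ x θ ≤ b} ∩ ball 0 1 ⊆
        {y : E (n + 1) | ‖y‖ < 1 ∧ a * ‖y‖ ≤ inner ℝ y θ ∧ inner ℝ y θ ≤ min b 1 * ‖y‖} := by
      rintro y ⟨hy1, hy2⟩
      rw [mem_ball_zero_iff] at hy2
      simp only [mem_preimage, mem_ofPred_eq, inner_smul_left, conj_trivial] at hy1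
      rcases eq_or_ne y 0 with rfl | hy
      · simp
      · have hpos : 0 < ‖y‖ := norm_pos_iff.mpr hy
        refine ⟨hy2, ?_, ?_⟩
        · have := hy1.1
          rw [inv_mul_eq_div, le_div_iff₀ hpos] at this
          exact this
        · have h3 := hy1.2
          rw [inv_mul_eq_div, div_le_iff₀ hpos] at h3
          rcases min_choice b 1 with h4 | h4
          · rw [h4]; exact h3
          · rw [h4, one_mul]; exact hcs y
    have hab' : a ≤ min b 1 := le_min hab h
    calc (volume (ball (0 : E (n + 1)) 1))⁻¹ * volume ((fun y : E (n + 1) => ‖y‖⁻¹ • y) ⁻¹'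
          {x : E (n + 1) | a ≤ inner ℝ x θ ∧ inner ℝ x θ ≤ b} ∩ ball 0 1)
        ≤ (volume (ball (0 : E (n + 1)) 1))⁻¹ * (ENNReal.ofReal ((n : ℝ) / (n + 1) *
            (min b 1 - a)) * volume (ball (0 : E n) 1)) :=
          mul_le_mul_right ((measure_mono hsub).trans
            (band_le hn θ hθ ha hab' (min_le_right _ _))) _
      _ = ENNReal.ofReal (cdens n * (min b 1 - a)) := ofReal_cdens_mul _ (by linarith)
      _ ≤ ENNReal.ofReal (cdens n * (b - a)) := by
          refine ENNReal.ofReal_le_ofReal (mul_le_mul_of_nonneg_left ?_ (cdens_pos hn).le)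
          have := min_le_left b 1
          linarith

lemma sphere_zone_le {n : ℕ} (hn : 2 ≤ n) (θ : E (n + 1)) (hθ : ‖θ‖ = 1) {a b : ℝ}
    (hab : a ≤ b) :
    sphereMeasure n {x | a ≤ inner ℝ x θ ∧ inner ℝ x θ ≤ b} ≤
      ENNReal.ofReal (cdens n * (b - a)) := by
  have hneg : ∀ {a b : ℝ}, a ≤ b → b ≤ 0 →
      sphereMeasure n {x | a ≤ inner ℝ x θ ∧ inner ℝ x θ ≤ b} ≤
      ENNReal.ofReal (cdens n * (b - a)) := by
    intro a b hab hb
    have h1 := sphere_zone_le_of_nonneg hn (-θ) (by rw [norm_neg, hθ])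
      (neg_nonneg.mpr hb) (neg_le_neg hab)
    have h2 : {x : E (n + 1) | -b ≤ inner ℝ x (-θ) ∧ inner ℝ x (-θ) ≤ -a} =
        {x | a ≤ inner ℝ x θ ∧ inner ℝ x θ ≤ b} := by
      ext x
      simp only [mem_ofPred_eq, inner_neg_right]
      constructor
      · rintro ⟨h3, h4⟩; constructor <;> linarith
      · rintro ⟨h3, h4⟩; constructor <;> linarith
    rw [h2] at h1
    refine h1.trans (le_of_eq ?_)
    congr 1
    ring
  rcases le_or_gt 0 a with ha | ha
  · exact sphere_zone_le_of_nonneg hn θ hθ ha hab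
  rcases le_or_gt b 0 with hb | hb
  · exact hneg hab hb
  have hsub : {x : E (n + 1) | a ≤ inner ℝ x θ ∧ inner ℝ x θ ≤ b} ⊆
      {x | a ≤ inner ℝ x θ ∧ inner ℝ x θ ≤ 0} ∪ {x | 0 ≤ inner ℝ x θ ∧ inner ℝ x θ ≤ b} := by
    rintro x ⟨h1, h2⟩
    rcases le_total (inner ℝ x θ : ℝ) 0 with h | h
    · exact Or.inl ⟨h1, h⟩
    · exact Or.inr ⟨h, h2⟩
  refine (measure_mono hsub).trans ((measure_union_le _ _).trans ?_)
  have h1 := hneg ha.le le_rfl
  have h2 := sphere_zone_le_of_nonneg hn θ hθ le_rfl hb.le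
  refine (add_le_add h1 h2).trans (le_of_eq ?_)
  have hc := cdens_pos hn
  rw [← ENNReal.ofReal_add (mul_nonneg hc.le (by linarith)) (mul_nonneg hc.le (by linarith))]
  congr 1
  ring

/-- Every point of the unit ball is `ε`-almost orthogonal to at least a proportion
`2 ε cdens` of the sphere. -/
lemma le_sphere_thin {n : ℕ} (hn : 2 ≤ n) (x : E (n + 1)) (hx : ‖x‖ ≤ 1) {ε : ℝ} (h0 : 0 ≤ ε)
    (h1 : ε < 1) :
    ENNReal.ofReal (cdens n * (2 * (√(1 - ε ^ 2) ^ (n - 2) * ε))) ≤
      sphereMeasure n {θ | |inner ℝ x θ| ≤ ε} := by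
  have hset : MeasurableSet {θ : E (n + 1) | |(inner ℝ x θ : ℝ)| ≤ ε} := by
    have h2 : Measurable fun y : E (n + 1) => |(inner ℝ x y : ℝ)| := by fun_prop
    exact measurableSet_le h2 measurable_const
  -- a unit vector `u` with `|⟨x, θ⟩| ≤ |⟨u, θ⟩|`
  obtain ⟨u, hu, hux⟩ : ∃ u : E (n + 1), ‖u‖ = 1 ∧ ∀ θ, |(inner ℝ x θ : ℝ)| ≤ |inner ℝ u θ| := by
    rcases eq_or_ne x 0 with rfl | hx0
    · obtain ⟨θ, hθ⟩ := sphere_nonempty (Nat.succ_pos n)
      exact ⟨θ, by simpa using hθ, fun θ' => by simp⟩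
    · have hpos : 0 < ‖x‖ := norm_pos_iff.mpr hx0
      refine ⟨‖x‖⁻¹ • x, by rw [norm_smul, norm_inv, norm_norm, inv_mul_cancel₀ hpos.ne'],
        fun θ => ?_⟩
      rw [inner_smul_left, conj_trivial, abs_mul, abs_inv, abs_norm]
      have h3 : 1 ≤ ‖x‖⁻¹ := (one_le_inv₀ hpos).mpr hx
      exact le_mul_of_one_le_left (abs_nonneg _) h3
  rw [sphereMeasure_apply n hset]
  have hsub : {y : E (n + 1) | ‖y‖ < 1 ∧ |inner ℝ y u| ≤ ε * ‖y‖} ⊆
      (fun y : E (n + 1) => ‖y‖⁻¹ • y) ⁻¹' {θ : E (n + 1) | |(inner ℝ x θ : ℝ)| ≤ ε} ∩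
        ball 0 1 := by
    rintro y ⟨hy1, hy2⟩
    refine ⟨?_, mem_ball_zero_iff.mpr hy1⟩
    simp only [mem_preimage, mem_ofPred_eq]
    refine (hux _).trans ?_
    rw [inner_smul_right, abs_mul, abs_inv, abs_norm, real_inner_comm]
    rcases (norm_nonneg y).eq_or_lt with h | h
    · rw [← h]; simpa using h0
    · rw [inv_mul_eq_div, div_le_iff₀ h]
      exact hy2
  have h4 := (le_volume_thin hn u hu h0 h1).trans (measure_mono hsub)
  calc ENNReal.ofReal (cdens n * (2 * (√(1 - ε ^ 2) ^ (n - 2) * ε)))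
      = (volume (ball (0 : E (n + 1)) 1))⁻¹ * (ENNReal.ofReal ((n : ℝ) / (n + 1) *
          (2 * (√(1 - ε ^ 2) ^ (n - 2) * ε))) * volume (ball (0 : E n) 1)) :=
        (ofReal_cdens_mul _ (by positivity)).symm
    _ = (volume (ball (0 : E (n + 1)) 1))⁻¹ *
        (ENNReal.ofReal (2 * ((n : ℝ) / (n + 1) * √(1 - ε ^ 2) ^ (n - 2) * ε)) *
          volume (ball (0 : E n) 1)) := by
        congr 3
        ring
    _ ≤ _ := mul_le_mul_right h4 _

/-- The mass of a finite plank measure on the unit ball of `ℝ^(n+1)` is at most `1/cdens`. -/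
lemma plankMeasure_ball_le {n : ℕ} (hn : 2 ≤ n) (ν : Measure (E (n + 1))) [IsFiniteMeasure ν]
    (hν : IsPlankMeasure (closedBall (0 : E (n + 1)) 1) ν) :
    (ν univ).toReal ≤ 1 / cdens n := by
  have hc := cdens_pos hn
  have hnorm : ∀ᵐ x ∂ν, ‖x‖ ≤ 1 := by
    rw [ae_iff]
    refine measure_mono_null ?_ hν.1
    intro x hx
    simpa using hx
  have key : ∀ ε : ℝ, 0 < ε → ε < 1 →
      (ν univ).toReal * (cdens n * √(1 - ε ^ 2) ^ (n - 2)) ≤ 1 := by
    intro ε h0 h1
    set A : Set (E (n + 1) × E (n + 1)) := {p | |(inner ℝ p.1 p.2 : ℝ)| ≤ ε} with hA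
    have hAm : MeasurableSet A := by
      have h2 : Measurable fun p : E (n + 1) × E (n + 1) => |(inner ℝ p.1 p.2 : ℝ)| := by fun_prop
      exact measurableSet_le h2 measurable_const
    have hlow : ENNReal.ofReal (cdens n * (2 * (√(1 - ε ^ 2) ^ (n - 2) * ε))) * ν univ ≤
        (ν.prod (sphereMeasure n)) A := by
      rw [Measure.prod_apply hAm, ← lintegral_const]
      refine lintegral_mono_ae ?_
      filter_upwards [hnorm] with x hx
      exact le_sphere_thin hn x hx h0.le h1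
    have hup : (ν.prod (sphereMeasure n)) A ≤ ENNReal.ofReal (2 * ε) := by
      rw [Measure.prod_apply_symm hAm]
      calc ∫⁻ θ, ν ((fun x => (x, θ)) ⁻¹' A) ∂(sphereMeasure n)
          ≤ ∫⁻ _θ, ENNReal.ofReal (2 * ε) ∂(sphereMeasure n) := by
            refine lintegral_mono_ae ?_
            filter_upwards [sphereMeasure_ae_norm n] with θ hθ
            have h3 := hν.2 ⟨θ, -ε, ε, hθ, by linarith⟩
            have h4 : (fun x => (x, θ)) ⁻¹' A ⊆
                (⟨θ, -ε, ε, hθ, by linarith⟩ : Plank (n + 1)).carrier := by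
              intro x hx
              exact abs_le.mp hx
            refine (measure_mono h4).trans (h3.trans (le_of_eq ?_))
            congr 1
            simp only [Plank.width]
            ring
        _ = ENNReal.ofReal (2 * ε) := by rw [lintegral_const, measure_univ, mul_one]
    have h5 := hlow.trans hup
    have hνt : ν univ = ENNReal.ofReal (ν univ).toReal :=
      (ENNReal.ofReal_toReal (measure_ne_top ν univ)).symm
    rw [hνt, ← ENNReal.ofReal_mul (by positivity),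
      ENNReal.ofReal_le_ofReal_iff (by positivity)] at h5
    have h6 : 2 * ε * ((ν univ).toReal * (cdens n * √(1 - ε ^ 2) ^ (n - 2))) ≤ 2 * ε * 1 := by
      linarith
    exact le_of_mul_le_mul_left h6 (by positivity)
  have hlim : Tendsto (fun ε : ℝ => (ν univ).toReal * (cdens n * √(1 - ε ^ 2) ^ (n - 2)))
      (𝓝[>] 0) (𝓝 ((ν univ).toReal * (cdens n * √(1 - (0 : ℝ) ^ 2) ^ (n - 2)))) := by
    apply tendsto_nhdsWithin_of_tendsto_nhds
    exact (by fun_prop : Continuous fun ε : ℝ =>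
      (ν univ).toReal * (cdens n * √(1 - ε ^ 2) ^ (n - 2))).tendsto 0
  have h7 : (ν univ).toReal * (cdens n * √(1 - (0 : ℝ) ^ 2) ^ (n - 2)) ≤ 1 := by
    refine le_of_tendsto hlim ?_
    filter_upwards [Ioo_mem_nhdsGT (zero_lt_one' ℝ)] with ε hε
    exact key ε hε.1 hε.2
  have h8 : √(1 - (0 : ℝ) ^ 2) ^ (n - 2) = 1 := by simp
  rw [h8, mul_one] at h7
  rw [le_div_iff₀ hc]
  exact h7

/-- The value of `cdens` in terms of the Gamma function. -/
lemma cdens_eq {n : ℕ} (hn : 2 ≤ n) :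
    cdens n = Gamma (((n : ℝ) + 1) / 2) / (√π * Gamma ((n : ℝ) / 2)) := by
  have hn' : (0 : ℝ) < n := by exact_mod_cast (by omega : 0 < n)
  have : Nonempty (Fin n) := ⟨⟨0, by omega⟩⟩
  have h1 : (volume (ball (0 : E n) 1)).toReal = √π ^ n / Gamma ((n : ℝ) / 2 + 1) := by
    rw [EuclideanSpace.volume_ball, Fintype.card_fin, ENNReal.ofReal_one, one_pow, one_mul,
      ENNReal.toReal_ofReal]
    have := Real.Gamma_pos_of_pos (show (0 : ℝ) < (n : ℝ) / 2 + 1 by positivity)
    positivity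
  have h2 : (volume (ball (0 : E (n + 1)) 1)).toReal =
      √π ^ (n + 1) / Gamma (((n + 1 : ℕ) : ℝ) / 2 + 1) := by
    rw [EuclideanSpace.volume_ball, Fintype.card_fin, ENNReal.ofReal_one, one_pow, one_mul,
      ENNReal.toReal_ofReal]
    have := Real.Gamma_pos_of_pos (show (0 : ℝ) < ((n + 1 : ℕ) : ℝ) / 2 + 1 by positivity)
    positivity
  unfold cdens
  rw [h1, h2]
  have e1 : (((n + 1 : ℕ) : ℝ)) / 2 = ((n : ℝ) + 1) / 2 := by push_cast; ring
  rw [e1, Real.Gamma_add_one (by positivity), Real.Gamma_add_one (by positivity)]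
  have hG1 : 0 < Gamma ((n : ℝ) / 2) := Real.Gamma_pos_of_pos (by positivity)
  have hG2 : 0 < Gamma (((n : ℝ) + 1) / 2) := Real.Gamma_pos_of_pos (by positivity)
  have hsp : 0 < √π := Real.sqrt_pos.mpr pi_pos
  rw [pow_succ]
  field_simp

lemma isConvexBody_closedBall (d : ℕ) : IsConvexBody (closedBall (0 : E d) 1) := by
  refine ⟨isCompact_closedBall _ _, convex_closedBall _ _, ?_⟩
  refine ⟨0, mem_interior.mpr ⟨ball 0 1, ball_subset_closedBall, isOpen_ball,
    mem_ball_self one_pos⟩⟩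

lemma minWidth_closedBall {d : ℕ} (hd : 0 < d) : minWidth (closedBall (0 : E d) 1) = 2 := by
  have hK := isConvexBody_closedBall d
  refine le_antisymm ?_ (le_minWidth hd fun θ hθ => ?_)
  · obtain ⟨θ, hθ⟩ := sphere_nonempty hd
    have hθ1 : ‖θ‖ = 1 := by simpa using hθ
    refine (minWidth_le hK.1 hK.nonempty hθ1).trans ?_
    obtain ⟨x, hx, hx'⟩ := exists_eq_supp hK.1 hK.nonempty θ
    obtain ⟨y, hy, hy'⟩ := exists_eq_supp hK.1 hK.nonempty (-θ)
    rw [widthIn_eq, ← hx', ← hy']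
    have h1 := real_inner_le_norm x θ
    have h2 := real_inner_le_norm y (-θ)
    rw [norm_neg] at h2
    rw [hθ1] at h1 h2
    rw [mem_closedBall_zero_iff] at hx hy
    linarith
  · have := two_mul_le_widthIn hK.1 zero_le_one (subset_refl (closedBall (0 : E d) 1)) hθ
    linarith

/-- **The ball.** The limit of `c_B(k)/k` for the unit ball `B` of `ℝ^(n+1)`, `n ≥ 2`. -/
lemma ball_limit {n : ℕ} (hn : 2 ≤ n) :
    (∀ k : ℕ, 1 / (2 * cdens n) * k ≤ plankConst (closedBall (0 : E (n + 1)) 1) k) ∧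
    Tendsto (fun k : ℕ => plankConst (closedBall (0 : E (n + 1)) 1) k / k) atTop
      (𝓝 (1 / (2 * cdens n))) := by
  have hd : 0 < n + 1 := Nat.succ_pos n
  have hK := isConvexBody_closedBall (n + 1)
  have hw := minWidth_closedBall hd
  have hc := cdens_pos hn
  -- the lower bound
  have hlow : ∀ k : ℕ, 1 / (2 * cdens n) * k ≤ plankConst (closedBall (0 : E (n + 1)) 1) k := by
    intro k
    have h1 := le_plankConst_of_measure hd hK k
      (ENNReal.ofReal (1 / cdens n) • sphereMeasure n) ?_ (M := 1 / cdens n) (by positivity) ?_ ?_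
    · rw [hw] at h1
      refine le_trans (le_of_eq ?_) h1
      field_simp
    · rw [Measure.smul_apply]
      have h2 : sphereMeasure n (closedBall (0 : E (n + 1)) 1)ᶜ = 0 := by
        have h3 := sphereMeasure_ae_norm n
        rw [ae_iff] at h3
        refine measure_mono_null ?_ h3
        intro x hx
        simp only [mem_compl_iff, mem_closedBall_zero_iff, not_le] at hx
        exact hx.ne'
      rw [h2, smul_zero]
    · rw [Measure.smul_apply, measure_univ, smul_eq_mul, mul_one]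
    · intro Q
      rw [Measure.smul_apply, smul_eq_mul]
      have h2 := sphere_zone_le hn Q.normal Q.norm_normal Q.lo_le_hi
      calc ENNReal.ofReal (1 / cdens n) * sphereMeasure n Q.carrier
          ≤ ENNReal.ofReal (1 / cdens n) * ENNReal.ofReal (cdens n * (Q.hi - Q.lo)) :=
            mul_le_mul_right h2 _
        _ = ENNReal.ofReal Q.width := by
            rw [← ENNReal.ofReal_mul (by positivity)]
            congr 1
            simp only [Plank.width]
            field_simp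
  refine ⟨hlow, ?_⟩
  obtain ⟨L, hL0, hL1, hL2⟩ := exists_limit hd hK
  have hLge : 1 / (2 * cdens n) ≤ L := by
    refine ge_of_tendsto hL2 ?_
    filter_upwards [eventually_gt_atTop 0] with k hk
    have hk' : (0 : ℝ) < k := by exact_mod_cast hk
    rw [le_div_iff₀ hk']
    exact hlow k
  obtain ⟨μ, hμ, hμ1⟩ := exists_plankMeasure hd hK hL1 hL2 hL0
  rw [hw] at hμ1
  have : IsFiniteMeasure μ := ⟨by rw [hμ1]; exact ENNReal.ofReal_lt_top⟩
  have h1 := plankMeasure_ball_le hn μ hμ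
  rw [hμ1, ENNReal.toReal_ofReal (by positivity)] at h1
  have hLle : L ≤ 1 / (2 * cdens n) := by
    have : 1 / (2 * cdens n) = 1 / cdens n / 2 := by field_simp
    rw [this]
    linarith
  rw [← le_antisymm hLle hLge]
  exact hL2

end Pool.Agent.Lib.MP_4043ba_gt
end
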