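import Pool.Agent.Lib.MP_4043ba_gt.Defs

section

set_option autoImplicit false

open Set Metric

namespace Pool.Agent.Lib.MP_4043ba_gt

variable {d : ℕ}

/-- The support function. -/
noncomputable def supp (K : Set (E d)) (θ : E d) : ℝ :=
  sSup ((fun x : E d => inner ℝ x θ) '' K)

lemma bddAbove_inner_image {K : Set (E d)} (hK : IsCompact K) (θ : E d) :
    BddAbove ((fun x : E d => inner ℝ x θ) '' K) :=
  (hK.image (by fun_prop)).bddAbove

lemma bddBelow_inner_image {K : Set (E d)} (hK : IsCompact K) (θ : E d) :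
    BddBelow ((fun x : E d => inner ℝ x θ) '' K) :=
  (hK.image (by fun_prop)).bddBelow

lemma inner_le_supp {K : Set (E d)} (hK : IsCompact K) {x : E d} (hx : x ∈ K) (θ : E d) :
    inner ℝ x θ ≤ supp K θ :=
  le_csSup (bddAbove_inner_image hK θ) ⟨x, hx, rfl⟩

lemma exists_eq_supp {K : Set (E d)} (hK : IsCompact K) (hne : K.Nonempty) (θ : E d) :
    ∃ x ∈ K, inner ℝ x θ = supp K θ := by
  have h := (hK.image (f := fun x : E d => inner ℝ x θ) (by fun_prop)).sSup_mem (hne.image _)
  obtain ⟨x, hx, hx'⟩ := h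
  exact ⟨x, hx, hx'⟩

lemma supp_neg {K : Set (E d)} (θ : E d) :
    supp K (-θ) = - sInf ((fun x : E d => inner ℝ x θ) '' K) := by
  unfold supp
  rw [← Real.sSup_neg]
  congr 1
  ext y
  simp only [mem_image, inner_neg_right, Set.mem_neg]
  constructor
  · rintro ⟨x, hx, rfl⟩
    exact ⟨x, hx, by ring⟩
  · rintro ⟨x, hx, hxy⟩
    exact ⟨x, hx, by linarith⟩

lemma widthIn_eq (K : Set (E d)) (θ : E d) : widthIn K θ = supp K θ + supp K (-θ) := by
  rw [supp_neg]
  unfold widthIn supp
  ring

lemma widthIn_neg (K : Set (E d)) (θ : E d) : widthIn K (-θ) = widthIn K θ := by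
  rw [widthIn_eq, widthIn_eq, neg_neg, add_comm]

lemma continuous_supp {K : Set (E d)} (hK : IsCompact K) : Continuous (supp K) := by
  have := IsCompact.continuous_sSup (f := fun (θ : E d) (x : E d) => (inner ℝ x θ : ℝ)) hK
    (by fun_prop)
  exact this

lemma continuous_widthIn {K : Set (E d)} (hK : IsCompact K) : Continuous (widthIn K) := by
  have : widthIn K = fun θ => supp K θ + supp K (-θ) := funext (widthIn_eq K)
  rw [this]
  exact (continuous_supp hK).add ((continuous_supp hK).comp continuous_neg)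

/-- A compact convex set is the intersection of its supporting half-spaces. -/
lemma mem_of_forall_inner_le_supp {K : Set (E d)} (hK : IsCompact K) (hc : Convex ℝ K)
    (hne : K.Nonempty) {x : E d} (h : ∀ θ : E d, ‖θ‖ = 1 → inner ℝ x θ ≤ supp K θ) : x ∈ K := by
  by_contra hx
  obtain ⟨f, u, hfu, hux⟩ := geometric_hahn_banach_closed_point hc hK.isClosed hx
  -- represent `f` by an inner product
  set y : E d := (InnerProductSpace.toDual ℝ (E d)).symm f with hy
  have hf : ∀ z : E d, f z = inner ℝ z y := by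
    intro z
    rw [real_inner_comm, hy, InnerProductSpace.toDual_symm_apply]
  have hy0 : y ≠ 0 := by
    intro h0
    obtain ⟨z, hz⟩ := hne
    have h1 := hfu z hz
    have h2 := hux
    rw [hf, h0, inner_zero_right] at h1 h2
    linarith
  have hyn : 0 < ‖y‖ := norm_pos_iff.mpr hy0
  obtain ⟨z, hz, hz'⟩ := exists_eq_supp hK hne (‖y‖⁻¹ • y)
  have h1 := h (‖y‖⁻¹ • y) (by rw [norm_smul, norm_inv, norm_norm, inv_mul_cancel₀ hyn.ne'])
  rw [← hz', inner_smul_right, inner_smul_right] at h1
  have h2 := hfu z hz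
  rw [hf] at h2 hux
  have h3 : inner ℝ x y ≤ inner ℝ z y := by
    have := mul_le_mul_of_nonneg_left h1 hyn.le
    rwa [← mul_assoc, ← mul_assoc, mul_inv_cancel₀ hyn.ne', one_mul, one_mul] at this
  linarith

/-- Ball inclusion in terms of the support function. -/
lemma closedBall_subset_of_supp {K : Set (E d)} (hK : IsCompact K) (hc : Convex ℝ K)
    (hne : K.Nonempty) {c : E d} {r : ℝ}
    (h : ∀ θ : E d, ‖θ‖ = 1 → inner ℝ c θ + r ≤ supp K θ) : closedBall c r ⊆ K := by
  intro x hx
  refine mem_of_forall_inner_le_supp hK hc hne fun θ hθ => ?_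
  have h1 := h θ hθ
  have h2 : inner ℝ (x - c) θ ≤ ‖x - c‖ * ‖θ‖ := real_inner_le_norm _ _
  rw [inner_sub_left, hθ, mul_one] at h2
  rw [mem_closedBall, dist_eq_norm] at hx
  linarith

lemma supp_ge_of_closedBall_subset {K : Set (E d)} (hK : IsCompact K) {c : E d} {r : ℝ}
    (hr : 0 ≤ r) (h : closedBall c r ⊆ K) {θ : E d} (hθ : ‖θ‖ = 1) :
    inner ℝ c θ + r ≤ supp K θ := by
  have hx : c + r • θ ∈ K := by
    apply h
    rw [mem_closedBall, dist_eq_norm, add_sub_cancel_left, norm_smul, hθ, mul_one,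
      Real.norm_eq_abs, abs_of_nonneg hr]
  have := inner_le_supp hK hx θ
  rwa [inner_add_left, inner_smul_left, real_inner_self_eq_norm_sq, hθ, RCLike.conj_to_real,
    one_pow, mul_one] at this

lemma two_mul_le_widthIn {K : Set (E d)} (hK : IsCompact K) {c : E d} {r : ℝ}
    (hr : 0 ≤ r) (h : closedBall c r ⊆ K) {θ : E d} (hθ : ‖θ‖ = 1) :
    2 * r ≤ widthIn K θ := by
  have h1 := supp_ge_of_closedBall_subset hK hr h hθ
  have h2 := supp_ge_of_closedBall_subset hK hr h (θ := -θ) (by rwa [norm_neg])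
  rw [inner_neg_right] at h2
  rw [widthIn_eq]
  linarith

lemma sphere_nonempty (hd : 0 < d) : (sphere (0 : E d) 1).Nonempty := by
  have : Nonempty (Fin d) := ⟨⟨0, hd⟩⟩
  have : Nontrivial (E d) := inferInstance
  exact NormedSpace.sphere_nonempty.mpr zero_le_one

lemma widthIn_nonneg {K : Set (E d)} (hK : IsCompact K) (hne : K.Nonempty) (θ : E d) :
    0 ≤ widthIn K θ := by
  obtain ⟨x, hx⟩ := hne
  have h1 := inner_le_supp hK hx θ
  have h2 := inner_le_supp hK hx (-θ)
  rw [inner_neg_right] at h2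
  rw [widthIn_eq]
  linarith

lemma minWidth_le {K : Set (E d)} (hK : IsCompact K) (hne : K.Nonempty) {θ : E d}
    (hθ : ‖θ‖ = 1) : minWidth K ≤ widthIn K θ := by
  refine csInf_le ⟨0, ?_⟩ ⟨θ, by simpa using hθ, rfl⟩
  rintro _ ⟨θ', -, rfl⟩
  exact widthIn_nonneg hK hne θ'

lemma le_minWidth (hd : 0 < d) {K : Set (E d)} {w : ℝ}
    (h : ∀ θ : E d, ‖θ‖ = 1 → w ≤ widthIn K θ) : w ≤ minWidth K := by
  refine le_csInf ((sphere_nonempty hd).image _) ?_
  rintro _ ⟨θ, hθ, rfl⟩
  exact h θ (by simpa using hθ)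

lemma IsConvexBody.nonempty {K : Set (E d)} (hK : IsConvexBody K) : K.Nonempty :=
  hK.2.2.mono interior_subset

lemma IsConvexBody.exists_ball {K : Set (E d)} (hK : IsConvexBody K) :
    ∃ (c : E d) (r : ℝ), 0 < r ∧ closedBall c r ⊆ K := by
  obtain ⟨c, hc⟩ := hK.2.2
  obtain ⟨r, hr, h⟩ := Metric.nhds_basis_closedBall.mem_iff.mp (mem_interior_iff_mem_nhds.mp hc)
  exact ⟨c, r, hr, h⟩

lemma bddAbove_radii (hd : 0 < d) {K : Set (E d)} (hK : IsCompact K) :
    BddAbove {r : ℝ | 0 ≤ r ∧ ∃ c : E d, closedBall c r ⊆ K} := by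
  obtain ⟨θ, hθ⟩ := sphere_nonempty hd
  refine ⟨widthIn K θ, ?_⟩
  rintro r ⟨hr, c, hc⟩
  have := two_mul_le_widthIn hK hr hc (θ := θ) (by simpa using hθ)
  linarith

lemma le_inradius (hd : 0 < d) {K : Set (E d)} (hK : IsCompact K) {c : E d} {r : ℝ}
    (hr : 0 ≤ r) (h : closedBall c r ⊆ K) : r ≤ inradius K :=
  le_csSup (bddAbove_radii hd hK) ⟨hr, c, h⟩

lemma inradius_pos (hd : 0 < d) {K : Set (E d)} (hK : IsConvexBody K) : 0 < inradius K := by
  obtain ⟨c, r, hr, h⟩ := hK.exists_ball
  exact hr.trans_le (le_inradius hd hK.1 hr.le h)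

lemma minWidth_pos (hd : 0 < d) {K : Set (E d)} (hK : IsConvexBody K) : 0 < minWidth K := by
  obtain ⟨c, r, hr, h⟩ := hK.exists_ball
  have : 2 * r ≤ minWidth K := le_minWidth hd fun θ hθ => two_mul_le_widthIn hK.1 hr.le h hθ
  linarith

/-- The largest inscribed ball exists. -/
lemma exists_inball (hd : 0 < d) {K : Set (E d)} (hK : IsConvexBody K) :
    ∃ c : E d, closedBall c (inradius K) ⊆ K := by
  classical
  have : Nonempty (Fin d) := ⟨⟨0, hd⟩⟩
  have : Nontrivial (E d) := inferInstance
  have hcomp : (Kᶜ).Nonempty := by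
    by_contra hcon
    rw [Set.not_nonempty_iff_eq_empty, Set.compl_empty_iff] at hcon
    have := hK.1
    rw [hcon] at this
    exact NoncompactSpace.noncompact_univ this
  obtain ⟨c, hcK, hmax⟩ := hK.1.exists_isMaxOn hK.nonempty
    (f := fun c => infDist c Kᶜ) (continuous_infDist_pt _).continuousOn
  refine ⟨c, ?_⟩
  have hle : inradius K ≤ infDist c Kᶜ := by
    refine csSup_le ⟨0, le_rfl, c, ?_⟩ ?_
    · simpa using hcK
    · rintro r ⟨hr, c', hc'⟩
      have h1 : r ≤ infDist c' Kᶜ := by
        rw [le_infDist hcomp]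
        intro y hy
        by_contra hlt
        push Not at hlt
        exact hy (hc' (by rw [mem_closedBall, dist_comm]; exact hlt.le))
      have hc'K : c' ∈ K := hc' (mem_closedBall_self hr)
      exact h1.trans (hmax hc'K)
  have hpos := inradius_pos hd hK
  have hball : ball c (infDist c Kᶜ) ⊆ K := ball_infDist_compl_subset
  calc closedBall c (inradius K) ⊆ closedBall c (infDist c Kᶜ) := closedBall_subset_closedBall hle
    _ = closure (ball c (infDist c Kᶜ)) := (closure_ball c (hpos.trans_le hle).ne').symm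
    _ ⊆ closure K := closure_mono hball
    _ = K := hK.1.isClosed.closure_eq

end Pool.Agent.Lib.MP_4043ba_gt
end

section

set_option autoImplicit false

open Set Metric Filter Topology

namespace Pool.Agent.Lib.MP_4043ba_gt

variable {d : ℕ}

/-- The convex hull of a compact set of `ℝ^d` is compact. -/
lemma isCompact_convexHull_fin {s : Set (E d)} (hs : IsCompact s) :
    IsCompact (convexHull ℝ s) := by
  classical
  rcases s.eq_empty_or_nonempty with rfl | ⟨s0, hs0⟩
  · simp
  have key : convexHull ℝ s = (fun p : (Fin (d + 1) → ℝ) × (Fin (d + 1) → E d) =>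
      ∑ i, p.1 i • p.2 i) '' (stdSimplex ℝ (Fin (d + 1)) ×ˢ (Set.univ.pi fun _ => s)) := by
    apply Set.Subset.antisymm
    · intro x hx
      obtain ⟨ι, _, z, w, hz, haff, hw, hw1, hwz⟩ := eq_pos_convex_span_of_mem_convexHull hx
      have hcard : Fintype.card ι ≤ Fintype.card (Fin (d + 1)) := by
        rw [Fintype.card_fin]
        refine haff.card_le_finrank_succ.trans (Nat.succ_le_succ ?_)
        refine (Submodule.finrank_le _).trans ?_
        rw [finrank_euclideanSpace, Fintype.card_fin]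
      obtain ⟨e⟩ := Function.Embedding.nonempty_of_card_le hcard
      refine ⟨(fun j => if h : ∃ i, e i = j then w h.choose else 0,
        fun j => if h : ∃ i, e i = j then z h.choose else s0), ⟨⟨?_, ?_⟩, ?_⟩, ?_⟩
      · intro j
        dsimp only
        split_ifs with h
        · exact (hw _).le
        · exact le_rfl
      · dsimp only
        rw [← hw1, ← Finset.sum_subset (Finset.subset_univ (Finset.univ.map e))]
        · rw [Finset.sum_map]
          refine Finset.sum_congr rfl fun i _ => ?_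
          have h : ∃ i', e i' = e i := ⟨i, rfl⟩
          rw [dif_pos h, e.injective h.choose_spec]
        · intro j _ hj
          rw [dif_neg]
          rintro ⟨i, rfl⟩
          exact hj (Finset.mem_map_of_mem e (Finset.mem_univ i))
      · intro j _
        dsimp only
        split_ifs with h
        · exact hz (mem_range_self _)
        · exact hs0
      · dsimp only
        rw [← hwz, ← Finset.sum_subset (Finset.subset_univ (Finset.univ.map e))]
        · rw [Finset.sum_map]
          refine Finset.sum_congr rfl fun i _ => ?_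
          have h : ∃ i', e i' = e i := ⟨i, rfl⟩
          rw [dif_pos h, dif_pos h, e.injective h.choose_spec]
        · intro j _ hj
          rw [dif_neg, zero_smul]
          rintro ⟨i, rfl⟩
          exact hj (Finset.mem_map_of_mem e (Finset.mem_univ i))
    · rintro _ ⟨⟨w, z⟩, ⟨⟨hw0, hw1⟩, hz⟩, rfl⟩
      exact (convex_convexHull ℝ s).sum_mem (fun i _ => hw0 i) hw1
        (fun i _ => subset_convexHull ℝ s (hz i (mem_univ i)))
  rw [key]
  exact ((isCompact_stdSimplex ℝ _).prod (isCompact_univ_pi fun _ => hs)).image (by fun_prop)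

/-- The unit outer normals at which an inscribed ball with centre `c` and radius `r` touches the
boundary of `K`. -/
def contactSet (K : Set (E d)) (c : E d) (r : ℝ) : Set (E d) :=
  {θ | ‖θ‖ = 1 ∧ supp K θ = inner ℝ c θ + r}

lemma isCompact_contactSet {K : Set (E d)} (hK : IsCompact K) (c : E d) (r : ℝ) :
    IsCompact (contactSet K c r) := by
  refine (isCompact_sphere (0 : E d) 1).of_isClosed_subset ?_ ?_
  · refine IsClosed.inter (isClosed_eq continuous_norm continuous_const)
      (isClosed_eq (continuous_supp hK) (by fun_prop))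
  · rintro θ ⟨hθ, -⟩
    simpa using hθ

lemma zero_mem_convexHull_contactSet (hd : 0 < d) {K : Set (E d)} (hK : IsConvexBody K) {c : E d}
    (hc : closedBall c (inradius K) ⊆ K) :
    (0 : E d) ∈ convexHull ℝ (contactSet K c (inradius K)) := by
  set r := inradius K with hr
  have hrpos : 0 < r := inradius_pos hd hK
  by_contra h0
  have hclosed : IsClosed (convexHull ℝ (contactSet K c r)) :=
    (isCompact_convexHull_fin (isCompact_contactSet hK.1 c r)).isClosed
  obtain ⟨f, u, hfu, hub⟩ := geometric_hahn_banach_point_closed (convex_convexHull ℝ _) hclosed h0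
  set y : E d := (InnerProductSpace.toDual ℝ (E d)).symm f with hy
  have hf : ∀ z : E d, f z = inner ℝ y z := by
    intro z
    rw [hy, InnerProductSpace.toDual_symm_apply]
  have hpos : ∀ θ ∈ contactSet K c r, 0 < inner ℝ y θ := by
    intro θ hθ
    have h1 := hub θ (subset_convexHull ℝ _ hθ)
    rw [map_zero] at hfu
    rw [hf] at h1
    linarith
  -- for every `ε > 0` there is a bad direction
  have hbad : ∀ ε : ℝ, 0 < ε → ∃ θ : E d, ‖θ‖ = 1 ∧
      supp K θ ≤ inner ℝ (c - ε • y) θ + r := by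
    intro ε hε
    by_contra hcon
    push Not at hcon
    obtain ⟨θ0, hθ0, hmin⟩ := (isCompact_sphere (0 : E d) 1).exists_isMinOn (sphere_nonempty hd)
      (f := fun θ => supp K θ - inner ℝ (c - ε • y) θ)
      ((continuous_supp hK.1).sub (by fun_prop)).continuousOn
    have hθ0' : ‖θ0‖ = 1 := by simpa using hθ0
    have h1 := hcon θ0 hθ0'
    set r' := supp K θ0 - inner ℝ (c - ε • y) θ0 with hr'
    have hrr' : r < r' := by rw [hr']; linarith
    have hsub : closedBall (c - ε • y) r' ⊆ K := by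
      refine closedBall_subset_of_supp hK.1 hK.2.1 hK.nonempty fun θ hθ => ?_
      have h2 : r' ≤ supp K θ - inner ℝ (c - ε • y) θ := hmin (by simpa using hθ)
      linarith
    have := le_inradius hd hK.1 (hrpos.le.trans hrr'.le) hsub
    linarith
  choose! θ hθ1 hθ2 using fun n : ℕ => hbad (1 / ((n : ℝ) + 1)) (by positivity)
  have hθmem : ∀ n, θ n ∈ sphere (0 : E d) 1 := fun n => by simpa using hθ1 n
  obtain ⟨θ', hθ', φ, hφ, hlim⟩ := (isCompact_sphere (0 : E d) 1).tendsto_subseq hθmem
  have hθ'1 : ‖θ'‖ = 1 := by simpa using hθ'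
  have hge : ∀ n, inner ℝ c (θ n) + r ≤ supp K (θ n) := fun n =>
    supp_ge_of_closedBall_subset hK.1 hrpos.le hc (hθ1 n)
  have hyle : ∀ n, inner ℝ y (θ n) ≤ 0 := by
    intro n
    have h1 := hge n
    have h2 := hθ2 n
    rw [inner_sub_left, inner_smul_left, RCLike.conj_to_real] at h2
    have hpos' : (0 : ℝ) < 1 / ((n : ℝ) + 1) := by positivity
    by_contra hcon
    push Not at hcon
    have := mul_pos hpos' hcon
    linarith
  have hyle' : inner ℝ y θ' ≤ 0 := by
    refine le_of_tendsto (f := fun n => inner ℝ y (θ (φ n))) (x := atTop) ?_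
      (Eventually.of_forall fun n => hyle (φ n))
    exact ((continuous_const.inner continuous_id).tendsto θ').comp hlim
  have hsupp : supp K θ' ≤ inner ℝ c θ' + r := by
    have h1 : Tendsto (fun n => supp K (θ (φ n))) atTop (𝓝 (supp K θ')) :=
      ((continuous_supp hK.1).tendsto θ').comp hlim
    have h2 : Tendsto (fun n => inner ℝ (c - (1 / ((φ n : ℝ) + 1)) • y) (θ (φ n)) + r) atTop
        (𝓝 (inner ℝ (c - (0 : ℝ) • y) θ' + r)) := by
      have h3 : Tendsto (fun n => (1 / ((φ n : ℝ) + 1) : ℝ)) atTop (𝓝 0) :=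
        tendsto_one_div_add_atTop_nhds_zero_nat.comp hφ.tendsto_atTop
      exact ((tendsto_const_nhds.sub (h3.smul_const y)).inner hlim).add_const r
    have h4 := le_of_tendsto_of_tendsto' h1 h2 fun n => hθ2 (φ n)
    simpa using h4
  have hmem : θ' ∈ contactSet K c r :=
    ⟨hθ'1, le_antisymm hsupp (supp_ge_of_closedBall_subset hK.1 hrpos.le hc hθ'1)⟩
  exact absurd (hpos θ' hmem) (not_lt.mpr hyle')

/-- **Contact normals of the largest inscribed ball.** -/
lemma exists_contact (hd : 0 < d) {K : Set (E d)} (hK : IsConvexBody K) :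
    ∃ (c : E d) (m : ℕ) (n : Fin m → E d) (lam : Fin m → ℝ), m ≤ d + 1 ∧
      closedBall c (inradius K) ⊆ K ∧ (∀ i, ‖n i‖ = 1) ∧ (∀ i, 0 < lam i) ∧ ∑ i, lam i = 1 ∧
      ∑ i, lam i • n i = 0 ∧ ∀ x ∈ K, ∀ i, inner ℝ x (n i) ≤ inner ℝ c (n i) + inradius K := by
  obtain ⟨c, hc⟩ := exists_inball hd hK
  obtain ⟨ι, _, z, w, hz, haff, hw, hw1, hwz⟩ :=
    eq_pos_convex_span_of_mem_convexHull (zero_mem_convexHull_contactSet hd hK hc)
  have hcard : Fintype.card ι ≤ d + 1 := by
    have := haff.card_le_finrank_succ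
    refine this.trans (Nat.succ_le_succ ?_)
    refine (Submodule.finrank_le _).trans ?_
    rw [finrank_euclideanSpace, Fintype.card_fin]
  let e := (Fintype.equivFin ι).symm
  have hzmem : ∀ i, z i ∈ contactSet K c (inradius K) := fun i => hz (mem_range_self i)
  refine ⟨c, Fintype.card ι, z ∘ e, w ∘ e, hcard, hc, fun i => (hzmem _).1, fun i => hw _, ?_, ?_,
    ?_⟩
  · rw [← hw1]
    exact e.sum_comp w
  · rw [← hwz]
    exact e.sum_comp (fun i => w i • z i)
  · intro x hx i
    have h := inner_le_supp hK.1 hx (z (e i))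
    rw [(hzmem (e i)).2] at h
    exact h

end Pool.Agent.Lib.MP_4043ba_gt
end
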