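import Mathlib

set_option autoImplicit false

namespace Pool.Agent.Lib.MP_4043ba_gt

/-- `ℝ^d` with its Euclidean structure. -/
abbrev E (d : ℕ) : Type := EuclideanSpace ℝ (Fin d)

/-- A convex body of `ℝ^d`: a compact convex set with nonempty interior. -/
def IsConvexBody {d : ℕ} (K : Set (E d)) : Prop :=
  IsCompact K ∧ Convex ℝ K ∧ (interior K).Nonempty

/-- The width of `K` in the direction `θ`: for a unit vector `θ`, the distance between the two
supporting hyperplanes of `K` orthogonal to `θ`. -/
noncomputable def widthIn {d : ℕ} (K : Set (E d)) (θ : E d) : ℝ :=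
  sSup ((fun x : E d => inner ℝ x θ) '' K) - sInf ((fun x : E d => inner ℝ x θ) '' K)

/-- The minimal width `w(K)`. -/
noncomputable def minWidth {d : ℕ} (K : Set (E d)) : ℝ :=
  sInf (widthIn K '' Metric.sphere (0 : E d) 1)

/-- The inradius `r(K)`: the largest radius of a ball contained in `K`. -/
noncomputable def inradius {d : ℕ} (K : Set (E d)) : ℝ :=
  sSup {r : ℝ | 0 ≤ r ∧ ∃ c : E d, Metric.closedBall c r ⊆ K}

/-- A plank of `ℝ^d`, given by a unit normal vector and two bounds. -/
structure Plank (d : ℕ) where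
  /-- the unit normal vector -/
  normal : E d
  /-- the lower bound -/
  lo : ℝ
  /-- the upper bound -/
  hi : ℝ
  norm_normal : ‖normal‖ = 1
  lo_le_hi : lo ≤ hi

/-- The point set of a plank: `{x | lo ≤ x · θ ≤ hi}`. -/
def Plank.carrier {d : ℕ} (P : Plank d) : Set (E d) :=
  {x | P.lo ≤ inner ℝ x P.normal ∧ inner ℝ x P.normal ≤ P.hi}

/-- The width of a plank. -/
def Plank.width {d : ℕ} (P : Plank d) : ℝ := P.hi - P.lo

/-- The finite family `P` (repetitions allowed) is a `k`-fold covering of `K`: every point of `K`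
lies in at least `k` of its members. -/
def IsKFoldCovering {d : ℕ} (k : ℕ) (K : Set (E d)) {m : ℕ} (P : Fin m → Plank d) : Prop :=
  ∀ x ∈ K, k ≤ Set.ncard {i : Fin m | x ∈ (P i).carrier}

/-- The constant `c_K(k)`: the infimum of `(1 / w(K)) * ∑ p_i` over all `k`-fold coverings of `K`
by planks of widths `p_i`. -/
noncomputable def plankConst {d : ℕ} (K : Set (E d)) (k : ℕ) : ℝ :=
  sInf {s : ℝ | ∃ (m : ℕ) (P : Fin m → Plank d), IsKFoldCovering k K P ∧
    s = 1 / minWidth K * ∑ i, (P i).width}

/-- The constant `c_d(k)`: the infimum of `c_K(k)` over all convex bodies `K` of `ℝ^d`. -/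
noncomputable def plankConstDim (d k : ℕ) : ℝ :=
  sInf {s : ℝ | ∃ K : Set (E d), IsConvexBody K ∧ s = plankConst K k}

end Pool.Agent.Lib.MP_4043ba_gt
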