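import Pool.Agent.Lib.MP_4043ba_gt.Contact

section

set_option autoImplicit false

open Set Metric Filter Topology

namespace Pool.Agent.Lib.MP_4043ba_gt

variable {d : ℕ}

lemma Plank.width_nonneg (P : Plank d) : 0 ≤ P.width := sub_nonneg.mpr P.lo_le_hi

lemma bddBelow_plankConst_set {K : Set (E d)} (hw : 0 ≤ minWidth K) (k : ℕ) :
    BddBelow {s : ℝ | ∃ (m : ℕ) (P : Fin m → Plank d), IsKFoldCovering k K P ∧
      s = 1 / minWidth K * ∑ i, (P i).width} := by
  refine ⟨0, ?_⟩
  rintro s ⟨m, P, -, rfl⟩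
  exact mul_nonneg (one_div_nonneg.mpr hw) (Finset.sum_nonneg fun i _ => (P i).width_nonneg)

lemma plankConst_nonneg {K : Set (E d)} (hw : 0 ≤ minWidth K) (k : ℕ) : 0 ≤ plankConst K k := by
  refine Real.sInf_nonneg ?_
  rintro s ⟨m, P, -, rfl⟩
  exact mul_nonneg (one_div_nonneg.mpr hw) (Finset.sum_nonneg fun i _ => (P i).width_nonneg)

lemma plankConst_le_of_family {K : Set (E d)} (hw : 0 ≤ minWidth K) {k : ℕ} {ι : Type}
    [Fintype ι] (P : ι → Plank d)
    (hcov : ∀ x ∈ K, k ≤ Set.ncard {i : ι | x ∈ (P i).carrier}) :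
    plankConst K k ≤ 1 / minWidth K * ∑ i, (P i).width := by
  let e := (Fintype.equivFin ι).symm
  refine csInf_le (bddBelow_plankConst_set hw k) ⟨Fintype.card ι, P ∘ e, ?_, ?_⟩
  · intro x hx
    refine (hcov x hx).trans (le_of_eq ?_)
    have : {i : Fin (Fintype.card ι) | x ∈ ((P ∘ e) i).carrier} =
        e ⁻¹' {i : ι | x ∈ (P i).carrier} := rfl
    rw [this, Set.ncard_preimage_of_injective_subset_range e.injective]
    simp
  · congr 1
    exact (e.sum_comp fun i => (P i).width).symm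

lemma count_le (J : ℕ) (B : ℝ) (hB : B < J + 1) :
    B ≤ ((Finset.univ.filter (fun j : Fin (J + 1) => ((j : ℕ) : ℝ) ≤ B)).card : ℝ) := by
  rcases lt_or_ge B 0 with h0 | h0
  · exact h0.le.trans (Nat.cast_nonneg _)
  · have hfl : ⌊B⌋₊ < J + 1 := by
      rw [Nat.floor_lt h0]
      exact_mod_cast hB
    have hsub : Finset.Iic (⟨⌊B⌋₊, hfl⟩ : Fin (J + 1)) ⊆
        Finset.univ.filter (fun j : Fin (J + 1) => ((j : ℕ) : ℝ) ≤ B) := by
      intro j hj
      rw [Finset.mem_Iic, Fin.le_def] at hj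
      simp only [Finset.mem_filter, Finset.mem_univ, true_and]
      exact (Nat.cast_le.mpr hj).trans (Nat.floor_le h0)
    have hcard := Finset.card_le_card hsub
    rw [Fin.card_Iic] at hcard
    have h1 : B < (⌊B⌋₊ : ℝ) + 1 := Nat.lt_floor_add_one B
    have h2 : ((⌊B⌋₊ + 1 : ℕ) : ℝ) ≤
        ((Finset.univ.filter (fun j : Fin (J + 1) => ((j : ℕ) : ℝ) ≤ B)).card : ℝ) := by
      exact_mod_cast hcard
    push_cast at h2
    linarith

lemma sum_fin_id (J : ℕ) : ∑ j : Fin (J + 1), ((j : ℕ) : ℝ) = (J : ℝ) * (J + 1) / 2 := by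
  rw [Fin.sum_univ_eq_sum_range (fun j : ℕ => (j : ℝ)) (J + 1)]
  induction J with
  | zero => simp
  | succ n ih =>
    rw [Finset.sum_range_succ, ih]
    push_cast
    ring

/-- **Upper bound.** `c_K(k) ≤ (2r/w) (k + d + 1)` in every dimension. -/
lemma plankConst_le_inradius (hd : 0 < d) {K : Set (E d)} (hK : IsConvexBody K) (k : ℕ) :
    plankConst K k ≤ 2 * inradius K / minWidth K * ((k : ℝ) + d + 1) := by
  classical
  have hw : 0 < minWidth K := minWidth_pos hd hK
  have hr : 0 < inradius K := inradius_pos hd hK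
  set r := inradius K with hrdef
  rcases Nat.eq_zero_or_pos k with rfl | hk
  · have h1 : plankConst K 0 ≤ 1 / minWidth K * ∑ i : Fin 0, ((Fin.elim0 i : Plank d)).width :=
      plankConst_le_of_family hw.le (fun i : Fin 0 => (Fin.elim0 i : Plank d))
        (fun x _ => Nat.zero_le _)
    refine h1.trans ?_
    simp only [Finset.univ_eq_empty, Finset.sum_empty, mul_zero]
    positivity
  have hk' : (0 : ℝ) < k := by exact_mod_cast hk
  obtain ⟨c, m, n, lam, hm, hc, hn, hlam, hlam1, hlamn, hKn⟩ := exists_contact hd hK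
  rw [← hrdef] at hc hKn
  -- number of planks per direction
  let J : Fin m → ℕ := fun i => ⌊2 * k * lam i⌋₊
  have hJ : ∀ i, (J i : ℝ) ≤ 2 * k * lam i := fun i =>
    Nat.floor_le (by have := hlam i; positivity)
  have hJ' : ∀ i, 2 * k * lam i < (J i : ℝ) + 1 := fun i => Nat.lt_floor_add_one _
  have ht : ∀ i (j : Fin (J i + 1)), 0 ≤ r * (2 - ((j : ℕ) : ℝ) / (k * lam i)) := by
    intro i j
    refine mul_nonneg hr.le (sub_nonneg.mpr ?_)
    rw [div_le_iff₀ (mul_pos hk' (hlam i))]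
    have h1 : ((j : ℕ) : ℝ) ≤ J i := by exact_mod_cast Nat.lt_succ_iff.mp j.2
    have h2 := hJ i
    linarith
  let P : (Σ i : Fin m, Fin (J i + 1)) → Plank d := fun p =>
    { normal := n p.1
      lo := inner ℝ c (n p.1) + r - r * (2 - ((p.2 : ℕ) : ℝ) / (k * lam p.1))
      hi := inner ℝ c (n p.1) + r
      norm_normal := hn p.1
      lo_le_hi := by
        have := ht p.1 p.2
        linarith }
  have hcov : ∀ x ∈ K, k ≤ Set.ncard {p | x ∈ (P p).carrier} := by
    intro x hx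
    set y : Fin m → ℝ := fun i => inner ℝ c (n i) + r - inner ℝ x (n i) with hy
    have hy0 : ∀ i, 0 ≤ y i := fun i => by
      have := hKn x hx i
      simp only [hy]
      linarith
    have hysum : ∑ i, lam i * y i = r := by
      have h1 : ∑ i, lam i * y i = ∑ i, (lam i * r + inner ℝ (c - x) (lam i • n i)) := by
        refine Finset.sum_congr rfl fun i _ => ?_
        rw [inner_smul_right, inner_sub_left]
        simp only [hy]
        ring
      rw [h1, Finset.sum_add_distrib, ← Finset.sum_mul, hlam1, ← inner_sum, hlamn,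
        inner_zero_right, one_mul, add_zero]
    -- the set is a sigma of filters
    have hset : {p : Σ i : Fin m, Fin (J i + 1) | x ∈ (P p).carrier} =
        ((Finset.univ.sigma fun i => Finset.univ.filter
          (fun j : Fin (J i + 1) => ((j : ℕ) : ℝ) ≤ k * lam i * (2 * r - y i) / r)) :
          Finset (Σ i : Fin m, Fin (J i + 1))) := by
      ext ⟨i, j⟩
      simp only [Plank.carrier, mem_setOf_eq, Finset.coe_sigma, Finset.mem_sigma, Finset.mem_univ,
        Finset.mem_filter, true_and, Finset.mem_coe, P]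
      have hkl : 0 < k * lam i := mul_pos hk' (hlam i)
      have hiff : inner ℝ c (n i) + r - r * (2 - ((j : ℕ) : ℝ) / (k * lam i)) ≤ inner ℝ x (n i) ↔
          ((j : ℕ) : ℝ) ≤ k * lam i * (2 * r - y i) / r := by
        rw [le_div_iff₀ hr]
        have e1 : ((j : ℕ) : ℝ) * r = (k * lam i) * (r * (((j : ℕ) : ℝ) / (k * lam i))) := by
          have hl := (hlam i).ne'
          field_simp
        rw [e1, mul_le_mul_iff_right₀ hkl]
        simp only [hy]
        constructor
        · intro h; linarith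
        · intro h; linarith
      constructor
      · rintro ⟨h1, -⟩
        simpa using hiff.mp h1
      · intro h1
        refine ⟨hiff.mpr (by simpa using h1), ?_⟩
        have := hKn x hx i
        linarith
    rw [hset, Set.ncard_coe_finset, Finset.card_sigma]
    have hreal : (k : ℝ) ≤ ((∑ i, (Finset.univ.filter
        (fun j : Fin (J i + 1) => ((j : ℕ) : ℝ) ≤ k * lam i * (2 * r - y i) / r)).card : ℕ) : ℝ) := by
      push_cast
      calc (k : ℝ) = ∑ i, k * lam i * (2 * r - y i) / r := by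
            have : ∀ i, k * lam i * (2 * r - y i) / r = 2 * k * lam i - k / r * (lam i * y i) := by
              intro i
              field_simp
            simp_rw [this]
            rw [Finset.sum_sub_distrib, ← Finset.mul_sum, ← Finset.mul_sum, hlam1, hysum]
            field_simp
            ring
        _ ≤ _ := by
            refine Finset.sum_le_sum fun i _ => ?_
            refine count_le (J i) _ (lt_of_le_of_lt ?_ (hJ' i))
            rw [div_le_iff₀ hr]
            have h1 : 0 ≤ k * lam i * y i := mul_nonneg (mul_pos hk' (hlam i)).le (hy0 i)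
            nlinarith
    exact_mod_cast hreal
  refine (plankConst_le_of_family hw.le P hcov).trans ?_
  have hsum : ∑ p, (P p).width ≤ 2 * r * ((k : ℝ) + d + 1) := by
    have h1 : ∑ p, (P p).width = ∑ i, ∑ j : Fin (J i + 1),
        r * (2 - ((j : ℕ) : ℝ) / (k * lam i)) := by
      rw [Fintype.sum_sigma]
      refine Finset.sum_congr rfl fun i _ => Finset.sum_congr rfl fun j _ => ?_
      simp only [Plank.width, P]
      ring
    rw [h1]
    have h2 : ∀ i, ∑ j : Fin (J i + 1), r * (2 - ((j : ℕ) : ℝ) / (k * lam i)) ≤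
        r * (2 * k * lam i + 2) := by
      intro i
      rw [← Finset.mul_sum, Finset.sum_sub_distrib, ← Finset.sum_div, sum_fin_id]
      simp only [Finset.sum_const, Finset.card_univ, Fintype.card_fin, nsmul_eq_mul]
      refine mul_le_mul_of_nonneg_left ?_ hr.le
      have hkl : 0 < k * lam i := mul_pos hk' (hlam i)
      have e1 : ((J i : ℝ) * (J i + 1) / 2) / (k * lam i) =
          (J i : ℝ) * (J i + 1) / (2 * k * lam i) := by
        field_simp
      rw [e1]
      have hs : 0 < 2 * k * lam i := by linarith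
      have e2 : (J i : ℝ) * (J i + 1) / (2 * k * lam i) ≥
          2 * J i - 2 * k * lam i := by
        rw [ge_iff_le, le_div_iff₀ hs]
        have := hJ i
        have h0 : (0 : ℝ) ≤ J i := Nat.cast_nonneg _
        nlinarith [sq_nonneg ((J i : ℝ) - 2 * k * lam i)]
      push_cast
      linarith
    refine (Finset.sum_le_sum fun i _ => h2 i).trans ?_
    have h3 : ∑ i, r * (2 * k * lam i + 2) = r * (2 * k + 2 * m) := by
      rw [← Finset.mul_sum, Finset.sum_add_distrib, ← Finset.mul_sum, hlam1]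
      simp only [Finset.sum_const, Finset.card_univ, Fintype.card_fin, nsmul_eq_mul]
      ring
    rw [h3]
    have hm' : (m : ℝ) ≤ d + 1 := by exact_mod_cast hm
    nlinarith
  calc 1 / minWidth K * ∑ p, (P p).width ≤ 1 / minWidth K * (2 * r * ((k : ℝ) + d + 1)) :=
        mul_le_mul_of_nonneg_left hsum (one_div_nonneg.mpr hw.le)
    _ = 2 * r / minWidth K * ((k : ℝ) + d + 1) := by ring

end Pool.Agent.Lib.MP_4043ba_gt
end

section

section

set_option autoImplicit false

open Set Metric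

namespace Pool.Agent.Lib.MP_4043ba_gt

variable {d : ℕ}

/-- If all points of `K` satisfy `lo ≤ ⟨x, u⟩ ≤ hi` then `w(K) ‖u‖ ≤ hi - lo`. -/
lemma minWidth_mul_norm_le {K : Set (E d)} (hK : IsConvexBody K) (u : E d)
    {lo hi : ℝ} (h : ∀ x ∈ K, lo ≤ inner ℝ x u ∧ inner ℝ x u ≤ hi) :
    minWidth K * ‖u‖ ≤ hi - lo := by
  obtain ⟨x0, hx0⟩ := hK.nonempty
  rcases eq_or_ne u 0 with rfl | hu
  · have := h x0 hx0
    rw [norm_zero, mul_zero]
    linarith [this.1.trans this.2]
  have hu' : 0 < ‖u‖ := norm_pos_iff.mpr hu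
  set θ : E d := ‖u‖⁻¹ • u with hθ
  have hθ1 : ‖θ‖ = 1 := by rw [hθ, norm_smul, norm_inv, norm_norm, inv_mul_cancel₀ hu'.ne']
  have h1 := minWidth_le hK.1 hK.nonempty hθ1
  obtain ⟨x, hx, hx'⟩ := exists_eq_supp hK.1 hK.nonempty θ
  obtain ⟨y, hy, hy'⟩ := exists_eq_supp hK.1 hK.nonempty (-θ)
  rw [widthIn_eq, ← hx', ← hy', inner_neg_right, hθ, inner_smul_right, inner_smul_right] at h1
  have h2 := (h x hx).2
  have h3 := (h y hy).1
  have h4 : ‖u‖⁻¹ * inner ℝ x u + -(‖u‖⁻¹ * inner ℝ y u) ≤ ‖u‖⁻¹ * (hi - lo) := by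
    have : ‖u‖⁻¹ * inner ℝ x u + -(‖u‖⁻¹ * inner ℝ y u) = ‖u‖⁻¹ * (inner ℝ x u - inner ℝ y u) := by
      ring
    rw [this]
    exact mul_le_mul_of_nonneg_left (by linarith) (inv_nonneg.mpr hu'.le)
  calc minWidth K * ‖u‖ ≤ (‖u‖⁻¹ * (hi - lo)) * ‖u‖ :=
        mul_le_mul_of_nonneg_right (h1.trans h4) hu'.le
    _ = hi - lo := by field_simp

/-- Partial sums of the weighted contact normals control the width. -/
lemma minWidth_mul_partial_sum_le {K : Set (E d)} (hK : IsConvexBody K)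
    {m : ℕ} {c : E d} {r : ℝ} {n : Fin m → E d} {lam : Fin m → ℝ}
    (hlam : ∀ i, 0 < lam i) (hlam1 : ∑ i, lam i = 1) (hlamn : ∑ i, lam i • n i = 0)
    (hKn : ∀ x ∈ K, ∀ i, inner ℝ x (n i) ≤ inner ℝ c (n i) + r) (I : Finset (Fin m)) :
    minWidth K * ‖∑ i ∈ I, lam i • n i‖ ≤ r := by
  classical
  set L : ℝ := ∑ i ∈ I, lam i with hL
  set u : E d := ∑ i ∈ I, lam i • n i with hu
  have key : ∀ x ∈ K, inner ℝ c u + r * L - r ≤ inner ℝ x u ∧ inner ℝ x u ≤ inner ℝ c u + r * L := by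
    intro x hx
    have hterm : ∀ i, 0 ≤ lam i * (inner ℝ c (n i) + r - inner ℝ x (n i)) := fun i =>
      mul_nonneg (hlam i).le (by have := hKn x hx i; linarith)
    have htot : ∑ i, lam i * (inner ℝ c (n i) + r - inner ℝ x (n i)) = r := by
      have h1 : ∑ i, lam i * (inner ℝ c (n i) + r - inner ℝ x (n i)) =
          ∑ i, (lam i * r + inner ℝ (c - x) (lam i • n i)) := by
        refine Finset.sum_congr rfl fun i _ => ?_
        rw [inner_smul_right, inner_sub_left]
        ring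
      rw [h1, Finset.sum_add_distrib, ← Finset.sum_mul, hlam1, ← inner_sum, hlamn,
        inner_zero_right, one_mul, add_zero]
    have hpart : ∑ i ∈ I, lam i * (inner ℝ c (n i) + r - inner ℝ x (n i)) =
        inner ℝ c u + r * L - inner ℝ x u := by
      have h1 : ∑ i ∈ I, lam i * (inner ℝ c (n i) + r - inner ℝ x (n i)) =
          ∑ i ∈ I, (inner ℝ c (lam i • n i) + r * lam i - inner ℝ x (lam i • n i)) := by
        refine Finset.sum_congr rfl fun i _ => ?_
        rw [inner_smul_right, inner_smul_right]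
        ring
      rw [h1, Finset.sum_sub_distrib, Finset.sum_add_distrib, ← Finset.mul_sum, ← inner_sum,
        ← inner_sum]
    have hnn : 0 ≤ ∑ i ∈ I, lam i * (inner ℝ c (n i) + r - inner ℝ x (n i)) :=
      Finset.sum_nonneg fun i _ => hterm i
    have hle : ∑ i ∈ I, lam i * (inner ℝ c (n i) + r - inner ℝ x (n i)) ≤ r := by
      exact (Finset.sum_le_sum_of_subset_of_nonneg (Finset.subset_univ I)
        fun i _ _ => hterm i).trans htot.le
    rw [hpart] at hnn hle
    constructor <;> linarith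
  have := minWidth_mul_norm_le hK u key
  linarith

/-- Some weight is at least `1 / m`. -/
lemma exists_weight_ge {m : ℕ} {lam : Fin m → ℝ} (hlam1 : ∑ i, lam i = 1) :
    ∃ i, 1 ≤ m * lam i := by
  by_contra hcon
  push Not at hcon
  have hm : 0 < m := by
    rcases Nat.eq_zero_or_pos m with rfl | h
    · simp at hlam1
    · exact h
  have : Nonempty (Fin m) := ⟨⟨0, hm⟩⟩
  have h1 : ∑ i : Fin m, (m : ℝ) * lam i < ∑ _i : Fin m, (1 : ℝ) :=
    Finset.sum_lt_sum_of_nonempty Finset.univ_nonempty fun i _ => hcon i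
  rw [← Finset.mul_sum, hlam1] at h1
  simp at h1

/-- Blaschke: a planar convex body has width at most three times its inradius. -/
lemma minWidth_le_two {K : Set (E 2)} (hK : IsConvexBody K) :
    minWidth K ≤ 3 * inradius K := by
  obtain ⟨c, m, n, lam, hm, hc, hn, hlam, hlam1, hlamn, hKn⟩ := exists_contact (by norm_num) hK
  obtain ⟨i, hi⟩ := exists_weight_ge hlam1
  have h1 := minWidth_mul_partial_sum_le hK hlam hlam1 hlamn hKn {i}
  rw [Finset.sum_singleton, norm_smul, hn i, mul_one, Real.norm_eq_abs,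
    abs_of_pos (hlam i)] at h1
  have hm' : (m : ℝ) ≤ 3 := by exact_mod_cast hm
  have hw := minWidth_pos (by norm_num : 0 < 2) hK
  have h2 : 1 ≤ 3 * lam i := hi.trans (mul_le_mul_of_nonneg_right hm' (hlam i).le)
  nlinarith

/-- Steinhagen: in dimension three the width is at most `2 √3` times the inradius. -/
lemma minWidth_le_three {K : Set (E 3)} (hK : IsConvexBody K) :
    minWidth K ≤ 2 * √3 * inradius K := by
  obtain ⟨c, m, n, lam, hm, hc, hn, hlam, hlam1, hlamn, hKn⟩ := exists_contact (by norm_num) hK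
  have hw := minWidth_pos (by norm_num : 0 < 3) hK
  have hr := inradius_pos (by norm_num : 0 < 3) hK
  -- some partial sum has squared norm at least `1 / 12`
  have key : ∃ I : Finset (Fin m), 1 ≤ 12 * ‖∑ i ∈ I, lam i • n i‖ ^ 2 := by
    rcases Nat.lt_or_ge m 4 with h3 | h4
    · obtain ⟨i, hi⟩ := exists_weight_ge hlam1
      refine ⟨{i}, ?_⟩
      rw [Finset.sum_singleton, norm_smul, hn i, mul_one, Real.norm_eq_abs,
        abs_of_pos (hlam i)]
      have hm' : (m : ℝ) ≤ 3 := by exact_mod_cast Nat.lt_succ_iff.mp h3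
      have h2 : 1 ≤ 3 * lam i := hi.trans (mul_le_mul_of_nonneg_right hm' (hlam i).le)
      nlinarith [hlam i]
    · have hm4 : m = 4 := le_antisymm hm h4
      subst hm4
      by_contra hcon
      push Not at hcon
      have ha : ∀ j : Fin 4, ‖lam j • n j‖ = lam j := fun j => by
        rw [norm_smul, hn j, mul_one, Real.norm_eq_abs, abs_of_pos (hlam j)]
      set a : Fin 4 → E 3 := fun j => lam j • n j with hadef
      have hsum : a 0 + a 1 + a 2 + a 3 = 0 := by
        have := hlamn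
        rwa [Fin.sum_univ_four] at this
      have e1 := hcon {0, 1}
      have e2 := hcon {0, 2}
      have e3 := hcon {0, 3}
      rw [Finset.sum_pair (by decide)] at e1 e2 e3
      have f1 : ‖a 0 + a 1‖ ^ 2 = ‖a 0‖ ^ 2 + 2 * inner ℝ (a 0) (a 1) + ‖a 1‖ ^ 2 :=
        norm_add_sq_real _ _
      have f2 : ‖a 0 + a 2‖ ^ 2 = ‖a 0‖ ^ 2 + 2 * inner ℝ (a 0) (a 2) + ‖a 2‖ ^ 2 :=
        norm_add_sq_real _ _
      have f3 : ‖a 0 + a 3‖ ^ 2 = ‖a 0‖ ^ 2 + 2 * inner ℝ (a 0) (a 3) + ‖a 3‖ ^ 2 :=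
        norm_add_sq_real _ _
      have f4 : inner ℝ (a 0) (a 0 + a 1 + a 2 + a 3) = (0 : ℝ) := by
        rw [hsum, inner_zero_right]
      rw [inner_add_right, inner_add_right, inner_add_right, real_inner_self_eq_norm_sq] at f4
      have g1 : 12 * ‖a 0 + a 1‖ ^ 2 < 1 := e1
      have g2 : 12 * ‖a 0 + a 2‖ ^ 2 < 1 := e2
      have g3 : 12 * ‖a 0 + a 3‖ ^ 2 < 1 := e3
      have h0 := ha 0
      have h1 := ha 1
      have h2 := ha 2
      have h3 := ha 3
      have hl : lam 0 + lam 1 + lam 2 + lam 3 = 1 := by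
        have := hlam1
        rwa [Fin.sum_univ_four] at this
      have hsq : 12 * (lam 0 ^ 2 + lam 1 ^ 2 + lam 2 ^ 2 + lam 3 ^ 2) < 3 := by
        rw [← h0, ← h1, ← h2, ← h3]
        change 12 * (‖a 0‖ ^ 2 + ‖a 1‖ ^ 2 + ‖a 2‖ ^ 2 + ‖a 3‖ ^ 2) < 3
        nlinarith
      nlinarith [sq_nonneg (lam 0 - lam 1), sq_nonneg (lam 0 - lam 2), sq_nonneg (lam 0 - lam 3),
        sq_nonneg (lam 1 - lam 2), sq_nonneg (lam 1 - lam 3), sq_nonneg (lam 2 - lam 3)]
  obtain ⟨I, hI⟩ := key
  have h1 := minWidth_mul_partial_sum_le hK hlam hlam1 hlamn hKn I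
  set N := ‖∑ i ∈ I, lam i • n i‖ with hN
  have hN0 : 0 ≤ N := norm_nonneg _
  have h3 : √3 ^ 2 = 3 := Real.sq_sqrt (by norm_num)
  have h3' : 0 < √3 := Real.sqrt_pos.mpr (by norm_num)
  have h5 : 1 ≤ 2 * √3 * N := by
    by_contra hcon
    push Not at hcon
    have h6 : 0 ≤ 2 * √3 * N := by positivity
    have h7 : (2 * √3 * N) ^ 2 < 1 := by nlinarith
    have h8 : (2 * √3 * N) ^ 2 = 12 * N ^ 2 := by
      rw [mul_pow, mul_pow, h3]; ring
    linarith
  calc minWidth K = minWidth K * 1 := by ring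
    _ ≤ minWidth K * (2 * √3 * N) := mul_le_mul_of_nonneg_left h5 hw.le
    _ = 2 * √3 * (minWidth K * N) := by ring
    _ ≤ 2 * √3 * inradius K := mul_le_mul_of_nonneg_left h1 (by positivity)

end Pool.Agent.Lib.MP_4043ba_gt
end

section

set_option autoImplicit false

open Set Metric MeasureTheory Real Filter Topology

namespace Pool.Agent.Lib.MP_4043ba_gt

/-- A linear isometry `ℝ × ℝ^n ≃ ℝ^(n+1)` whose first axis is a prescribed unit vector. -/
lemma exists_axis_isometry (n : ℕ) (θ : E (n + 1)) (hθ : ‖θ‖ = 1) :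
    ∃ φ : WithLp 2 (ℝ × E n) ≃ₗᵢ[ℝ] E (n + 1), ∀ (z : ℝ) (p : E n),
      inner ℝ (φ (WithLp.toLp 2 (z, p))) θ = z ∧
      ‖φ (WithLp.toLp 2 (z, p))‖ ^ 2 = z ^ 2 + ‖p‖ ^ 2 := by
  have hfin : Module.finrank ℝ (WithLp 2 (ℝ × E n)) = n + 1 := by
    have h1 : Module.finrank ℝ (WithLp 2 (ℝ × E n)) = Module.finrank ℝ (ℝ × E n) :=
      LinearEquiv.finrank_eq (WithLp.linearEquiv 2 ℝ (ℝ × E n))
    rw [h1, Module.finrank_prod, Module.finrank_self, finrank_euclideanSpace, Fintype.card_fin]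
    omega
  let φ0 : WithLp 2 (ℝ × E n) ≃ₗᵢ[ℝ] E (n + 1) :=
    ((stdOrthonormalBasis ℝ (WithLp 2 (ℝ × E n))).reindex (finCongr hfin)).repr
  let e : WithLp 2 (ℝ × E n) := WithLp.toLp 2 (1, 0)
  have he : ‖e‖ = 1 := by
    rw [← sq_eq_sq₀ (norm_nonneg _) zero_le_one, WithLp.prod_norm_sq_eq_of_L2]
    simp [e]
  have hnorm : ‖φ0 e‖ = ‖θ‖ := by rw [LinearIsometryEquiv.norm_map, he, hθ]
  let A := Submodule.reflection (ℝ ∙ (φ0 e - θ))ᗮ
  have hA : A (φ0 e) = θ := Submodule.reflection_sub hnorm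
  refine ⟨φ0.trans A, fun z p => ⟨?_, ?_⟩⟩
  · have h1 : inner ℝ ((φ0.trans A) (WithLp.toLp 2 (z, p))) ((φ0.trans A) e) =
        inner ℝ (WithLp.toLp 2 (z, p)) e := LinearIsometryEquiv.inner_map_map _ _ _
    have h2 : (φ0.trans A) e = θ := hA
    rw [h2] at h1
    rw [h1, WithLp.prod_inner_apply]
    simp [e]
  · rw [LinearIsometryEquiv.norm_map, WithLp.prod_norm_sq_eq_of_L2]
    simp

/-- Slicing the volume of a set of revolution. -/
lemma volume_slice (n : ℕ) (θ : E (n + 1)) (hθ : ‖θ‖ = 1) (S : Set (ℝ × ℝ))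
    (hS : MeasurableSet S) :
    volume {y : E (n + 1) | (inner ℝ y θ, ‖y‖ ^ 2) ∈ S} =
      ∫⁻ z : ℝ, volume {p : E n | (z, z ^ 2 + ‖p‖ ^ 2) ∈ S} := by
  obtain ⟨φ, hφ⟩ := exists_axis_isometry n θ hθ
  have hT : MeasurableSet {y : E (n + 1) | (inner ℝ y θ, ‖y‖ ^ 2) ∈ S} := by
    apply hS.preimage (f := fun y : E (n + 1) => ((inner ℝ y θ : ℝ), ‖y‖ ^ 2))
    fun_prop
  have h1 := φ.measurePreserving.measure_preimage hT.nullMeasurableSet
  have hT2 : MeasurableSet (φ ⁻¹' {y : E (n + 1) | (inner ℝ y θ, ‖y‖ ^ 2) ∈ S}) :=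
    φ.continuous.measurable hT
  have h2 := (WithLp.volume_preserving_toLp ℝ (E n)).measure_preimage hT2.nullMeasurableSet
  rw [← h1, ← h2]
  have hset : (WithLp.toLp 2 : ℝ × E n → WithLp 2 (ℝ × E n)) ⁻¹'
      (φ ⁻¹' {y : E (n + 1) | (inner ℝ y θ, ‖y‖ ^ 2) ∈ S}) =
      {q : ℝ × E n | (q.1, q.1 ^ 2 + ‖q.2‖ ^ 2) ∈ S} := by
    ext ⟨z, p⟩
    simp only [mem_preimage, mem_ofPred_eq]
    rw [(hφ z p).1, (hφ z p).2]
  rw [hset]
  have hT3 : MeasurableSet {q : ℝ × E n | (q.1, q.1 ^ 2 + ‖q.2‖ ^ 2) ∈ S} := by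
    apply hS.preimage (f := fun q : ℝ × E n => (q.1, q.1 ^ 2 + ‖q.2‖ ^ 2))
    fun_prop
  rw [Measure.volume_eq_prod, Measure.prod_apply hT3]
  rfl

lemma volume_disc_sq (A : ℝ) (hA : 0 ≤ A) :
    volume {p : E 2 | ‖p‖ ^ 2 < A} = ENNReal.ofReal (A * π) := by
  have h1 : {p : E 2 | ‖p‖ ^ 2 < A} = ball 0 (√A) := by
    ext p
    rw [mem_ball_zero_iff, mem_ofPred_eq, Real.lt_sqrt (norm_nonneg _)]
  rw [h1, EuclideanSpace.volume_ball_fin_two, ← ENNReal.ofReal_pow (Real.sqrt_nonneg _),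
    Real.sq_sqrt hA, ENNReal.ofReal_mul hA]

/-- Volume of a spherical sector of the unit ball of `ℝ^3`. -/
lemma volume_cone (θ : E 3) (hθ : ‖θ‖ = 1) (t : ℝ) (ht0 : 0 ≤ t) (ht1 : t ≤ 1) :
    volume {y : E 3 | ‖y‖ < 1 ∧ t * ‖y‖ < inner ℝ y θ} = ENNReal.ofReal (2 * π / 3 * (1 - t)) := by
  have hS : MeasurableSet {q : ℝ × ℝ | q.2 < 1 ∧ t * √q.2 < q.1} := by
    have hm1 : Measurable fun q : ℝ × ℝ => t * √q.2 := by fun_prop
    exact (measurableSet_lt measurable_snd measurable_const).inter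
      (measurableSet_lt hm1 measurable_fst)
  have h1 := volume_slice 2 θ hθ _ hS
  have h2 : {y : E 3 | ‖y‖ < 1 ∧ t * ‖y‖ < inner ℝ y θ} =
      {y : E (2 + 1) | ((inner ℝ y θ : ℝ), ‖y‖ ^ 2) ∈ {q : ℝ × ℝ | q.2 < 1 ∧ t * √q.2 < q.1}} := by
    ext y
    simp only [mem_ofPred_eq, Real.sqrt_sq (norm_nonneg _)]
    rw [sq_lt_one_iff₀ (norm_nonneg _)]
  rw [h2, h1]
  -- the slices
  have hslice : ∀ z : ℝ, volume {p : E 2 | (z, z ^ 2 + ‖p‖ ^ 2) ∈
      {q : ℝ × ℝ | q.2 < 1 ∧ t * √q.2 < q.1}} =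
      (Ioc 0 t).indicator (fun z => ENNReal.ofReal (z ^ 2 * (1 / t ^ 2 - 1) * π)) z +
      (Ioo t 1).indicator (fun z => ENNReal.ofReal ((1 - z ^ 2) * π)) z := by
    intro z
    simp only [mem_ofPred_eq]
    by_cases hz1 : z ∈ Ioc 0 t
    · have hz2 : z ∉ Ioo t 1 := fun h => absurd h.1 (not_lt.mpr hz1.2)
      rw [indicator_of_mem hz1, indicator_of_notMem hz2, add_zero]
      have htpos : 0 < t := hz1.1.trans_le hz1.2
      have ht2 : t ^ 2 ≤ 1 := by nlinarith
      have hA : 0 ≤ z ^ 2 * (1 / t ^ 2 - 1) := by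
        refine mul_nonneg (sq_nonneg _) (sub_nonneg.mpr ?_)
        rw [le_div_iff₀ (by positivity)]
        linarith
      rw [← volume_disc_sq _ hA]
      congr 1
      ext p
      simp only [mem_ofPred_eq]
      have hz0 : 0 < z := hz1.1
      have hq : 0 ≤ z ^ 2 + ‖p‖ ^ 2 := by positivity
      have key : t * √(z ^ 2 + ‖p‖ ^ 2) < z ↔ ‖p‖ ^ 2 < z ^ 2 * (1 / t ^ 2 - 1) := by
        have e1 : z ^ 2 * (1 / t ^ 2 - 1) = z ^ 2 / t ^ 2 - z ^ 2 := by ring
        rw [e1, lt_sub_iff_add_lt, lt_div_iff₀ (by positivity)]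
        have e2 : (‖p‖ ^ 2 + z ^ 2) * t ^ 2 = (t * √(z ^ 2 + ‖p‖ ^ 2)) ^ 2 := by
          rw [mul_pow, Real.sq_sqrt hq]; ring
        rw [e2]
        exact (pow_lt_pow_iff_left₀ (by positivity) hz0.le (by norm_num)).symm
      constructor
      · rintro ⟨-, h⟩
        exact key.mp h
      · intro h
        refine ⟨?_, key.mpr h⟩
        have e1 : z ^ 2 * (1 / t ^ 2 - 1) = z ^ 2 / t ^ 2 - z ^ 2 := by ring
        rw [e1] at h
        have h3 : z ^ 2 / t ^ 2 ≤ 1 := by
          rw [div_le_one (by positivity)]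
          exact pow_le_pow_left₀ hz0.le hz1.2 2
        linarith
    · rw [indicator_of_notMem hz1, zero_add]
      by_cases hz2 : z ∈ Ioo t 1
      · rw [indicator_of_mem hz2]
        have hz0 : 0 < z := ht0.trans_lt hz2.1
        have hA : 0 ≤ 1 - z ^ 2 := by nlinarith [hz2.2]
        rw [← volume_disc_sq _ hA]
        congr 1
        ext p
        simp only [mem_ofPred_eq]
        constructor
        · rintro ⟨h, -⟩
          linarith
        · intro h
          refine ⟨by linarith, ?_⟩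
          have h4 : √(z ^ 2 + ‖p‖ ^ 2) ≤ 1 := Real.sqrt_le_one.mpr (by linarith)
          have := hz2.1
          nlinarith [Real.sqrt_nonneg (z ^ 2 + ‖p‖ ^ 2)]
      · rw [indicator_of_notMem hz2]
        have hempty : {p : E 2 | z ^ 2 + ‖p‖ ^ 2 < 1 ∧ t * √(z ^ 2 + ‖p‖ ^ 2) < z} = ∅ := by
          rw [Set.eq_empty_iff_forall_notMem]
          rintro p ⟨h5, h6⟩
          have hz0 : 0 < z := lt_of_le_of_lt (by positivity) h6
          have hzt : t < z := by
            by_contra hcon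
            exact hz1 ⟨hz0, not_lt.mp hcon⟩
          refine hz2 ⟨hzt, ?_⟩
          have : z ^ 2 < 1 := by nlinarith [sq_nonneg ‖p‖]
          nlinarith
        rw [hempty, measure_empty]
  simp_rw [hslice]
  rw [lintegral_add_left]
  swap
  · exact (Measurable.indicator (by fun_prop) measurableSet_Ioc)
  rw [lintegral_indicator measurableSet_Ioc, lintegral_indicator measurableSet_Ioo]
  have hI1 : ∫⁻ z in Ioc 0 t, ENNReal.ofReal (z ^ 2 * (1 / t ^ 2 - 1) * π) =
      ENNReal.ofReal (t * (1 - t ^ 2) / 3 * π) := by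
    rw [← ofReal_integral_eq_lintegral_ofReal]
    · congr 1
      rw [← intervalIntegral.integral_of_le ht0]
      rw [intervalIntegral.integral_mul_const, intervalIntegral.integral_mul_const, integral_pow]
      rcases ht0.eq_or_lt with rfl | htpos
      · simp
      · field_simp
        ring
    · exact (Continuous.integrableOn_Icc (by fun_prop)).mono_set Ioc_subset_Icc_self
    · filter_upwards [ae_restrict_mem measurableSet_Ioc] with z hz
      have htpos : 0 < t := hz.1.trans_le hz.2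
      have ht2 : t ^ 2 ≤ 1 := by nlinarith
      refine mul_nonneg (mul_nonneg (sq_nonneg _) (sub_nonneg.mpr ?_)) pi_pos.le
      rw [le_div_iff₀ (by positivity)]
      linarith
  have hI2 : ∫⁻ z in Ioo t 1, ENNReal.ofReal ((1 - z ^ 2) * π) =
      ENNReal.ofReal (((1 - t) - (1 - t ^ 3) / 3) * π) := by
    rw [← ofReal_integral_eq_lintegral_ofReal]
    · congr 1
      rw [← integral_Ioc_eq_integral_Ioo, ← intervalIntegral.integral_of_le ht1]
      rw [intervalIntegral.integral_mul_const, intervalIntegral.integral_sub (by simp) (by simp),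
        integral_pow]
      simp
      ring
    · exact (Continuous.integrableOn_Icc (by fun_prop)).mono_set Ioo_subset_Icc_self
    · filter_upwards [ae_restrict_mem measurableSet_Ioo] with z hz
      have h0 : 0 < z := ht0.trans_lt hz.1
      refine mul_nonneg ?_ pi_pos.le
      nlinarith [hz.2]
  rw [hI1, hI2, ← ENNReal.ofReal_add]
  · congr 1
    ring
  · have : t ^ 2 ≤ 1 := by nlinarith
    have h7 : 0 ≤ 1 - t ^ 2 := by linarith
    positivity
  · have h8 : t ^ 3 ≥ 0 := by positivity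
    refine mul_nonneg ?_ pi_pos.le
    nlinarith [mul_nonneg (mul_nonneg (sub_nonneg.mpr ht1) (sub_nonneg.mpr ht1)) (by linarith : (0:ℝ) ≤ 2 + t)]

lemma volume_unitBall_three : (volume (ball (0 : E 3) 1)).toReal = 4 * π / 3 := by
  rw [EuclideanSpace.volume_ball_fin_three]
  simp only [ENNReal.ofReal_one, one_pow, one_mul]
  rw [ENNReal.toReal_ofReal (by positivity)]
  ring

lemma measurableSet_strict (θ : E 3) (t : ℝ) :
    MeasurableSet {y : E 3 | ‖y‖ < 1 ∧ t * ‖y‖ < inner ℝ y θ} := by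
  have h1 : Measurable fun y : E 3 => t * ‖y‖ := by fun_prop
  have h2 : Measurable fun y : E 3 => (inner ℝ y θ : ℝ) := by fun_prop
  exact (measurableSet_lt measurable_norm measurable_const).inter (measurableSet_lt h1 h2)

lemma measurableSet_nonstrict (θ : E 3) (t : ℝ) :
    MeasurableSet {y : E 3 | ‖y‖ < 1 ∧ t * ‖y‖ ≤ inner ℝ y θ} := by
  have h1 : Measurable fun y : E 3 => t * ‖y‖ := by fun_prop
  have h2 : Measurable fun y : E 3 => (inner ℝ y θ : ℝ) := by fun_prop
  exact (measurableSet_lt measurable_norm measurable_const).inter (measurableSet_le h1 h2)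

lemma finite_of_subset_unitBall {S : Set (E 3)} (h : ∀ y ∈ S, ‖y‖ < 1) : volume S ≠ ⊤ := by
  refine ne_top_of_le_ne_top (measure_ball_lt_top (x := (0 : E 3)) (r := 1)).ne
    (measure_mono fun y hy => ?_)
  rw [mem_ball_zero_iff]
  exact h y hy

lemma strict_real (θ : E 3) (hθ : ‖θ‖ = 1) (t : ℝ) (ht0 : 0 ≤ t) (ht1 : t ≤ 1) :
    (volume {y : E 3 | ‖y‖ < 1 ∧ t * ‖y‖ < inner ℝ y θ}).toReal = 2 * π / 3 * (1 - t) := by
  rw [volume_cone θ hθ t ht0 ht1, ENNReal.toReal_ofReal]
  exact mul_nonneg (by positivity) (by linarith)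

lemma nonstrict_real_pos (θ : E 3) (hθ : ‖θ‖ = 1) (t : ℝ) (ht0 : 0 < t) (ht1 : t ≤ 1) :
    (volume {y : E 3 | ‖y‖ < 1 ∧ t * ‖y‖ ≤ inner ℝ y θ}).toReal ≤ 2 * π / 3 * (1 - t) := by
  have hle : ∀ s ∈ Ico 0 t, (volume {y : E 3 | ‖y‖ < 1 ∧ t * ‖y‖ ≤ inner ℝ y θ}).toReal ≤
      2 * π / 3 * (1 - s) := by
    intro s hs
    rw [← strict_real θ hθ s hs.1 (hs.2.le.trans ht1)]
    refine ENNReal.toReal_mono (finite_of_subset_unitBall fun y hy => hy.1) ?_
    calc volume {y : E 3 | ‖y‖ < 1 ∧ t * ‖y‖ ≤ inner ℝ y θ}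
        ≤ volume ({y : E 3 | ‖y‖ < 1 ∧ s * ‖y‖ < inner ℝ y θ} ∪ {0}) := by
          refine measure_mono ?_
          rintro y ⟨hy1, hy2⟩
          rcases eq_or_ne y 0 with rfl | hy
          · right; rfl
          · left
            refine ⟨hy1, lt_of_lt_of_le ?_ hy2⟩
            exact mul_lt_mul_of_pos_right hs.2 (norm_pos_iff.mpr hy)
      _ ≤ volume {y : E 3 | ‖y‖ < 1 ∧ s * ‖y‖ < inner ℝ y θ} + volume ({0} : Set (E 3)) :=
          measure_union_le _ _
      _ = volume {y : E 3 | ‖y‖ < 1 ∧ s * ‖y‖ < inner ℝ y θ} := by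
          rw [measure_singleton, add_zero]
  have hlim : Tendsto (fun s : ℝ => 2 * π / 3 * (1 - s)) (𝓝[<] t) (𝓝 (2 * π / 3 * (1 - t))) := by
    apply tendsto_nhdsWithin_of_tendsto_nhds
    exact (by fun_prop : Continuous fun s : ℝ => 2 * π / 3 * (1 - s)).tendsto t
  refine ge_of_tendsto hlim ?_
  filter_upwards [Ico_mem_nhdsLT ht0] with s hs
  exact hle s hs

lemma strict_add_nonstrict (θ : E 3) (t : ℝ) :
    (volume {y : E 3 | ‖y‖ < 1 ∧ t * ‖y‖ < inner ℝ y θ}).toReal +
      (volume {y : E 3 | ‖y‖ < 1 ∧ -t * ‖y‖ ≤ inner ℝ y θ}).toReal = 4 * π / 3 := by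
  have h1 : volume {y : E 3 | ‖y‖ < 1 ∧ -t * ‖y‖ ≤ inner ℝ y θ} =
      volume {y : E 3 | ‖y‖ < 1 ∧ inner ℝ y θ ≤ t * ‖y‖} := by
    have h2 := (Measure.measurePreserving_neg (volume : Measure (E 3))).measure_preimage
      (measurableSet_nonstrict θ (-t)).nullMeasurableSet
    rw [← h2]
    congr 1
    ext y
    simp only [mem_preimage, mem_ofPred_eq, norm_neg, inner_neg_left]
    constructor
    · rintro ⟨h3, h4⟩
      exact ⟨h3, by linarith⟩
    · rintro ⟨h3, h4⟩
      exact ⟨h3, by linarith⟩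
  rw [h1, ← ENNReal.toReal_add (finite_of_subset_unitBall fun y hy => hy.1)
    (finite_of_subset_unitBall fun y hy => hy.1), ← volume_unitBall_three]
  congr 1
  have hdisj : Disjoint {y : E 3 | ‖y‖ < 1 ∧ t * ‖y‖ < inner ℝ y θ}
      {y : E 3 | ‖y‖ < 1 ∧ inner ℝ y θ ≤ t * ‖y‖} := by
    rw [Set.disjoint_left]
    rintro y ⟨-, h3⟩ ⟨-, h4⟩
    linarith
  rw [← measure_union' hdisj (measurableSet_strict θ t)]
  congr 1
  ext y
  simp only [mem_union, mem_ofPred_eq, mem_ball_zero_iff]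
  constructor
  · rintro (h | h) <;> exact h.1
  · intro h
    rcases lt_or_ge (t * ‖y‖) (inner ℝ y θ) with h3 | h3
    · exact Or.inl ⟨h, h3⟩
    · exact Or.inr ⟨h, h3⟩

lemma nonstrict_real_le (θ : E 3) (hθ : ‖θ‖ = 1) (a : ℝ) (ha : a ≤ 1) :
    (volume {y : E 3 | ‖y‖ < 1 ∧ a * ‖y‖ ≤ inner ℝ y θ}).toReal ≤ 2 * π / 3 * (1 - a) := by
  rcases lt_or_ge 0 a with h | h
  · exact nonstrict_real_pos θ hθ a h ha
  · rcases lt_or_ge a (-1) with h1 | h1
    · have h2 : (volume {y : E 3 | ‖y‖ < 1 ∧ a * ‖y‖ ≤ inner ℝ y θ}).toReal ≤ 4 * π / 3 := by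
        rw [← volume_unitBall_three]
        refine ENNReal.toReal_mono measure_ball_lt_top.ne (measure_mono fun y hy => ?_)
        rw [mem_ball_zero_iff]
        exact hy.1
      nlinarith [pi_pos]
    · have h2 := strict_add_nonstrict θ (-a)
      rw [strict_real θ hθ (-a) (by linarith) (by linarith), neg_neg] at h2
      linarith

lemma le_strict_real (θ : E 3) (hθ : ‖θ‖ = 1) (b : ℝ) (hb : -1 ≤ b) :
    2 * π / 3 * (1 - b) ≤ (volume {y : E 3 | ‖y‖ < 1 ∧ b * ‖y‖ < inner ℝ y θ}).toReal := by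
  rcases lt_or_ge 1 b with h | h
  · refine le_trans ?_ ENNReal.toReal_nonneg
    nlinarith [pi_pos]
  · have h2 := strict_add_nonstrict θ b
    have h3 := nonstrict_real_le θ hθ (-b) (by linarith)
    linarith

/-- **Archimedes.** Upper bound for the volume of the cone over a spherical zone. -/
lemma volume_band (θ : E 3) (hθ : ‖θ‖ = 1) (a b : ℝ) (hab : a ≤ b) :
    volume {y : E 3 | ‖y‖ < 1 ∧ a * ‖y‖ ≤ inner ℝ y θ ∧ inner ℝ y θ ≤ b * ‖y‖} ≤
      ENNReal.ofReal (2 * π / 3 * (b - a)) := by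
  have hcs : ∀ y : E 3, |inner ℝ y θ| ≤ ‖y‖ := fun y => by
    have := abs_real_inner_le_norm y θ
    rwa [hθ, mul_one] at this
  rcases lt_or_ge 1 a with ha | ha
  · have : {y : E 3 | ‖y‖ < 1 ∧ a * ‖y‖ ≤ inner ℝ y θ ∧ inner ℝ y θ ≤ b * ‖y‖} ⊆ {0} := by
      rintro y ⟨-, h1, -⟩
      by_contra hy
      have hy' : 0 < ‖y‖ := norm_pos_iff.mpr hy
      have h2 := (le_abs_self _).trans (hcs y)
      nlinarith
    exact (measure_mono this).trans (by rw [measure_singleton]; exact zero_le)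
  rcases lt_or_ge b (-1) with hb | hb
  · have : {y : E 3 | ‖y‖ < 1 ∧ a * ‖y‖ ≤ inner ℝ y θ ∧ inner ℝ y θ ≤ b * ‖y‖} ⊆ {0} := by
      rintro y ⟨-, -, h1⟩
      by_contra hy
      have hy' : 0 < ‖y‖ := norm_pos_iff.mpr hy
      have h2 := (neg_le_abs _).trans (hcs y)
      nlinarith
    exact (measure_mono this).trans (by rw [measure_singleton]; exact zero_le)
  rw [ENNReal.le_ofReal_iff_toReal_le (finite_of_subset_unitBall fun y hy => hy.1)
    (mul_nonneg (by positivity) (by linarith))]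
  have h1 := nonstrict_real_le θ hθ a ha
  have h2 := le_strict_real θ hθ b hb
  have hdisj : Disjoint {y : E 3 | ‖y‖ < 1 ∧ b * ‖y‖ < inner ℝ y θ}
      {y : E 3 | ‖y‖ < 1 ∧ a * ‖y‖ ≤ inner ℝ y θ ∧ inner ℝ y θ ≤ b * ‖y‖} := by
    rw [Set.disjoint_left]
    rintro y ⟨-, h3⟩ ⟨-, -, h4⟩
    linarith
  have h3 : {y : E 3 | ‖y‖ < 1 ∧ a * ‖y‖ ≤ inner ℝ y θ} =
      {y : E 3 | ‖y‖ < 1 ∧ b * ‖y‖ < inner ℝ y θ} ∪
      {y : E 3 | ‖y‖ < 1 ∧ a * ‖y‖ ≤ inner ℝ y θ ∧ inner ℝ y θ ≤ b * ‖y‖} := by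
    ext y
    simp only [mem_union, mem_ofPred_eq]
    constructor
    · rintro ⟨h4, h5⟩
      rcases lt_or_ge (b * ‖y‖) (inner ℝ y θ) with h6 | h6
      · exact Or.inl ⟨h4, h6⟩
      · exact Or.inr ⟨h4, h5, h6⟩
    · rintro (⟨h4, h5⟩ | ⟨h4, h5, -⟩)
      · refine ⟨h4, le_trans ?_ h5.le⟩
        exact mul_le_mul_of_nonneg_right hab (norm_nonneg _)
      · exact ⟨h4, h5⟩
  have h4 : (volume {y : E 3 | ‖y‖ < 1 ∧ a * ‖y‖ ≤ inner ℝ y θ}).toReal =
      (volume {y : E 3 | ‖y‖ < 1 ∧ b * ‖y‖ < inner ℝ y θ}).toReal +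
      (volume {y : E 3 | ‖y‖ < 1 ∧ a * ‖y‖ ≤ inner ℝ y θ ∧ inner ℝ y θ ≤ b * ‖y‖}).toReal := by
    rw [h3, measure_union' hdisj (measurableSet_strict θ b),
      ENNReal.toReal_add (finite_of_subset_unitBall fun y hy => hy.1)
      (finite_of_subset_unitBall fun y hy => hy.1)]
  linarith

/-- **Archimedes' measure** on the sphere of `ℝ^3`: all its one-dimensional projections have
density at most `1`, and its total mass is `2`. -/
lemma exists_archimedes_three : ∃ μ : Measure (E 3), μ univ = 2 ∧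
    μ (closedBall (0 : E 3) 1)ᶜ = 0 ∧ ∀ θ : E 3, ‖θ‖ = 1 → ∀ a b : ℝ, a ≤ b →
      μ {x | a ≤ inner ℝ x θ ∧ inner ℝ x θ ≤ b} ≤ ENNReal.ofReal (b - a) := by
  have hmeas : Measurable fun y : E 3 => ‖y‖⁻¹ • y := by fun_prop
  refine ⟨ENNReal.ofReal (3 / (2 * π)) •
    Measure.map (fun y : E 3 => ‖y‖⁻¹ • y) (volume.restrict (ball 0 1)), ?_, ?_, ?_⟩
  · rw [Measure.smul_apply, Measure.map_apply hmeas MeasurableSet.univ, preimage_univ,
      Measure.restrict_apply_univ, smul_eq_mul]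
    have h1 : volume (ball (0 : E 3) 1) = ENNReal.ofReal (4 * π / 3) := by
      rw [← volume_unitBall_three, ENNReal.ofReal_toReal measure_ball_lt_top.ne]
    rw [h1, ← ENNReal.ofReal_mul (by positivity)]
    have h2 : 3 / (2 * π) * (4 * π / 3) = 2 := by
      field_simp
      norm_num
    rw [h2]
    norm_num
  · rw [Measure.smul_apply, Measure.map_apply hmeas isClosed_closedBall.measurableSet.compl]
    have h1 : (fun y : E 3 => ‖y‖⁻¹ • y) ⁻¹' (closedBall (0 : E 3) 1)ᶜ = ∅ := by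
      rw [Set.eq_empty_iff_forall_notMem]
      intro y hy
      apply hy
      rw [mem_closedBall_zero_iff, norm_smul, norm_inv, norm_norm]
      exact inv_mul_le_one
    rw [h1, measure_empty, smul_zero]
  · intro θ hθ a b hab
    have hset : MeasurableSet {x : E 3 | a ≤ inner ℝ x θ ∧ inner ℝ x θ ≤ b} := by
      have h2 : Measurable fun y : E 3 => (inner ℝ y θ : ℝ) := by fun_prop
      exact (measurableSet_le measurable_const h2).inter (measurableSet_le h2 measurable_const)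
    rw [Measure.smul_apply, Measure.map_apply hmeas hset, smul_eq_mul,
      Measure.restrict_apply (hset.preimage hmeas)]
    have hsub : (fun y : E 3 => ‖y‖⁻¹ • y) ⁻¹' {x : E 3 | a ≤ inner ℝ x θ ∧ inner ℝ x θ ≤ b} ∩
        ball 0 1 ⊆ {y : E 3 | ‖y‖ < 1 ∧ a * ‖y‖ ≤ inner ℝ y θ ∧ inner ℝ y θ ≤ b * ‖y‖} := by
      rintro y ⟨hy1, hy2⟩
      rw [mem_ball_zero_iff] at hy2
      simp only [mem_preimage, mem_ofPred_eq, inner_smul_left, RCLike.conj_to_real] at hy1
      rcases eq_or_ne y 0 with rfl | hy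
      · simp
      · have hpos : 0 < ‖y‖ := norm_pos_iff.mpr hy
        refine ⟨hy2, ?_, ?_⟩
        · have := hy1.1
          rw [inv_mul_eq_div, le_div_iff₀ hpos] at this
          exact this
        · have := hy1.2
          rw [inv_mul_eq_div, div_le_iff₀ hpos] at this
          exact this
    calc ENNReal.ofReal (3 / (2 * π)) * volume ((fun y : E 3 => ‖y‖⁻¹ • y) ⁻¹'
          {x : E 3 | a ≤ inner ℝ x θ ∧ inner ℝ x θ ≤ b} ∩ ball 0 1)
        ≤ ENNReal.ofReal (3 / (2 * π)) * ENNReal.ofReal (2 * π / 3 * (b - a)) :=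
          mul_le_mul_right ((measure_mono hsub).trans (volume_band θ hθ a b hab)) _
      _ = ENNReal.ofReal (b - a) := by
          rw [← ENNReal.ofReal_mul (by positivity)]
          congr 1
          field_simp

/-- A linear isometry of `ℝ^d` into `ℝ^n` for `d ≤ n`. -/
lemma exists_linearIsometry {d n : ℕ} (h : d ≤ n) : Nonempty (E d →ₗᵢ[ℝ] E n) := by
  let v := EuclideanSpace.basisFun (Fin d) ℝ
  let f : E d →ₗ[ℝ] E n := v.toBasis.constr ℝ
    (fun i => (EuclideanSpace.basisFun (Fin n) ℝ) (Fin.castLE h i))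
  refine ⟨f.isometryOfOrthonormal (v := v.toBasis) ?_ ?_⟩
  · rw [OrthonormalBasis.coe_toBasis]
    exact v.orthonormal
  · have : f ∘ v.toBasis = (EuclideanSpace.basisFun (Fin n) ℝ) ∘ (Fin.castLE h) := by
      funext i
      simp [f]
    rw [this]
    exact (EuclideanSpace.basisFun (Fin n) ℝ).orthonormal.comp _ (Fin.castLE_injective h)

/-- **Archimedes' measure** on the unit ball of `ℝ^d`, `d ≤ 3`. -/
lemma exists_archimedes {d : ℕ} (hd : d ≤ 3) : ∃ μ : Measure (E d), μ univ = 2 ∧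
    μ (closedBall (0 : E d) 1)ᶜ = 0 ∧ ∀ θ : E d, ‖θ‖ = 1 → ∀ a b : ℝ, a ≤ b →
      μ {x | a ≤ inner ℝ x θ ∧ inner ℝ x θ ≤ b} ≤ ENNReal.ofReal (b - a) := by
  obtain ⟨μ, hμ1, hμ2, hμ3⟩ := exists_archimedes_three
  obtain ⟨ι⟩ := exists_linearIsometry hd
  let A : E 3 →L[ℝ] E d := ContinuousLinearMap.adjoint ι.toContinuousLinearMap
  have hA : ∀ (x : E 3) (θ : E d), inner ℝ (A x) θ = inner ℝ x (ι θ) := fun x θ => by
    rw [ContinuousLinearMap.adjoint_inner_left]
    rfl
  have hmeas : Measurable A := A.continuous.measurable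
  refine ⟨Measure.map A μ, ?_, ?_, ?_⟩
  · rw [Measure.map_apply hmeas MeasurableSet.univ, preimage_univ, hμ1]
  · rw [Measure.map_apply hmeas isClosed_closedBall.measurableSet.compl]
    refine measure_mono_null ?_ hμ2
    intro x hx hx'
    apply hx
    rw [mem_closedBall_zero_iff] at hx' ⊢
    have h1 : ‖A x‖ ^ 2 ≤ ‖x‖ * ‖A x‖ := by
      rw [← real_inner_self_eq_norm_sq, hA]
      refine (real_inner_le_norm _ _).trans ?_
      rw [ι.norm_map]
    rcases (norm_nonneg (A x)).eq_or_lt with h0 | h0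
    · rw [← h0]; exact zero_le_one
    · have : ‖A x‖ ≤ ‖x‖ := by
        rw [sq] at h1
        exact le_of_mul_le_mul_right h1 h0
      exact this.trans hx'
  · intro θ hθ a b hab
    have hset : MeasurableSet {x : E d | a ≤ inner ℝ x θ ∧ inner ℝ x θ ≤ b} := by
      have h2 : Measurable fun y : E d => (inner ℝ y θ : ℝ) := by fun_prop
      exact (measurableSet_le measurable_const h2).inter (measurableSet_le h2 measurable_const)
    rw [Measure.map_apply hmeas hset]
    have h3 : A ⁻¹' {x : E d | a ≤ inner ℝ x θ ∧ inner ℝ x θ ≤ b} =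
        {x : E 3 | a ≤ inner ℝ x (ι θ) ∧ inner ℝ x (ι θ) ≤ b} := by
      ext x
      simp only [mem_preimage, mem_ofPred_eq, hA]
    rw [h3]
    exact hμ3 (ι θ) (by rw [ι.norm_map, hθ]) a b hab

end Pool.Agent.Lib.MP_4043ba_gt
end

section

set_option autoImplicit false

open Set Metric MeasureTheory Real Filter Topology

namespace Pool.Agent.Lib.MP_4043ba_gt

variable {d : ℕ}

lemma Plank.measurableSet_carrier (P : Plank d) : MeasurableSet P.carrier := by
  have h2 : Measurable fun y : E d => (inner ℝ y P.normal : ℝ) := by fun_prop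
  exact (measurableSet_le measurable_const h2).inter (measurableSet_le h2 measurable_const)

/-- There are `k`-fold coverings. -/
lemma exists_covering (hd : 0 < d) {K : Set (E d)} (hK : IsConvexBody K) (k : ℕ) :
    ∃ (m : ℕ) (P : Fin m → Plank d), IsKFoldCovering k K P := by
  obtain ⟨θ, hθ⟩ := sphere_nonempty hd
  have hθ' : ‖θ‖ = 1 := by simpa using hθ
  have hle : -supp K (-θ) ≤ supp K θ := by
    have := widthIn_nonneg hK.1 hK.nonempty θ
    rw [widthIn_eq] at this
    linarith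
  refine ⟨k, fun _ => ⟨θ, -supp K (-θ), supp K θ, hθ', hle⟩, fun x hx => ?_⟩
  have h1 := inner_le_supp hK.1 hx θ
  have h2 := inner_le_supp hK.1 hx (-θ)
  rw [inner_neg_right] at h2
  have h3 : {i : Fin k | x ∈ (⟨θ, -supp K (-θ), supp K θ, hθ', hle⟩ : Plank d).carrier} =
      Set.univ := by
    rw [Set.eq_univ_iff_forall]
    intro i
    exact ⟨by linarith, h1⟩
  rw [h3, Set.ncard_univ, Nat.card_eq_fintype_card, Fintype.card_fin]

/-- Duality: a measure on `K` charging every plank by at most its width bounds from below the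
total width of every `k`-fold covering. -/
lemma sum_width_ge_of_measure {K : Set (E d)} {k m : ℕ} {P : Fin m → Plank d}
    (hcov : IsKFoldCovering k K P) (μ : Measure (E d)) (hμK : μ Kᶜ = 0) {M : ℝ}
    (hM0 : 0 ≤ M) (hM : ENNReal.ofReal M ≤ μ univ)
    (hμ : ∀ Q : Plank d, μ Q.carrier ≤ ENNReal.ofReal Q.width) :
    M * k ≤ ∑ i, (P i).width := by
  classical
  have h1 : ∫⁻ x, ∑ i, (P i).carrier.indicator (fun _ => (1 : ENNReal)) x ∂μ =
      ∑ i, μ (P i).carrier := by
    rw [lintegral_finset_sum]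
    · refine Finset.sum_congr rfl fun i _ => ?_
      rw [lintegral_indicator_const (P i).measurableSet_carrier, one_mul]
    · intro i _
      exact measurable_const.indicator (P i).measurableSet_carrier
  have h2 : ENNReal.ofReal (M * k) ≤
      ∫⁻ x, ∑ i, (P i).carrier.indicator (fun _ => (1 : ENNReal)) x ∂μ := by
    calc ENNReal.ofReal (M * k) = ENNReal.ofReal M * k := by
          rw [ENNReal.ofReal_mul hM0, ENNReal.ofReal_natCast]
      _ ≤ μ univ * k := mul_le_mul_left hM _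
      _ = ∫⁻ _, (k : ENNReal) ∂μ := by rw [lintegral_const, mul_comm]
      _ ≤ _ := by
          refine lintegral_mono_ae ?_
          have hae : ∀ᵐ x ∂μ, x ∈ K := by
            rw [ae_iff]
            exact hμK
          filter_upwards [hae] with x hx
          have h3 := hcov x hx
          have h4 : ∑ i, (P i).carrier.indicator (fun _ => (1 : ENNReal)) x =
              (Set.ncard {i : Fin m | x ∈ (P i).carrier} : ENNReal) := by
            rw [Set.ncard_eq_toFinset_card', Finset.card_eq_sum_ones]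
            push_cast
            rw [← Finset.sum_subset (Finset.subset_univ
              ({i : Fin m | x ∈ (P i).carrier}.toFinset))]
            · refine Finset.sum_congr rfl fun i hi => ?_
              rw [Set.mem_toFinset] at hi
              have hi' : x ∈ (P i).carrier := hi
              rw [indicator_of_mem hi']
            · intro i _ hi
              rw [Set.mem_toFinset] at hi
              have hi' : x ∉ (P i).carrier := hi
              exact indicator_of_notMem hi' _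
          rw [h4]
          exact_mod_cast h3
  have h3 : ∑ i, μ (P i).carrier ≤ ENNReal.ofReal (∑ i, (P i).width) := by
    rw [ENNReal.ofReal_sum_of_nonneg fun i _ => (P i).width_nonneg]
    exact Finset.sum_le_sum fun i _ => hμ (P i)
  have h4 := h2.trans (h1.le.trans h3)
  rwa [ENNReal.ofReal_le_ofReal_iff (Finset.sum_nonneg fun i _ => (P i).width_nonneg)] at h4

lemma le_plankConst_of_measure (hd : 0 < d) {K : Set (E d)} (hK : IsConvexBody K) (k : ℕ)
    (μ : Measure (E d)) (hμK : μ Kᶜ = 0) {M : ℝ}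
    (hM0 : 0 ≤ M) (hM : ENNReal.ofReal M ≤ μ univ)
    (hμ : ∀ Q : Plank d, μ Q.carrier ≤ ENNReal.ofReal Q.width) :
    M / minWidth K * k ≤ plankConst K k := by
  have hw := minWidth_pos hd hK
  obtain ⟨m, P, hP⟩ := exists_covering hd hK k
  refine le_csInf ⟨_, m, P, hP, rfl⟩ ?_
  rintro s ⟨m, P, hP, rfl⟩
  have := sum_width_ge_of_measure hP μ hμK hM0 hM hμ
  calc M / minWidth K * k = 1 / minWidth K * (M * k) := by ring
    _ ≤ _ := mul_le_mul_of_nonneg_left this (one_div_nonneg.mpr hw.le)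

/-- The rescaled measure of Archimedes on a ball `B(c, r)`. -/
lemma exists_archimedes_ball {d : ℕ} (hd : d ≤ 3) (c : E d) {r : ℝ} (hr : 0 < r) :
    ∃ μ : Measure (E d), μ univ = ENNReal.ofReal (2 * r) ∧ μ (closedBall c r)ᶜ = 0 ∧
      ∀ Q : Plank d, μ Q.carrier ≤ ENNReal.ofReal Q.width := by
  obtain ⟨μ, hμ1, hμ2, hμ3⟩ := exists_archimedes hd
  have hmeas : Measurable fun x : E d => c + r • x := by fun_prop
  refine ⟨ENNReal.ofReal r • Measure.map (fun x : E d => c + r • x) μ, ?_, ?_, ?_⟩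
  · rw [Measure.smul_apply, Measure.map_apply hmeas MeasurableSet.univ, preimage_univ, hμ1,
      smul_eq_mul, mul_comm 2 r, ENNReal.ofReal_mul hr.le]
    norm_num
  · rw [Measure.smul_apply, Measure.map_apply hmeas isClosed_closedBall.measurableSet.compl]
    have h1 : (fun x : E d => c + r • x) ⁻¹' (closedBall c r)ᶜ = (closedBall (0 : E d) 1)ᶜ := by
      ext x
      simp only [mem_preimage, mem_compl_iff, mem_closedBall, dist_eq_norm, add_sub_cancel_left,
        norm_smul, Real.norm_eq_abs, abs_of_pos hr, sub_zero]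
      rw [mul_le_iff_le_one_right hr]
    rw [h1, hμ2, smul_zero]
  · intro Q
    rw [Measure.smul_apply, Measure.map_apply hmeas Q.measurableSet_carrier, smul_eq_mul]
    have h1 : (fun x : E d => c + r • x) ⁻¹' Q.carrier =
        {x | (Q.lo - inner ℝ c Q.normal) / r ≤ inner ℝ x Q.normal ∧
          inner ℝ x Q.normal ≤ (Q.hi - inner ℝ c Q.normal) / r} := by
      ext x
      simp only [Plank.carrier, mem_preimage, mem_ofPred_eq, inner_add_left, inner_smul_left,
        RCLike.conj_to_real]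
      rw [div_le_iff₀ hr, le_div_iff₀ hr]
      constructor
      · rintro ⟨h2, h3⟩
        constructor <;> linarith
      · rintro ⟨h2, h3⟩
        constructor <;> linarith
    rw [h1]
    have h2 : (Q.lo - inner ℝ c Q.normal) / r ≤ (Q.hi - inner ℝ c Q.normal) / r := by
      have := Q.lo_le_hi
      gcongr
    calc ENNReal.ofReal r * μ _ ≤ ENNReal.ofReal r * ENNReal.ofReal
          ((Q.hi - inner ℝ c Q.normal) / r - (Q.lo - inner ℝ c Q.normal) / r) :=
          mul_le_mul_right (hμ3 Q.normal Q.norm_normal _ _ h2) _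
      _ = ENNReal.ofReal Q.width := by
          rw [← ENNReal.ofReal_mul hr.le]
          congr 1
          unfold Plank.width
          field_simp
          ring

/-- **Lower bound in dimensions at most three.** -/
lemma le_plankConst_inradius (hd : 0 < d) (hd3 : d ≤ 3) {K : Set (E d)} (hK : IsConvexBody K)
    (k : ℕ) : 2 * inradius K / minWidth K * k ≤ plankConst K k := by
  obtain ⟨c, hc⟩ := exists_inball hd hK
  have hr := inradius_pos hd hK
  obtain ⟨μ, hμ1, hμ2, hμ3⟩ := exists_archimedes_ball hd3 c hr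
  refine le_plankConst_of_measure hd hK k μ ?_ (by linarith) hμ1.ge hμ3
  exact measure_mono_null (compl_subset_compl.mpr hc) hμ2

end Pool.Agent.Lib.MP_4043ba_gt
end

section

set_option autoImplicit false

open Set Metric

namespace Pool.Agent.Lib.MP_4043ba_gt

/-- The vertices of a regular simplex inscribed in the unit sphere of `ℝ^d`. -/
lemma exists_regular_vectors (d : ℕ) (hd : 0 < d) : ∃ v : Fin (d + 1) → E d,
    (∀ i, ‖v i‖ = 1) ∧ (∀ i j, i ≠ j → inner ℝ (v i) (v j) = -1 / (d : ℝ)) ∧ ∑ i, v i = 0 ∧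
    ∀ x : E d, ∑ i, (inner ℝ x (v i) : ℝ) ^ 2 = ((d : ℝ) + 1) / d * ‖x‖ ^ 2 := by
  have hd' : (0 : ℝ) < d := by exact_mod_cast hd
  have hd1 : (0 : ℝ) < (d : ℝ) + 1 := by positivity
  set s : ℝ := √((d : ℝ) + 1) with hs
  have hs2 : s ^ 2 = d + 1 := Real.sq_sqrt hd1.le
  have hspos : 0 < s := Real.sqrt_pos.mpr hd1
  let b := EuclideanSpace.basisFun (Fin (d + 1)) ℝ
  let u : E (d + 1) := s⁻¹ • ∑ i, b i
  have hbu : ∀ i, inner ℝ (b i) u = s⁻¹ := by
    intro i
    have h1 : inner ℝ (b i) (∑ j, b j) = (1 : ℝ) := by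
      rw [inner_sum, Finset.sum_eq_single i]
      · exact b.inner_eq_one i
      · intro j _ hj
        exact b.inner_eq_zero hj.symm
      · intro h
        exact absurd (Finset.mem_univ i) h
    simp only [u, inner_smul_right, h1, mul_one]
  have hu : ‖u‖ = 1 := by
    have h1 : ‖u‖ ^ 2 = 1 := by
      rw [← real_inner_self_eq_norm_sq]
      have h2 : inner ℝ u u = s⁻¹ * ∑ i, inner ℝ (b i) u := by
        conv_lhs => rw [show u = s⁻¹ • ∑ i, b i from rfl]
        rw [inner_smul_left, sum_inner]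
        rfl
      rw [h2]
      simp_rw [hbu]
      simp only [Finset.sum_const, Finset.card_univ, Fintype.card_fin, nsmul_eq_mul]
      push_cast
      rw [← hs2]
      field_simp
    nlinarith [norm_nonneg u]
  obtain ⟨φ, hφ⟩ := exists_axis_isometry d u hu
  -- the projection
  let A : E (d + 1) → E d := fun x => (WithLp.ofLp (φ.symm x)).2
  have hsplit : ∀ x : E (d + 1), φ.symm x = WithLp.toLp 2 (inner ℝ x u, A x) := by
    intro x
    have h1 : φ.symm x = WithLp.toLp 2 ((WithLp.ofLp (φ.symm x)).1, (WithLp.ofLp (φ.symm x)).2) :=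
      rfl
    have h2 := (hφ (WithLp.ofLp (φ.symm x)).1 (WithLp.ofLp (φ.symm x)).2).1
    rw [← h1, φ.apply_symm_apply] at h2
    rw [h1, h2]
  have hAinner : ∀ x y : E (d + 1),
      inner ℝ (A x) (A y) = inner ℝ x y - inner ℝ x u * inner ℝ y u := by
    intro x y
    have h1 : inner ℝ (φ.symm x) (φ.symm y) = inner ℝ x y := φ.symm.inner_map_map x y
    rw [hsplit x, hsplit y, WithLp.prod_inner_apply] at h1
    simp only [RCLike.inner_apply, conj_trivial] at h1
    linarith
  have hAlin : ∀ (x : E (d + 1)) (θ : E d),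
      inner ℝ θ (A x) = inner ℝ (φ (WithLp.toLp 2 (0, θ))) x := by
    intro x θ
    have h1 : inner ℝ (φ (WithLp.toLp 2 (0, θ))) (φ (φ.symm x)) =
        inner ℝ (WithLp.toLp 2 ((0 : ℝ), θ)) (φ.symm x) := φ.inner_map_map _ _
    rw [φ.apply_symm_apply] at h1
    rw [h1, hsplit x, WithLp.prod_inner_apply]
    simp
  have hAsum : ∑ i, A (b i) = 0 := by
    have h1 : ∀ y : E d, inner ℝ y (∑ i, A (b i)) = (0 : ℝ) := by
      intro y
      rw [inner_sum]
      simp_rw [hAlin]
      rw [← inner_sum]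
      have h2 : ∑ i, b i = s • u := by
        simp only [u, smul_smul, mul_inv_cancel₀ hspos.ne', one_smul]
      rw [h2, inner_smul_right, (hφ 0 y).1, mul_zero]
    have h3 := h1 (∑ i, A (b i))
    rwa [inner_self_eq_zero] at h3
  set t : ℝ := √(((d : ℝ) + 1) / d) with ht
  have ht2 : t ^ 2 = ((d : ℝ) + 1) / d := Real.sq_sqrt (by positivity)
  refine ⟨fun i => t • A (b i), ?_, ?_, ?_, ?_⟩
  · intro i
    have h1 : ‖t • A (b i)‖ ^ 2 = 1 := by
      rw [← real_inner_self_eq_norm_sq, inner_smul_left, inner_smul_right, hAinner, hbu,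
        b.inner_eq_one i]
      simp only [conj_trivial]
      have h2 : s⁻¹ * s⁻¹ = 1 / ((d : ℝ) + 1) := by
        rw [← hs2]; field_simp
      rw [h2, ← mul_assoc, ← sq, ht2]
      field_simp
      ring
    nlinarith [norm_nonneg (t • A (b i))]
  · intro i j hij
    rw [inner_smul_left, inner_smul_right, hAinner, hbu, hbu, b.inner_eq_zero hij]
    simp only [conj_trivial]
    have h2 : s⁻¹ * s⁻¹ = 1 / ((d : ℝ) + 1) := by
      rw [← hs2]; field_simp
    rw [h2, ← mul_assoc, ← sq, ht2]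
    field_simp
    ring
  · rw [← Finset.smul_sum, hAsum, smul_zero]
  · intro x
    have h1 : ∀ i, (inner ℝ x (t • A (b i)) : ℝ) ^ 2 =
        t ^ 2 * ‖inner ℝ (b i) (φ (WithLp.toLp 2 (0, x)))‖ ^ 2 := by
      intro i
      rw [inner_smul_right, hAlin, mul_pow, Real.norm_eq_abs, sq_abs, real_inner_comm]
    simp_rw [h1]
    rw [← Finset.mul_sum, b.sum_sq_norm_inner_right, (hφ 0 x).2, ht2]
    simp

/-- The regular simplex circumscribed about the unit ball, with facet normals `-v i`. -/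
def simplexBody {d : ℕ} (v : Fin (d + 1) → E d) : Set (E d) := {x | ∀ i, -inner ℝ x (v i) ≤ 1}

lemma isConvexBody_simplexBody {d : ℕ} (hd : 0 < d) {v : Fin (d + 1) → E d}
    (h1 : ∀ i, ‖v i‖ = 1) (h0 : ∑ i, v i = 0)
    (hsq : ∀ x : E d, ∑ i, (inner ℝ x (v i) : ℝ) ^ 2 = ((d : ℝ) + 1) / d * ‖x‖ ^ 2) :
    IsConvexBody (simplexBody v) := by
  have hd' : (0 : ℝ) < d := by exact_mod_cast hd
  have hclosed : IsClosed (simplexBody v) := by
    have : simplexBody v = ⋂ i, {x : E d | -inner ℝ x (v i) ≤ 1} := by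
      ext x; simp [simplexBody]
    rw [this]
    exact isClosed_iInter fun i => isClosed_le (by fun_prop) continuous_const
  refine ⟨?_, ?_, ?_⟩
  · refine Metric.isCompact_of_isClosed_isBounded hclosed ?_
    refine (isBounded_iff_forall_norm_le).mpr ⟨(d : ℝ) ^ 2, fun x hx => ?_⟩
    have hsum : ∑ i, (inner ℝ x (v i) : ℝ) = 0 := by
      rw [← inner_sum, h0, inner_zero_right]
    have hub : ∀ i, (inner ℝ x (v i) : ℝ) ≤ d := by
      intro i
      have h2 : (inner ℝ x (v i) : ℝ) = - ∑ j ∈ Finset.univ.erase i, inner ℝ x (v j) := by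
        rw [← Finset.add_sum_erase _ _ (Finset.mem_univ i)] at hsum
        linarith
      rw [h2, ← Finset.sum_neg_distrib]
      calc ∑ j ∈ Finset.univ.erase i, -inner ℝ x (v j) ≤ ∑ j ∈ Finset.univ.erase i, (1 : ℝ) :=
            Finset.sum_le_sum fun j _ => hx j
        _ = d := by
            rw [Finset.sum_const, Finset.card_erase_of_mem (Finset.mem_univ i), Finset.card_univ,
              Fintype.card_fin]
            simp
    have hd1 : (1 : ℝ) ≤ d := by exact_mod_cast hd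
    have habs : ∀ i, (inner ℝ x (v i) : ℝ) ^ 2 ≤ (d : ℝ) ^ 2 := by
      intro i
      apply sq_le_sq'
      · have := hx i
        linarith
      · exact hub i
    have h3 : ((d : ℝ) + 1) / d * ‖x‖ ^ 2 ≤ ((d : ℝ) + 1) * (d : ℝ) ^ 2 := by
      rw [← hsq x]
      refine (Finset.sum_le_sum fun i _ => habs i).trans ?_
      simp only [Finset.sum_const, Finset.card_univ, Fintype.card_fin, nsmul_eq_mul]
      push_cast
      exact le_rfl
    have h4 : ‖x‖ ^ 2 ≤ (d : ℝ) ^ 3 := by
      rw [div_mul_eq_mul_div, div_le_iff₀ hd'] at h3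
      have : ((d : ℝ) + 1) * ‖x‖ ^ 2 ≤ ((d : ℝ) + 1) * (d : ℝ) ^ 3 := by
        calc ((d : ℝ) + 1) * ‖x‖ ^ 2 ≤ ((d : ℝ) + 1) * (d : ℝ) ^ 2 * d := h3
          _ = _ := by ring
      exact le_of_mul_le_mul_left this (by positivity)
    have h5 : (d : ℝ) ^ 3 ≤ ((d : ℝ) ^ 2) ^ 2 := by
      rw [← pow_mul]
      exact pow_le_pow_right₀ hd1 (by norm_num)
    exact (sq_le_sq₀ (norm_nonneg x) (by positivity)).mp (h4.trans h5)
  · intro x hx y hy a b ha hb hab i
    rw [inner_add_left, inner_smul_left, inner_smul_left]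
    simp only [conj_trivial]
    have h2 := hx i
    have h3 := hy i
    nlinarith
  · refine ⟨0, mem_interior.mpr ⟨ball 0 1, ?_, isOpen_ball, mem_ball_self one_pos⟩⟩
    intro x hx i
    rw [mem_ball_zero_iff] at hx
    have h2 := abs_real_inner_le_norm x (v i)
    rw [h1 i, mul_one] at h2
    have h3 := neg_le_abs (inner ℝ x (v i) : ℝ)
    linarith

lemma smul_vertex_mem_simplexBody {d : ℕ} (hd : 0 < d) {v : Fin (d + 1) → E d}
    (h1 : ∀ i, ‖v i‖ = 1) (h2 : ∀ i j, i ≠ j → inner ℝ (v i) (v j) = -1 / (d : ℝ))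
    (j : Fin (d + 1)) : (d : ℝ) • v j ∈ simplexBody v := by
  have hd' : (0 : ℝ) < d := by exact_mod_cast hd
  intro i
  rw [inner_smul_left]
  simp only [conj_trivial]
  rcases eq_or_ne j i with rfl | hij
  · rw [real_inner_self_eq_norm_sq, h1]
    have : (1 : ℝ) ≤ d := by exact_mod_cast hd
    linarith
  · rw [h2 j i hij]
    apply le_of_eq
    field_simp

lemma widthIn_simplexBody {d : ℕ} (hd : 0 < d) {v : Fin (d + 1) → E d}
    (h1 : ∀ i, ‖v i‖ = 1) (h2 : ∀ i j, i ≠ j → inner ℝ (v i) (v j) = -1 / (d : ℝ))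
    (hK : IsConvexBody (simplexBody v)) (θ : E d) (i j : Fin (d + 1)) :
    d * (inner ℝ θ (v i) - inner ℝ θ (v j)) ≤ widthIn (simplexBody v) θ := by
  have h3 := inner_le_supp hK.1 (smul_vertex_mem_simplexBody hd h1 h2 i) θ
  have h4 := inner_le_supp hK.1 (smul_vertex_mem_simplexBody hd h1 h2 j) (-θ)
  rw [inner_smul_left, real_inner_comm] at h3
  rw [inner_smul_left, inner_neg_right, real_inner_comm] at h4
  simp only [conj_trivial] at h3 h4
  rw [widthIn_eq]
  linarith

/-- The width of the regular simplex circumscribed about the unit ball is at least `2 √d`. -/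
lemma minWidth_simplexBody {d : ℕ} (hd : 0 < d) {v : Fin (d + 1) → E d}
    (h1 : ∀ i, ‖v i‖ = 1) (h2 : ∀ i j, i ≠ j → inner ℝ (v i) (v j) = -1 / (d : ℝ))
    (h0 : ∑ i, v i = 0)
    (hsq : ∀ x : E d, ∑ i, (inner ℝ x (v i) : ℝ) ^ 2 = ((d : ℝ) + 1) / d * ‖x‖ ^ 2) :
    2 * √(d : ℝ) ≤ minWidth (simplexBody v) := by
  have hd' : (0 : ℝ) < d := by exact_mod_cast hd
  have hK := isConvexBody_simplexBody hd h1 h0 hsq
  refine le_minWidth hd fun θ hθ => ?_
  obtain ⟨i, hi⟩ := Finite.exists_max (fun i => (inner ℝ θ (v i) : ℝ))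
  obtain ⟨j, hj⟩ := Finite.exists_min (fun i => (inner ℝ θ (v i) : ℝ))
  refine le_trans ?_ (widthIn_simplexBody hd h1 h2 hK θ i j)
  set M : ℝ := inner ℝ θ (v i) with hM
  set m : ℝ := inner ℝ θ (v j) with hm
  have hsum : ∑ l, (inner ℝ θ (v l) : ℝ) = 0 := by rw [← inner_sum, h0, inner_zero_right]
  have hsq' := hsq θ
  rw [hθ, one_pow, mul_one] at hsq'
  have hprod : 0 ≤ ∑ l, ((M - inner ℝ θ (v l)) * (inner ℝ θ (v l) - m) : ℝ) :=
    Finset.sum_nonneg fun l _ => mul_nonneg (sub_nonneg.mpr (hi l)) (sub_nonneg.mpr (hj l))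
  have hexp : ∑ l, ((M - inner ℝ θ (v l)) * (inner ℝ θ (v l) - m) : ℝ) =
      (M + m) * ∑ l, (inner ℝ θ (v l) : ℝ) - ∑ l, (inner ℝ θ (v l) : ℝ) ^ 2 -
        ((d : ℝ) + 1) * (M * m) := by
    have : ∀ l, ((M - inner ℝ θ (v l)) * (inner ℝ θ (v l) - m) : ℝ) =
        (M + m) * inner ℝ θ (v l) - (inner ℝ θ (v l) : ℝ) ^ 2 - M * m := fun l => by ring
    simp_rw [this]
    rw [Finset.sum_sub_distrib, Finset.sum_sub_distrib, ← Finset.mul_sum]
    simp only [Finset.sum_const, Finset.card_univ, Fintype.card_fin, nsmul_eq_mul]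
    push_cast
    ring
  rw [hexp, hsum, hsq', mul_zero, zero_sub] at hprod
  -- `-(M m) ≥ 1 / d`
  have h3 : 1 / (d : ℝ) ≤ -(M * m) := by
    have h4 : ((d : ℝ) + 1) * (1 / d) ≤ ((d : ℝ) + 1) * (-(M * m)) := by
      have : ((d : ℝ) + 1) * (1 / d) = ((d : ℝ) + 1) / d := by ring
      linarith
    exact le_of_mul_le_mul_left h4 (by positivity)
  have h5 : 4 / (d : ℝ) ≤ (M - m) ^ 2 := by
    have : 4 / (d : ℝ) = 4 * (1 / d) := by ring
    nlinarith [sq_nonneg (M + m)]
  have hMm : 0 ≤ M - m := sub_nonneg.mpr (hi j)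
  have h6 : (2 * √(d : ℝ)) ^ 2 ≤ ((d : ℝ) * (M - m)) ^ 2 := by
    rw [mul_pow, Real.sq_sqrt hd'.le, mul_pow]
    calc (2 : ℝ) ^ 2 * d = (d : ℝ) ^ 2 * (4 / d) := by field_simp; norm_num
      _ ≤ (d : ℝ) ^ 2 * (M - m) ^ 2 := mul_le_mul_of_nonneg_left h5 (by positivity)
  exact (sq_le_sq₀ (by positivity) (by positivity)).mp h6

/-- The equilateral triangle circumscribed about the unit disc has width at least `3`. -/
lemma minWidth_triangle {v : Fin (2 + 1) → E 2}
    (h1 : ∀ i, ‖v i‖ = 1) (h2 : ∀ i j, i ≠ j → inner ℝ (v i) (v j) = -1 / ((2 : ℕ) : ℝ))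
    (h0 : ∑ i, v i = 0)
    (hsq : ∀ x : E 2, ∑ i, (inner ℝ x (v i) : ℝ) ^ 2 = (((2 : ℕ) : ℝ) + 1) / (2 : ℕ) * ‖x‖ ^ 2) :
    3 ≤ minWidth (simplexBody v) := by
  have hK := isConvexBody_simplexBody (by norm_num) h1 h0 hsq
  refine le_minWidth (by norm_num) fun θ hθ => ?_
  obtain ⟨i, hi⟩ := Finite.exists_max (fun i => (inner ℝ θ (v i) : ℝ))
  obtain ⟨j, hj⟩ := Finite.exists_min (fun i => (inner ℝ θ (v i) : ℝ))
  refine le_trans ?_ (widthIn_simplexBody (by norm_num) h1 h2 hK θ i j)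
  have hsum : ∑ l, (inner ℝ θ (v l) : ℝ) = 0 := by rw [← inner_sum, h0, inner_zero_right]
  have hsq' := hsq θ
  rw [hθ, one_pow, mul_one] at hsq'
  set M : ℝ := inner ℝ θ (v i) with hM
  set m : ℝ := inner ℝ θ (v j) with hm
  rw [Fin.sum_univ_three] at hsum hsq'
  set a : ℝ := inner ℝ θ (v 0) with ha
  set b : ℝ := inner ℝ θ (v 1) with hb
  set c : ℝ := inner ℝ θ (v 2) with hc
  have ha1 : a ≤ M := hi 0
  have hb1 : b ≤ M := hi 1
  have hc1 : c ≤ M := hi 2
  have ha2 : m ≤ a := hj 0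
  have hb2 : m ≤ b := hj 1
  have hc2 : m ≤ c := hj 2
  have hMm : 0 ≤ M - m := by linarith
  have hkey : (3 / 2 : ℝ) ^ 2 ≤ (M - m) ^ 2 := by
    -- some difference of two of the numbers `a, b, c` is at least `3 / 2`
    have h3 : a ^ 2 + b ^ 2 + c ^ 2 = 3 / 2 := by
      rw [hsq']; norm_num
    have hc' : c = -a - b := by linarith
    have hx : (a - b) ^ 2 ≤ (M - m) ^ 2 := sq_le_sq' (by linarith) (by linarith)
    have hy : (a - c) ^ 2 ≤ (M - m) ^ 2 := sq_le_sq' (by linarith) (by linarith)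
    have hz : (b - c) ^ 2 ≤ (M - m) ^ 2 := sq_le_sq' (by linarith) (by linarith)
    have htot : (a - b) ^ 2 + (b - c) ^ 2 + (a - c) ^ 2 = 9 / 2 := by
      rw [hc'] at h3 ⊢
      linarith
    rcases le_total 0 (a - b) with h5 | h5 <;> rcases le_total 0 (b - c) with h6 | h6 <;>
      rcases le_total 0 (a - c) with h7 | h7
    · nlinarith [mul_nonneg h5 h6]
    · nlinarith [mul_nonneg h5 h6]
    · nlinarith [mul_nonneg h5 (neg_nonneg.mpr h6), mul_nonneg h7 (neg_nonneg.mpr h6)]
    · nlinarith [mul_nonneg h5 (neg_nonneg.mpr h7)]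
    · nlinarith [mul_nonneg h6 h7]
    · nlinarith [mul_nonneg (neg_nonneg.mpr h5) (neg_nonneg.mpr h7)]
    · nlinarith [mul_nonneg (neg_nonneg.mpr h5) (neg_nonneg.mpr h6)]
    · nlinarith [mul_nonneg (neg_nonneg.mpr h5) (neg_nonneg.mpr h6)]
  have := (sq_le_sq₀ (by norm_num) hMm).mp hkey
  push_cast
  linarith

end Pool.Agent.Lib.MP_4043ba_gt
end

section

set_option autoImplicit false

open Set Metric

namespace Pool.Agent.Lib.MP_4043ba_gt

lemma count_lt (M : ℕ) (B : ℝ) (hB : B < M) :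
    B < ((Finset.univ.filter (fun j : Fin M => ((j : ℕ) : ℝ) ≤ B)).card : ℝ) := by
  rcases lt_or_ge B 0 with h0 | h0
  · exact h0.trans_le (Nat.cast_nonneg _)
  · have hfl : ⌊B⌋₊ < M := by
      rw [Nat.floor_lt h0]
      exact_mod_cast hB
    have hsub : Finset.Iic (⟨⌊B⌋₊, hfl⟩ : Fin M) ⊆
        Finset.univ.filter (fun j : Fin M => ((j : ℕ) : ℝ) ≤ B) := by
      intro j hj
      rw [Finset.mem_Iic, Fin.le_def] at hj
      simp only [Finset.mem_filter, Finset.mem_univ, true_and]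
      exact (Nat.cast_le.mpr hj).trans (Nat.floor_le h0)
    have hcard := Finset.card_le_card hsub
    rw [Fin.card_Iic] at hcard
    have h1 : B < (⌊B⌋₊ : ℝ) + 1 := Nat.lt_floor_add_one B
    have h2 : ((⌊B⌋₊ + 1 : ℕ) : ℝ) ≤
        ((Finset.univ.filter (fun j : Fin M => ((j : ℕ) : ℝ) ≤ B)).card : ℝ) := by
      exact_mod_cast hcard
    push_cast at h2
    linarith

lemma count_ge (M : ℕ) (B : ℝ) (hB : B ≤ M) :
    B ≤ ((Finset.univ.filter (fun j : Fin M => ((j : ℕ) : ℝ) ≤ B)).card : ℝ) := by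
  rcases hB.lt_or_eq with h | h
  · exact (count_lt M B h).le
  · have : Finset.univ.filter (fun j : Fin M => ((j : ℕ) : ℝ) ≤ B) = Finset.univ := by
      rw [Finset.filter_eq_self]
      intro j _
      rw [h]
      exact_mod_cast j.2.le
    rw [this, Finset.card_univ, Fintype.card_fin, h]

/-- Coverings of a regular simplex by planks parallel to its facets. -/
lemma plankConst_simplexBody_le {d : ℕ} (hd : 0 < d) {v : Fin (d + 1) → E d}
    (h1 : ∀ i, ‖v i‖ = 1) (h0 : ∑ i, v i = 0)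
    (hsq : ∀ x : E d, ∑ i, (inner ℝ x (v i) : ℝ) ^ 2 = ((d : ℝ) + 1) / d * ‖x‖ ^ 2)
    {k : ℕ} (hk : 1 ≤ k) :
    plankConst (simplexBody v) k ≤ (2 * k + d - 1) / minWidth (simplexBody v) := by
  classical
  have hK := isConvexBody_simplexBody hd h1 h0 hsq
  have hw := minWidth_pos hd hK
  obtain ⟨k', rfl⟩ : ∃ k', k = k' + 1 := ⟨k - 1, by omega⟩
  set M : ℕ := (2 * k' + (d + 1)) / (d + 1) with hM
  have hM1 : (d + 1) * M ≤ 2 * k' + (d + 1) := Nat.mul_div_le _ _
  have hM2 : 2 * k' < (d + 1) * M := by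
    have := Nat.lt_mul_div_succ (2 * k' + (d + 1)) (Nat.succ_pos d)
    have h3 : (d + 1) * ((2 * k' + (d + 1)) / (d + 1) + 1) = (d + 1) * M + (d + 1) := by
      rw [hM]; ring
    rw [Nat.succ_eq_add_one, h3] at this
    omega
  have hM1' : ((d : ℝ) + 1) * M ≤ 2 * k' + (d + 1) := by exact_mod_cast hM1
  have hM2' : 2 * (k' : ℝ) + 1 ≤ ((d : ℝ) + 1) * M := by exact_mod_cast hM2
  have hk'0 : (0 : ℝ) ≤ k' := Nat.cast_nonneg _
  set N : ℝ := (d : ℝ) + 1 with hN
  have hNpos : 0 < N := by positivity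
  set D : ℝ := N * M - k' with hD
  have hDpos : 0 < D := by rw [hD]; linarith
  have ht : ∀ j : Fin M, 0 ≤ N * ((M : ℝ) - (j : ℕ)) / D := by
    intro j
    have : ((j : ℕ) : ℝ) ≤ M := by exact_mod_cast j.2.le
    exact div_nonneg (mul_nonneg hNpos.le (by linarith)) hDpos.le
  let P : (Σ _i : Fin (d + 1), Fin M) → Plank d := fun p =>
    { normal := v p.1
      lo := -1
      hi := -1 + N * ((M : ℝ) - (p.2 : ℕ)) / D
      norm_normal := h1 p.1
      lo_le_hi := by
        have := ht p.2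
        linarith }
  have hcov : ∀ x ∈ simplexBody v, k' + 1 ≤ Set.ncard {p | x ∈ (P p).carrier} := by
    intro x hx
    set B : Fin (d + 1) → ℝ := fun i => M - (1 + inner ℝ x (v i)) * D / N with hB
    have hy0 : ∀ i, 0 ≤ 1 + (inner ℝ x (v i) : ℝ) := fun i => by
      have := hx i
      linarith
    have hBM : ∀ i, B i ≤ M := fun i => by
      have := div_nonneg (mul_nonneg (hy0 i) hDpos.le) hNpos.le
      simp only [hB]
      linarith
    have hBsum : ∑ i, B i = k' := by
      simp only [hB]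
      rw [Finset.sum_sub_distrib, ← Finset.sum_div, ← Finset.sum_mul, Finset.sum_add_distrib,
        ← inner_sum, h0, inner_zero_right]
      simp only [Finset.sum_const, Finset.card_univ, Fintype.card_fin, nsmul_eq_mul]
      push_cast
      rw [hD, ← hN]
      field_simp
      ring
    have hset : {p : Σ _i : Fin (d + 1), Fin M | x ∈ (P p).carrier} =
        ((Finset.univ.sigma fun i => Finset.univ.filter
          (fun j : Fin M => ((j : ℕ) : ℝ) ≤ B i)) : Finset (Σ _i : Fin (d + 1), Fin M)) := by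
      ext ⟨i, j⟩
      simp only [Plank.carrier, mem_ofPred_eq, Finset.coe_sigma, P]
      have hiff : inner ℝ x (v i) ≤ -1 + N * ((M : ℝ) - (j : ℕ)) / D ↔ ((j : ℕ) : ℝ) ≤ B i := by
        simp only [hB]
        have e1 : inner ℝ x (v i) ≤ -1 + N * ((M : ℝ) - (j : ℕ)) / D ↔
            1 + inner ℝ x (v i) ≤ N * ((M : ℝ) - (j : ℕ)) / D := by
          constructor <;> intro h <;> linarith
        rw [e1, le_div_iff₀ hDpos]
        have e2 : ((j : ℕ) : ℝ) ≤ M - (1 + inner ℝ x (v i)) * D / N ↔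
            (1 + inner ℝ x (v i)) * D / N ≤ M - ((j : ℕ) : ℝ) := by
          constructor <;> intro h <;> linarith
        rw [e2, div_le_iff₀ hNpos, mul_comm N]
      constructor
      · rintro ⟨-, h⟩
        simpa using hiff.mp h
      · intro h
        refine ⟨?_, hiff.mpr (by simpa using h)⟩
        have := hx i
        linarith
    rw [hset, Set.ncard_coe_finset, Finset.card_sigma]
    have hex : ∃ i, B i < M := by
      by_contra hcon
      push Not at hcon
      have h3 : ∑ _i : Fin (d + 1), (M : ℝ) ≤ ∑ i, B i := Finset.sum_le_sum fun i _ => hcon i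
      rw [hBsum] at h3
      simp only [Finset.sum_const, Finset.card_univ, Fintype.card_fin, nsmul_eq_mul] at h3
      push_cast at h3
      rw [← hN] at h3
      linarith
    have hreal : (k' : ℝ) < ((∑ i, (Finset.univ.filter
        (fun j : Fin M => ((j : ℕ) : ℝ) ≤ B i)).card : ℕ) : ℝ) := by
      push_cast
      rw [← hBsum]
      obtain ⟨i, hi⟩ := hex
      exact Finset.sum_lt_sum (fun i _ => count_ge M (B i) (hBM i)) ⟨i, Finset.mem_univ i,
        count_lt M (B i) hi⟩
    exact_mod_cast hreal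
  refine (plankConst_le_of_family hw.le P hcov).trans ?_
  have hsum : ∑ p, (P p).width ≤ 2 * ((k' : ℝ) + 1) + d - 1 := by
    have e1 : ∑ p, (P p).width = ∑ _i : Fin (d + 1), ∑ j : Fin M,
        N * ((M : ℝ) - (j : ℕ)) / D := by
      rw [Fintype.sum_sigma]
      refine Finset.sum_congr rfl fun i _ => Finset.sum_congr rfl fun j _ => ?_
      simp only [Plank.width, P]
      ring
    have e2 : ∑ j : Fin M, N * ((M : ℝ) - (j : ℕ)) / D = N * (M * (M + 1) / 2) / D := by
      rw [← Finset.sum_div, ← Finset.mul_sum]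
      congr 2
      rw [Fin.sum_univ_eq_sum_range (fun j : ℕ => (M : ℝ) - (j : ℝ)) M, Finset.sum_sub_distrib]
      have e3 : ∀ n : ℕ, ∑ j ∈ Finset.range n, (j : ℝ) = n * (n - 1) / 2 := by
        intro n
        induction n with
        | zero => simp
        | succ n ih =>
          rw [Finset.sum_range_succ, ih]
          push_cast
          ring
      rw [e3]
      simp only [Finset.sum_const, Finset.card_range, nsmul_eq_mul]
      ring
    rw [e1, e2]
    simp only [Finset.sum_const, Finset.card_univ, Fintype.card_fin, nsmul_eq_mul]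
    push_cast
    rw [← hN, mul_div_assoc', div_le_iff₀ hDpos]
    have hd' : (d : ℝ) = N - 1 := by rw [hN]; ring
    rw [hd', hD]
    nlinarith [mul_nonneg (sub_nonneg.mpr (by linarith : 2 * (k' : ℝ) ≤ N * M))
      (sub_nonneg.mpr hM1')]
  calc 1 / minWidth (simplexBody v) * ∑ p, (P p).width
      ≤ 1 / minWidth (simplexBody v) * (2 * ((k' : ℝ) + 1) + d - 1) :=
        mul_le_mul_of_nonneg_left hsum (one_div_nonneg.mpr hw.le)
    _ = (2 * ((k' + 1 : ℕ) : ℝ) + d - 1) / minWidth (simplexBody v) := by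
        push_cast
        ring

end Pool.Agent.Lib.MP_4043ba_gt
end

section

set_option autoImplicit false

open Set Metric Filter Topology

namespace Pool.Agent.Lib.MP_4043ba_gt

variable {d : ℕ}

/-- The trivial upper bound `c_K(k) ≤ k`. -/
lemma plankConst_le_self (hd : 0 < d) {K : Set (E d)} (hK : IsConvexBody K) (k : ℕ) :
    plankConst K k ≤ k := by
  have hw := minWidth_pos hd hK
  obtain ⟨θ, hθ, hmin⟩ := (isCompact_sphere (0 : E d) 1).exists_isMinOn (sphere_nonempty hd)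
    (continuous_widthIn hK.1).continuousOn
  have hθ' : ‖θ‖ = 1 := by simpa using hθ
  have hwid : minWidth K = widthIn K θ := by
    refine le_antisymm (minWidth_le hK.1 hK.nonempty hθ') (le_minWidth hd fun θ' h' => ?_)
    exact hmin (by simpa using h')
  have hle : -supp K (-θ) ≤ supp K θ := by
    have := widthIn_nonneg hK.1 hK.nonempty θ
    rw [widthIn_eq] at this
    linarith
  have h := plankConst_le_of_family hw.le (k := k)
    (fun _ : Fin k => (⟨θ, -supp K (-θ), supp K θ, hθ', hle⟩ : Plank d)) (fun x hx => by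
      have h1 := inner_le_supp hK.1 hx θ
      have h2 := inner_le_supp hK.1 hx (-θ)
      rw [inner_neg_right] at h2
      have h3 : {i : Fin k | x ∈ (⟨θ, -supp K (-θ), supp K θ, hθ', hle⟩ : Plank d).carrier} =
          Set.univ := by
        rw [Set.eq_univ_iff_forall]
        intro i
        exact ⟨by linarith, h1⟩
      rw [h3, Set.ncard_univ, Nat.card_eq_fintype_card, Fintype.card_fin])
  refine h.trans (le_of_eq ?_)
  have h4 : (⟨θ, -supp K (-θ), supp K θ, hθ', hle⟩ : Plank d).width = minWidth K := by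
    rw [hwid, widthIn_eq]
    simp only [Plank.width]
    ring
  simp only [h4, Finset.sum_const, Finset.card_univ, Fintype.card_fin, nsmul_eq_mul]
  field_simp

lemma plankConstDim_le (hd : 0 < d) {K : Set (E d)} (hK : IsConvexBody K) (k : ℕ) :
    plankConstDim d k ≤ plankConst K k := by
  refine csInf_le ⟨0, ?_⟩ ⟨K, hK, rfl⟩
  rintro s ⟨K', hK', rfl⟩
  exact plankConst_nonneg (minWidth_pos hd hK').le k

lemma exists_convexBody (hd : 0 < d) : ∃ K : Set (E d), IsConvexBody K := by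
  obtain ⟨v, h1, -, h0, hsq⟩ := exists_regular_vectors d hd
  exact ⟨_, isConvexBody_simplexBody hd h1 h0 hsq⟩

lemma le_plankConstDim (hd : 0 < d) {k : ℕ} {s : ℝ}
    (h : ∀ K : Set (E d), IsConvexBody K → s ≤ plankConst K k) : s ≤ plankConstDim d k := by
  obtain ⟨K, hK⟩ := exists_convexBody hd
  refine le_csInf ⟨_, K, hK, rfl⟩ ?_
  rintro s ⟨K', hK', rfl⟩
  exact h K' hK'

/-- Upper bound for `c_d(k)` from the regular simplex. -/
lemma plankConstDim_le_simplex (hd : 0 < d) {k : ℕ} (hk : 1 ≤ k) :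
    plankConstDim d k ≤ (2 * k + d - 1) / (2 * √(d : ℝ)) := by
  obtain ⟨v, h1, h2, h0, hsq⟩ := exists_regular_vectors d hd
  have hd' : (0 : ℝ) < d := by exact_mod_cast hd
  have hd1 : (1 : ℝ) ≤ d := by exact_mod_cast hd
  have hk' : (1 : ℝ) ≤ k := by exact_mod_cast hk
  have hK := isConvexBody_simplexBody hd h1 h0 hsq
  refine (plankConstDim_le hd hK k).trans
    ((plankConst_simplexBody_le hd h1 h0 hsq hk).trans ?_)
  have hw := minWidth_simplexBody hd h1 h2 h0 hsq
  exact div_le_div_of_nonneg_left (by linarith) (by positivity) hw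

lemma plankConstDim_two_le {k : ℕ} (hk : 1 ≤ k) : plankConstDim 2 k ≤ (2 * k + 1) / 3 := by
  obtain ⟨v, h1, h2, h0, hsq⟩ := exists_regular_vectors 2 (by norm_num)
  have hk' : (1 : ℝ) ≤ k := by exact_mod_cast hk
  have hK := isConvexBody_simplexBody (by norm_num) h1 h0 hsq
  refine (plankConstDim_le (by norm_num) hK k).trans
    ((plankConst_simplexBody_le (by norm_num) h1 h0 hsq hk).trans ?_)
  have hw := minWidth_triangle h1 h2 h0 hsq
  have e : (2 * (k : ℝ) + ((2 : ℕ) : ℝ) - 1) = 2 * k + 1 := by push_cast; ring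
  rw [e]
  exact div_le_div_of_nonneg_left (by linarith) (by norm_num) hw

lemma two_thirds_le (k : ℕ) : 2 / 3 * (k : ℝ) ≤ plankConstDim 2 k := by
  refine le_plankConstDim (by norm_num) fun K hK => ?_
  refine le_trans ?_ (le_plankConst_inradius (by norm_num) (by norm_num) hK k)
  refine mul_le_mul_of_nonneg_right ?_ (Nat.cast_nonneg _)
  have hw := minWidth_pos (by norm_num) hK
  rw [le_div_iff₀ hw]
  have := minWidth_le_two hK
  linarith

lemma inv_sqrt_three_le (k : ℕ) : (k : ℝ) / √3 ≤ plankConstDim 3 k := by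
  refine le_plankConstDim (by norm_num) fun K hK => ?_
  refine le_trans ?_ (le_plankConst_inradius (by norm_num) (by norm_num) hK k)
  rw [div_eq_mul_one_div, mul_comm]
  refine mul_le_mul_of_nonneg_right ?_ (Nat.cast_nonneg _)
  have hw := minWidth_pos (by norm_num) hK
  have h3' : 0 < √3 := Real.sqrt_pos.mpr (by norm_num)
  rw [div_le_div_iff₀ h3' hw]
  have := minWidth_le_three hK
  linarith

end Pool.Agent.Lib.MP_4043ba_gt
end
end
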