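import Pool.Agent.Lib.MP_4043ba_gt.Dim

section

set_option autoImplicit false

open Set Metric MeasureTheory Real Filter Topology

namespace Pool.Agent.Lib.MP_4043ba_gt

variable {d : ℕ}

/-- Every vector of length at most `w(K)` is a difference of two points of `K`. -/
lemma exists_translate_mem {K : Set (E d)} (hK : IsConvexBody K) {v : E d}
    (hv : ‖v‖ ≤ minWidth K) : ∃ x ∈ K, x + v ∈ K := by
  have hcont : Continuous fun p : E d × E d => p.1 - p.2 := by fun_prop
  have hDc : IsCompact ((fun p : E d × E d => p.1 - p.2) '' (K ×ˢ K)) :=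
    (hK.1.prod hK.1).image hcont
  have hDconv : Convex ℝ ((fun p : E d × E d => p.1 - p.2) '' (K ×ˢ K)) := by
    have := (hK.2.1.prod hK.2.1).is_linear_image
      (f := fun p : E d × E d => p.1 - p.2) (IsLinearMap.isLinearMap_sub)
    exact this
  obtain ⟨x0, hx0⟩ := hK.nonempty
  have hDne : ((fun p : E d × E d => p.1 - p.2) '' (K ×ˢ K)).Nonempty :=
    ⟨_, (x0, x0), ⟨hx0, hx0⟩, rfl⟩
  have hmem : v ∈ (fun p : E d × E d => p.1 - p.2) '' (K ×ˢ K) := by
    refine mem_of_forall_inner_le_supp hDc hDconv hDne fun θ hθ => ?_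
    obtain ⟨x, hx, hx'⟩ := exists_eq_supp hK.1 hK.nonempty θ
    obtain ⟨y, hy, hy'⟩ := exists_eq_supp hK.1 hK.nonempty (-θ)
    have h1 : inner ℝ v θ ≤ ‖v‖ * ‖θ‖ := real_inner_le_norm _ _
    rw [hθ, mul_one] at h1
    have h2 := minWidth_le hK.1 hK.nonempty hθ
    rw [widthIn_eq, ← hx', ← hy', inner_neg_right] at h2
    have h3 : inner ℝ (x - y) θ ≤ supp ((fun p : E d × E d => p.1 - p.2) '' (K ×ˢ K)) θ :=
      inner_le_supp hDc ⟨(x, y), ⟨hx, hy⟩, rfl⟩ θ
    rw [inner_sub_left] at h3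
    linarith
  obtain ⟨⟨a, b⟩, ⟨ha, hb⟩, hab⟩ := hmem
  refine ⟨b, hb, ?_⟩
  have : b + v = a := by rw [← hab]; simp
  rwa [this]

/-- A strip condition on a segment. -/
lemma volume_affine_strip_le (ℓ A a b : ℝ) (hℓ : ℓ ≠ 0) :
    volume {t : ℝ | a ≤ A + t * ℓ ∧ A + t * ℓ ≤ b} = ENNReal.ofReal ((b - a) / |ℓ|) := by
  have h1 : {t : ℝ | a ≤ A + t * ℓ ∧ A + t * ℓ ≤ b} = (fun t => ℓ * t) ⁻¹' Icc (a - A) (b - A) := by
    ext t
    simp only [mem_ofPred_eq, mem_preimage, mem_Icc]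
    constructor
    · rintro ⟨h2, h3⟩; constructor <;> linarith
    · rintro ⟨h2, h3⟩; constructor <;> linarith
  rw [h1, Real.volume_preimage_mul_left hℓ, Real.volume_Icc, ← ENNReal.ofReal_mul (abs_nonneg _),
    abs_inv]
  congr 1
  ring

/-- The proportion of the parallelogram spanned by two segments lying in a strip. -/
lemma volume_square_strip_le (ℓ₁ ℓ₂ A a b : ℝ) (hℓ₁ : ℓ₁ ≠ 0) (hab : a ≤ b) :
    (volume.restrict (Icc (0 : ℝ) 1 ×ˢ Icc (0 : ℝ) 1))
      {t : ℝ × ℝ | a ≤ A + t.1 * ℓ₁ + t.2 * ℓ₂ ∧ A + t.1 * ℓ₁ + t.2 * ℓ₂ ≤ b} ≤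
      ENNReal.ofReal ((b - a) / |ℓ₁|) := by
  have hmeas : MeasurableSet
      {t : ℝ × ℝ | a ≤ A + t.1 * ℓ₁ + t.2 * ℓ₂ ∧ A + t.1 * ℓ₁ + t.2 * ℓ₂ ≤ b} := by
    have h2 : Measurable fun t : ℝ × ℝ => A + t.1 * ℓ₁ + t.2 * ℓ₂ := by fun_prop
    exact (measurableSet_le measurable_const h2).inter (measurableSet_le h2 measurable_const)
  rw [Measure.volume_eq_prod, ← Measure.prod_restrict, Measure.prod_apply_symm hmeas]
  calc ∫⁻ y in Icc (0 : ℝ) 1, (volume.restrict (Icc (0 : ℝ) 1))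
        ((fun x => (x, y)) ⁻¹'
          {t : ℝ × ℝ | a ≤ A + t.1 * ℓ₁ + t.2 * ℓ₂ ∧ A + t.1 * ℓ₁ + t.2 * ℓ₂ ≤ b})
      ≤ ∫⁻ _y in Icc (0 : ℝ) 1, ENNReal.ofReal ((b - a) / |ℓ₁|) := by
        refine lintegral_mono fun y => ?_
        refine (Measure.restrict_apply_le _ _).trans ?_
        rw [← volume_affine_strip_le ℓ₁ (A + y * ℓ₂) a b hℓ₁]
        refine measure_mono fun x hx => ?_
        obtain ⟨h1, h2⟩ := hx
        simp only at h1 h2
        exact ⟨by linarith, by linarith⟩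
    _ = ENNReal.ofReal ((b - a) / |ℓ₁|) := by
        rw [lintegral_const, Measure.restrict_apply_univ, Real.volume_Icc]
        simp

lemma volume_square_strip_le' (ℓ₁ ℓ₂ A a b : ℝ) (hℓ₁ : ℓ₁ ≠ 0) (hℓ₂ : ℓ₂ ≠ 0) (hab : a ≤ b) :
    (volume.restrict (Icc (0 : ℝ) 1 ×ˢ Icc (0 : ℝ) 1))
      {t : ℝ × ℝ | a ≤ A + t.1 * ℓ₁ + t.2 * ℓ₂ ∧ A + t.1 * ℓ₁ + t.2 * ℓ₂ ≤ b} ≤
      ENNReal.ofReal ((b - a) / max |ℓ₁| |ℓ₂|) := by
  rcases le_total |ℓ₂| |ℓ₁| with h | h
  · rw [max_eq_left h]
    exact volume_square_strip_le ℓ₁ ℓ₂ A a b hℓ₁ hab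
  · rw [max_eq_right h]
    -- swap the coordinates
    have hmeas : MeasurableSet
        {t : ℝ × ℝ | a ≤ A + t.1 * ℓ₂ + t.2 * ℓ₁ ∧ A + t.1 * ℓ₂ + t.2 * ℓ₁ ≤ b} := by
      have h2 : Measurable fun t : ℝ × ℝ => A + t.1 * ℓ₂ + t.2 * ℓ₁ := by fun_prop
      exact (measurableSet_le measurable_const h2).inter (measurableSet_le h2 measurable_const)
    have hswap : MeasurePreserving (Prod.swap : ℝ × ℝ → ℝ × ℝ)
        (volume.restrict (Icc (0 : ℝ) 1 ×ˢ Icc (0 : ℝ) 1))
        (volume.restrict (Icc (0 : ℝ) 1 ×ˢ Icc (0 : ℝ) 1)) := by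
      rw [Measure.volume_eq_prod, ← Measure.prod_restrict]
      exact Measure.measurePreserving_swap
    have h3 := hswap.measure_preimage hmeas.nullMeasurableSet
    have h4 : (Prod.swap : ℝ × ℝ → ℝ × ℝ) ⁻¹'
        {t : ℝ × ℝ | a ≤ A + t.1 * ℓ₂ + t.2 * ℓ₁ ∧ A + t.1 * ℓ₂ + t.2 * ℓ₁ ≤ b} =
        {t : ℝ × ℝ | a ≤ A + t.1 * ℓ₁ + t.2 * ℓ₂ ∧ A + t.1 * ℓ₁ + t.2 * ℓ₂ ≤ b} := by
      ext ⟨x, y⟩
      simp only [mem_preimage, Prod.swap_prod_mk, mem_ofPred_eq]
      constructor
      · rintro ⟨h1, h2⟩; constructor <;> linarith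
      · rintro ⟨h1, h2⟩; constructor <;> linarith
    rw [h4] at h3
    rw [h3]
    exact volume_square_strip_le ℓ₂ ℓ₁ A a b hℓ₂ hab

/-- The pointwise inequality behind the general lower bound. -/
lemma covering_pointwise {K : Set (E d)} (hK : IsConvexBody K) {k m : ℕ} {P : Fin m → Plank d}
    (hcov : IsKFoldCovering k K P) {v₁ v₂ : E d} (hv₁ : ‖v₁‖ ≤ minWidth K)
    (hv₂ : ‖v₂‖ ≤ minWidth K) (h₁ : ∀ i, inner ℝ v₁ (P i).normal ≠ 0)
    (h₂ : ∀ i, inner ℝ v₂ (P i).normal ≠ 0) :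
    (k : ENNReal) ≤ ∑ i, ENNReal.ofReal (2 * (P i).width /
      max |inner ℝ v₁ (P i).normal| |inner ℝ v₂ (P i).normal|) := by
  classical
  obtain ⟨x₁, hx₁, hx₁'⟩ := exists_translate_mem hK hv₁
  obtain ⟨x₂, hx₂, hx₂'⟩ := exists_translate_mem hK hv₂
  set ν := (volume : Measure (ℝ × ℝ)).restrict (Icc (0 : ℝ) 1 ×ˢ Icc (0 : ℝ) 1) with hν
  have hν1 : ν univ = 1 := by
    rw [hν, Measure.restrict_apply_univ, Measure.volume_eq_prod, Measure.prod_prod,
      Real.volume_Icc]
    simp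
  let Z : ℝ × ℝ → E d := fun t =>
    (1 / 2 : ℝ) • (x₁ + t.1 • v₁) + (1 / 2 : ℝ) • (x₂ + t.2 • v₂)
  have hZmeas : Measurable Z := by
    have : Continuous Z := by fun_prop
    exact this.measurable
  have hseg : ∀ (x v : E d), x ∈ K → x + v ∈ K → ∀ s ∈ Icc (0 : ℝ) 1, x + s • v ∈ K := by
    intro x v hx hxv s hs
    have := hK.2.1 hx hxv (sub_nonneg.mpr hs.2) hs.1 (by ring)
    have e : (1 - s) • x + s • (x + v) = x + s • v := by
      rw [sub_smul, one_smul, smul_add]
      abel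
    rwa [e] at this
  have hZK : ∀ t ∈ Icc (0 : ℝ) 1 ×ˢ Icc (0 : ℝ) 1, Z t ∈ K := by
    rintro ⟨t1, t2⟩ ⟨ht1, ht2⟩
    exact hK.2.1 (hseg x₁ v₁ hx₁ hx₁' t1 ht1) (hseg x₂ v₂ hx₂ hx₂' t2 ht2)
      (by norm_num) (by norm_num) (by norm_num)
  let μ : Measure (E d) := Measure.map Z ν
  have hμK : μ Kᶜ = 0 := by
    rw [Measure.map_apply hZmeas hK.1.isClosed.measurableSet.compl, hν,
      Measure.restrict_apply (hK.1.isClosed.measurableSet.compl.preimage hZmeas)]
    have : Z ⁻¹' Kᶜ ∩ Icc (0 : ℝ) 1 ×ˢ Icc (0 : ℝ) 1 = ∅ := by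
      rw [Set.eq_empty_iff_forall_notMem]
      rintro t ⟨h3, h4⟩
      exact h3 (hZK t h4)
    rw [this, measure_empty]
  have hμ1 : μ univ = 1 := by
    rw [Measure.map_apply hZmeas MeasurableSet.univ, preimage_univ, hν1]
  have hμP : ∀ i, μ (P i).carrier ≤ ENNReal.ofReal (2 * (P i).width /
      max |inner ℝ v₁ (P i).normal| |inner ℝ v₂ (P i).normal|) := by
    intro i
    rw [Measure.map_apply hZmeas (P i).measurableSet_carrier]
    set θ := (P i).normal with hθ
    set ℓ₁ : ℝ := inner ℝ v₁ θ with hℓ₁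
    set ℓ₂ : ℝ := inner ℝ v₂ θ with hℓ₂
    have hset : Z ⁻¹' (P i).carrier = {t : ℝ × ℝ |
        (P i).lo ≤ ((1 / 2) * inner ℝ x₁ θ + (1 / 2) * inner ℝ x₂ θ) + t.1 * (ℓ₁ / 2) +
          t.2 * (ℓ₂ / 2) ∧
        ((1 / 2) * inner ℝ x₁ θ + (1 / 2) * inner ℝ x₂ θ) + t.1 * (ℓ₁ / 2) +
          t.2 * (ℓ₂ / 2) ≤ (P i).hi} := by
      ext t
      simp only [Plank.carrier, mem_preimage, mem_ofPred_eq, Z, inner_add_left, inner_smul_left,
        conj_trivial, ← hθ, ← hℓ₁, ← hℓ₂]
      have e : (1 / 2 : ℝ) * (inner ℝ x₁ θ + t.1 * ℓ₁) + 1 / 2 * (inner ℝ x₂ θ + t.2 * ℓ₂) =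
          ((1 / 2) * inner ℝ x₁ θ + (1 / 2) * inner ℝ x₂ θ) + t.1 * (ℓ₁ / 2) +
          t.2 * (ℓ₂ / 2) := by ring
      rw [e]
    rw [hset]
    refine (volume_square_strip_le' _ _ _ _ _ (div_ne_zero (h₁ i) two_ne_zero)
      (div_ne_zero (h₂ i) two_ne_zero) (P i).lo_le_hi).trans (le_of_eq ?_)
    congr 1
    have e2 : max |ℓ₁ / 2| |ℓ₂ / 2| = max |ℓ₁| |ℓ₂| / 2 := by
      rw [abs_div, abs_div, abs_two, max_div_div_right (by norm_num)]
    rw [e2]
    unfold Plank.width
    rw [div_div_eq_mul_div]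
    ring
  -- integrate the covering inequality
  have h3 : ∫⁻ x, ∑ i, (P i).carrier.indicator (fun _ => (1 : ENNReal)) x ∂μ =
      ∑ i, μ (P i).carrier := by
    rw [lintegral_finset_sum]
    · refine Finset.sum_congr rfl fun i _ => ?_
      rw [lintegral_indicator_const (P i).measurableSet_carrier, one_mul]
    · intro i _
      exact measurable_const.indicator (P i).measurableSet_carrier
  calc (k : ENNReal) = ∫⁻ _, (k : ENNReal) ∂μ := by rw [lintegral_const, hμ1, mul_one]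
    _ ≤ ∫⁻ x, ∑ i, (P i).carrier.indicator (fun _ => (1 : ENNReal)) x ∂μ := by
        refine lintegral_mono_ae ?_
        have hae : ∀ᵐ x ∂μ, x ∈ K := by
          rw [ae_iff]
          exact hμK
        filter_upwards [hae] with x hx
        have h5 := hcov x hx
        have h4 : ∑ i, (P i).carrier.indicator (fun _ => (1 : ENNReal)) x =
            (Set.ncard {i : Fin m | x ∈ (P i).carrier} : ENNReal) := by
          rw [Set.ncard_eq_toFinset_card', Finset.card_eq_sum_ones]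
          push_cast
          rw [← Finset.sum_subset (Finset.subset_univ
            ({i : Fin m | x ∈ (P i).carrier}.toFinset))]
          · refine Finset.sum_congr rfl fun i hi => ?_
            rw [Set.mem_toFinset] at hi
            have hi' : x ∈ (P i).carrier := hi
            rw [indicator_of_mem hi']
          · intro i _ hi
            rw [Set.mem_toFinset] at hi
            have hi' : x ∉ (P i).carrier := hi
            exact indicator_of_notMem hi' _
        rw [h4]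
        exact_mod_cast h5
    _ = ∑ i, μ (P i).carrier := h3
    _ ≤ _ := Finset.sum_le_sum fun i _ => hμP i

lemma lintegral_tail_sq (L : ℝ) (hL : 0 < L) :
    ∫⁻ t in Ioi L, ENNReal.ofReal ((L / t) ^ 2) = ENNReal.ofReal L := by
  have h1 : ∀ t ∈ Ioi L, (L / t) ^ 2 = L ^ 2 * t ^ (-2 : ℝ) := by
    intro t ht
    have ht0 : 0 < t := hL.trans ht
    rw [Real.rpow_neg ht0.le, Real.rpow_two]
    field_simp
  have hint : IntegrableOn (fun t : ℝ => L ^ 2 * t ^ (-2 : ℝ)) (Ioi L) :=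
    (integrableOn_Ioi_rpow_of_lt (by norm_num) hL).const_mul _
  rw [setLIntegral_congr_fun measurableSet_Ioi (fun t ht => by rw [h1 t ht]),
    ← ofReal_integral_eq_lintegral_ofReal hint]
  · rw [integral_const_mul, integral_Ioi_rpow_of_lt (by norm_num) hL]
    congr 1
    have : (-2 : ℝ) + 1 = -1 := by norm_num
    rw [this, Real.rpow_neg_one]
    field_simp
  · filter_upwards [ae_restrict_mem measurableSet_Ioi] with t ht
    have ht0 : 0 < t := hL.trans ht
    positivity

lemma lintegral_inv_max_le {Ω : Type*} [MeasurableSpace Ω] (μ : Measure Ω)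
    [IsProbabilityMeasure μ] {L : ℝ} (hL : 0 < L) (f : Ω → ℝ) (hf : Measurable f)
    (hf0 : ∀ ω, 0 ≤ f ω) (hsmall : ∀ s : ℝ, 0 < s → μ {ω | f ω ≤ s} ≤ ENNReal.ofReal (L * s)) :
    ∫⁻ p : Ω × Ω, ENNReal.ofReal (1 / max (f p.1) (f p.2)) ∂(μ.prod μ) ≤
      ENNReal.ofReal (2 * L) := by
  have hg : Measurable fun p : Ω × Ω => 1 / max (f p.1) (f p.2) := by fun_prop
  rw [lintegral_eq_lintegral_meas_lt]
  · have hbound : ∀ t ∈ Ioi (0 : ℝ), (μ.prod μ) {p : Ω × Ω | t < 1 / max (f p.1) (f p.2)} ≤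
        (Ioc 0 L).indicator (fun _ => (1 : ENNReal)) t +
        (Ioi L).indicator (fun t => ENNReal.ofReal ((L / t) ^ 2)) t := by
      intro t ht
      rcases le_or_gt t L with h | h
      · have h1 : t ∈ Ioc 0 L := ⟨ht, h⟩
        rw [indicator_of_mem h1, indicator_of_notMem (by simpa using h), add_zero]
        exact prob_le_one
      · rw [indicator_of_mem (show t ∈ Ioi L from h),
          indicator_of_notMem (fun h2 => absurd h2.2 (not_le.mpr h)), zero_add]
        have hsub : {p : Ω × Ω | t < 1 / max (f p.1) (f p.2)} ⊆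
            {ω | f ω ≤ 1 / t} ×ˢ {ω | f ω ≤ 1 / t} := by
          intro p hp
          simp only [mem_ofPred_eq] at hp
          have hpos : 0 < max (f p.1) (f p.2) := by
            by_contra hcon
            have h0 : max (f p.1) (f p.2) = 0 :=
              le_antisymm (not_lt.mp hcon) ((hf0 p.1).trans (le_max_left _ _))
            rw [h0, div_zero] at hp
            exact absurd hp (not_lt.mpr (le_of_lt ht))
          have h2 : max (f p.1) (f p.2) ≤ 1 / t := by
            rw [lt_div_iff₀ hpos] at hp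
            rw [le_div_iff₀ ht]
            linarith
          exact ⟨(le_max_left _ _).trans h2, (le_max_right _ _).trans h2⟩
        refine (measure_mono hsub).trans ?_
        rw [Measure.prod_prod]
        have h3 := hsmall (1 / t) (by have : 0 < t := ht; positivity)
        calc μ {ω | f ω ≤ 1 / t} * μ {ω | f ω ≤ 1 / t}
            ≤ ENNReal.ofReal (L * (1 / t)) * ENNReal.ofReal (L * (1 / t)) := mul_le_mul' h3 h3
          _ = ENNReal.ofReal ((L / t) ^ 2) := by
              rw [← ENNReal.ofReal_mul]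
              · congr 1; ring
              · have : 0 < t := ht
                positivity
    refine (setLIntegral_mono' measurableSet_Ioi hbound).trans ?_
    have hm1 : Measurable fun t : ℝ => (Ioc 0 L).indicator (fun _ => (1 : ENNReal)) t :=
      measurable_const.indicator measurableSet_Ioc
    rw [lintegral_add_left hm1, two_mul, ENNReal.ofReal_add hL.le hL.le]
    refine add_le_add ?_ ?_
    · refine (setLIntegral_le_lintegral _ _).trans ?_
      rw [lintegral_indicator_const measurableSet_Ioc, Real.volume_Ioc, one_mul, sub_zero]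
    · refine (setLIntegral_le_lintegral _ _).trans ?_
      rw [lintegral_indicator measurableSet_Ioi, lintegral_tail_sq L hL]
  · exact Eventually.of_forall fun p =>
      one_div_nonneg.mpr ((hf0 p.1).trans (le_max_left _ _))
  · exact hg.aemeasurable

lemma Gamma_add_half_le {x : ℝ} (hx : 0 < x) : Gamma (x + 1 / 2) ≤ √x * Gamma x := by
  have h1 := Real.Gamma_mul_add_mul_le_rpow_Gamma_mul_rpow_Gamma (s := x) (t := x + 1)
    (a := 1 / 2) (b := 1 / 2) hx (by linarith) (by norm_num) (by norm_num) (by norm_num)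
  have h2 : 1 / 2 * x + 1 / 2 * (x + 1) = x + 1 / 2 := by ring
  have hG : 0 < Gamma x := Real.Gamma_pos_of_pos hx
  rw [h2, Real.Gamma_add_one hx.ne', ← Real.sqrt_eq_rpow, ← Real.sqrt_eq_rpow,
    Real.sqrt_mul hx.le] at h1
  calc Gamma (x + 1 / 2) ≤ √(Gamma x) * (√x * √(Gamma x)) := h1
    _ = √x * (√(Gamma x) * √(Gamma x)) := by ring
    _ = √x * Gamma x := by rw [Real.mul_self_sqrt hG.le]

/-- Slabs of the ball of radius `w` of `ℝ^(n+1)`. -/
lemma volume_slab_le (n : ℕ) (θ : E (n + 1)) (hθ : ‖θ‖ = 1) (w s : ℝ) (hw : 0 < w) :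
    volume {y : E (n + 1) | |inner ℝ y θ| ≤ s ∧ ‖y‖ < w} ≤
      ENNReal.ofReal (2 * s) * volume (ball (0 : E n) w) := by
  have hS : MeasurableSet {q : ℝ × ℝ | |q.1| ≤ s ∧ q.2 < w ^ 2} := by
    have hm1 : Measurable fun q : ℝ × ℝ => |q.1| := by fun_prop
    exact (measurableSet_le hm1 measurable_const).inter
      (measurableSet_lt measurable_snd measurable_const)
  have h1 := volume_slice n θ hθ _ hS
  have h2 : {y : E (n + 1) | |inner ℝ y θ| ≤ s ∧ ‖y‖ < w} =
      {y : E (n + 1) | ((inner ℝ y θ : ℝ), ‖y‖ ^ 2) ∈ {q : ℝ × ℝ | |q.1| ≤ s ∧ q.2 < w ^ 2}} := by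
    ext y
    simp only [mem_ofPred_eq]
    rw [sq_lt_sq₀ (norm_nonneg _) hw.le]
  rw [h2, h1]
  calc ∫⁻ z : ℝ, volume {p : E n | (z, z ^ 2 + ‖p‖ ^ 2) ∈ {q : ℝ × ℝ | |q.1| ≤ s ∧ q.2 < w ^ 2}}
      ≤ ∫⁻ z : ℝ, (Icc (-s) s).indicator (fun _ => volume (ball (0 : E n) w)) z := by
        refine lintegral_mono fun z => ?_
        by_cases hz : z ∈ Icc (-s) s
        · rw [indicator_of_mem hz]
          refine measure_mono fun p hp => ?_
          simp only [mem_ofPred_eq] at hp
          rw [mem_ball_zero_iff]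
          have : ‖p‖ ^ 2 < w ^ 2 := by nlinarith [hp.2, sq_nonneg z]
          exact (sq_lt_sq₀ (norm_nonneg _) hw.le).mp this
        · rw [indicator_of_notMem hz]
          have : {p : E n | (z, z ^ 2 + ‖p‖ ^ 2) ∈ {q : ℝ × ℝ | |q.1| ≤ s ∧ q.2 < w ^ 2}} = ∅ := by
            rw [Set.eq_empty_iff_forall_notMem]
            intro p hp
            simp only [mem_ofPred_eq] at hp
            exact hz (abs_le.mp hp.1)
          rw [this, measure_empty]
    _ = ENNReal.ofReal (2 * s) * volume (ball (0 : E n) w) := by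
        rw [lintegral_indicator_const measurableSet_Icc, Real.volume_Icc, mul_comm]
        congr 2
        ring

/-- The uniform distribution on a ball. -/
lemma exists_dir_measure (n : ℕ) (hn : 1 ≤ n) {w : ℝ} (hw : 0 < w) :
    ∃ μ : Measure (E (n + 1)), IsProbabilityMeasure μ ∧ μ (ball (0 : E (n + 1)) w)ᶜ = 0 ∧
      ∀ θ : E (n + 1), ‖θ‖ = 1 → ∀ s : ℝ, 0 < s → μ {v | |inner ℝ v θ| ≤ s} ≤
        ENNReal.ofReal (2 * √(((n : ℝ) + 2) / (2 * π)) / w * s) := by
  have : Nonempty (Fin n) := ⟨⟨0, hn⟩⟩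
  have hvol : volume (ball (0 : E (n + 1)) w) =
      ENNReal.ofReal (w ^ (n + 1) * (√π ^ (n + 1) / Gamma (((n + 1 : ℕ) : ℝ) / 2 + 1))) := by
    rw [EuclideanSpace.volume_ball, Fintype.card_fin, ← ENNReal.ofReal_pow hw.le,
      ← ENNReal.ofReal_mul (by positivity)]
  have hvol' : volume (ball (0 : E n) w) =
      ENNReal.ofReal (w ^ n * (√π ^ n / Gamma ((n : ℝ) / 2 + 1))) := by
    rw [EuclideanSpace.volume_ball, Fintype.card_fin, ← ENNReal.ofReal_pow hw.le,
      ← ENNReal.ofReal_mul (by positivity)]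
  have hG1 : 0 < Gamma (((n + 1 : ℕ) : ℝ) / 2 + 1) := Real.Gamma_pos_of_pos (by positivity)
  have hG0 : 0 < Gamma ((n : ℝ) / 2 + 1) := Real.Gamma_pos_of_pos (by positivity)
  have hpos : 0 < w ^ (n + 1) * (√π ^ (n + 1) / Gamma (((n + 1 : ℕ) : ℝ) / 2 + 1)) := by
    have : 0 < √π := Real.sqrt_pos.mpr pi_pos
    positivity
  have hne : volume (ball (0 : E (n + 1)) w) ≠ 0 := by
    rw [hvol]
    exact (ENNReal.ofReal_pos.mpr hpos).ne'
  have hnt : volume (ball (0 : E (n + 1)) w) ≠ ⊤ := by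
    rw [hvol]; exact ENNReal.ofReal_ne_top
  refine ⟨(volume (ball (0 : E (n + 1)) w))⁻¹ • volume.restrict (ball 0 w), ⟨?_⟩, ?_, ?_⟩
  · rw [Measure.smul_apply, Measure.restrict_apply_univ, smul_eq_mul,
      ENNReal.inv_mul_cancel hne hnt]
  · rw [Measure.smul_apply, Measure.restrict_apply measurableSet_ball.compl,
      compl_inter_self, measure_empty, smul_zero]
  · intro θ hθ s hs
    have hset : MeasurableSet {v : E (n + 1) | |inner ℝ v θ| ≤ s} := by
      have h2 : Measurable fun y : E (n + 1) => |(inner ℝ y θ : ℝ)| := by fun_prop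
      exact measurableSet_le h2 measurable_const
    rw [Measure.smul_apply, Measure.restrict_apply hset, smul_eq_mul]
    have h1 : volume ({v : E (n + 1) | |inner ℝ v θ| ≤ s} ∩ ball 0 w) ≤
        ENNReal.ofReal (2 * s) * volume (ball (0 : E n) w) := by
      refine le_trans (measure_mono ?_) (volume_slab_le n θ hθ w s hw)
      rintro y ⟨h3, h4⟩
      exact ⟨h3, mem_ball_zero_iff.mp h4⟩
    have h2 : ENNReal.ofReal (2 * s) * volume (ball (0 : E n) w) ≤
        volume (ball (0 : E (n + 1)) w) *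
          ENNReal.ofReal (2 * √(((n : ℝ) + 2) / (2 * π)) / w * s) := by
      rw [hvol, hvol', ← ENNReal.ofReal_mul (by positivity), ← ENNReal.ofReal_mul hpos.le]
      apply ENNReal.ofReal_le_ofReal
      have hx : (0 : ℝ) < (n : ℝ) / 2 + 1 := by positivity
      have h5 := Gamma_add_half_le hx
      have e1 : (n : ℝ) / 2 + 1 + 1 / 2 = ((n + 1 : ℕ) : ℝ) / 2 + 1 := by push_cast; ring
      rw [e1] at h5
      set G1 := Gamma (((n + 1 : ℕ) : ℝ) / 2 + 1) with hG1def
      set G0 := Gamma ((n : ℝ) / 2 + 1) with hG0def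
      have hsp : 0 < √π := Real.sqrt_pos.mpr pi_pos
      have e2 : √(((n : ℝ) + 2) / (2 * π)) = √((n : ℝ) / 2 + 1) / √π := by
        rw [← Real.sqrt_div (by positivity)]
        congr 1
        field_simp
      rw [e2]
      have e3 : w ^ (n + 1) * (√π ^ (n + 1) / G1) * (2 * (√((n : ℝ) / 2 + 1) / √π) / w * s) =
          2 * s * w ^ n * √π ^ n * (√((n : ℝ) / 2 + 1) / G1) := by
        rw [pow_succ, pow_succ]
        field_simp
      rw [e3]
      have e4 : 2 * s * (w ^ n * (√π ^ n / G0)) = 2 * s * w ^ n * √π ^ n * (1 / G0) := by ring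
      rw [e4]
      refine mul_le_mul_of_nonneg_left ?_ (by positivity)
      rw [div_le_div_iff₀ hG0 hG1, one_mul]
      exact h5
    calc (volume (ball (0 : E (n + 1)) w))⁻¹ * volume ({v : E (n + 1) | |inner ℝ v θ| ≤ s} ∩ ball 0 w)
        ≤ (volume (ball (0 : E (n + 1)) w))⁻¹ * (volume (ball (0 : E (n + 1)) w) *
          ENNReal.ofReal (2 * √(((n : ℝ) + 2) / (2 * π)) / w * s)) :=
          mul_le_mul_right (h1.trans h2) _
      _ = _ := by rw [← mul_assoc, ENNReal.inv_mul_cancel hne hnt, one_mul]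

/-- **Lower bound in every dimension** `d = n + 1 ≥ 2`. -/
lemma le_plankConst_general (n : ℕ) (hn : 1 ≤ n) {K : Set (E (n + 1))} (hK : IsConvexBody K)
    (k : ℕ) : √(2 * π) / (8 * √((n : ℝ) + 2)) * k ≤ plankConst K k := by
  have hd : 0 < n + 1 := Nat.succ_pos n
  set w := minWidth K with hwdef
  have hw : 0 < w := minWidth_pos hd hK
  obtain ⟨μ, hμprob, hμball, hμ⟩ := exists_dir_measure n hn hw
  set L : ℝ := 2 * √(((n : ℝ) + 2) / (2 * π)) / w with hL
  have hsq : 0 < √(((n : ℝ) + 2) / (2 * π)) := Real.sqrt_pos.mpr (by positivity)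
  have hLpos : 0 < L := by rw [hL]; positivity
  obtain ⟨m₀, P₀, hP₀⟩ := exists_covering hd hK k
  refine le_csInf ⟨_, m₀, P₀, hP₀, rfl⟩ ?_
  rintro s ⟨m, P, hP, rfl⟩
  -- almost every direction is transversal to all planks
  have hzero : ∀ θ : E (n + 1), ‖θ‖ = 1 → ∀ᵐ v ∂μ, inner ℝ v θ ≠ 0 := by
    intro θ hθ
    rw [ae_iff]
    simp only [ne_eq, not_not]
    refine le_antisymm ?_ zero_le
    have h1 : ∀ s : ℝ, 0 < s → μ {v | inner ℝ v θ = (0 : ℝ)} ≤ ENNReal.ofReal (L * s) := by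
      intro s hs
      refine (measure_mono fun v hv => ?_).trans (hμ θ hθ s hs)
      simp only [mem_ofPred_eq] at hv ⊢
      rw [hv, abs_zero]
      exact hs.le
    have h2 : Tendsto (fun s : ℝ => ENNReal.ofReal (L * s)) (𝓝[>] 0) (𝓝 (ENNReal.ofReal (L * 0))) := by
      apply tendsto_nhdsWithin_of_tendsto_nhds
      exact ((ENNReal.continuous_ofReal.comp (by fun_prop : Continuous fun s : ℝ => L * s))).tendsto 0
    rw [mul_zero, ENNReal.ofReal_zero] at h2
    refine ge_of_tendsto h2 ?_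
    filter_upwards [self_mem_nhdsWithin] with s hs
    exact h1 s hs
  have hgood : ∀ᵐ v ∂μ, ‖v‖ ≤ w ∧ ∀ i, inner ℝ v (P i).normal ≠ 0 := by
    have h1 : ∀ᵐ v ∂μ, v ∈ ball (0 : E (n + 1)) w := by
      rw [ae_iff]
      exact hμball
    have h2 : ∀ᵐ v ∂μ, ∀ i, inner ℝ v (P i).normal ≠ 0 := by
      rw [ae_all_iff]
      exact fun i => hzero _ (P i).norm_normal
    filter_upwards [h1, h2] with v h3 h4
    exact ⟨(mem_ball_zero_iff.mp h3).le, h4⟩
  have hgood1 : ∀ᵐ p ∂(μ.prod μ), ‖p.1‖ ≤ w ∧ ∀ i, inner ℝ p.1 (P i).normal ≠ 0 :=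
    Measure.quasiMeasurePreserving_fst.ae hgood
  have hgood2 : ∀ᵐ p ∂(μ.prod μ), ‖p.2‖ ≤ w ∧ ∀ i, inner ℝ p.2 (P i).normal ≠ 0 :=
    Measure.quasiMeasurePreserving_snd.ae hgood
  have hmain : (k : ENNReal) ≤ ENNReal.ofReal (4 * L * ∑ i, (P i).width) := by
    calc (k : ENNReal) = ∫⁻ _p, (k : ENNReal) ∂(μ.prod μ) := by
          rw [lintegral_const, measure_univ, mul_one]
      _ ≤ ∫⁻ p, ∑ i, ENNReal.ofReal (2 * (P i).width /
            max |inner ℝ p.1 (P i).normal| |inner ℝ p.2 (P i).normal|) ∂(μ.prod μ) := by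
          refine lintegral_mono_ae ?_
          filter_upwards [hgood1, hgood2] with p h1 h2
          exact covering_pointwise hK hP h1.1 h2.1 h1.2 h2.2
      _ = ∑ i, ∫⁻ p, ENNReal.ofReal (2 * (P i).width /
            max |inner ℝ p.1 (P i).normal| |inner ℝ p.2 (P i).normal|) ∂(μ.prod μ) := by
          rw [lintegral_finset_sum]
          intro i _
          fun_prop
      _ ≤ ∑ i, ENNReal.ofReal (4 * L * (P i).width) := by
          refine Finset.sum_le_sum fun i _ => ?_
          have hwi := (P i).width_nonneg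
          have h3 : ∀ p : E (n + 1) × E (n + 1), ENNReal.ofReal (2 * (P i).width /
              max |inner ℝ p.1 (P i).normal| |inner ℝ p.2 (P i).normal|) =
              ENNReal.ofReal (2 * (P i).width) * ENNReal.ofReal (1 /
              max |inner ℝ p.1 (P i).normal| |inner ℝ p.2 (P i).normal|) := by
            intro p
            rw [← ENNReal.ofReal_mul (by positivity)]
            congr 1
            ring
          simp_rw [h3]
          rw [lintegral_const_mul]
          · have h4 := lintegral_inv_max_le μ hLpos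
              (fun v : E (n + 1) => |(inner ℝ v (P i).normal : ℝ)|) (by fun_prop)
              (fun v => abs_nonneg _) (hμ (P i).normal (P i).norm_normal)
            calc ENNReal.ofReal (2 * (P i).width) * ∫⁻ p : E (n + 1) × E (n + 1),
                  ENNReal.ofReal (1 / max |inner ℝ p.1 (P i).normal| |inner ℝ p.2 (P i).normal|)
                    ∂(μ.prod μ)
                ≤ ENNReal.ofReal (2 * (P i).width) * ENNReal.ofReal (2 * L) :=
                  mul_le_mul_right h4 _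
              _ = ENNReal.ofReal (4 * L * (P i).width) := by
                  rw [← ENNReal.ofReal_mul (by positivity)]
                  congr 1
                  ring
          · fun_prop
      _ = ENNReal.ofReal (4 * L * ∑ i, (P i).width) := by
          rw [Finset.mul_sum, ENNReal.ofReal_sum_of_nonneg]
          intro i _
          have hwi := (P i).width_nonneg
          positivity
  have hsum0 : 0 ≤ ∑ i, (P i).width := Finset.sum_nonneg fun i _ => (P i).width_nonneg
  have hreal : (k : ℝ) ≤ 4 * L * ∑ i, (P i).width := by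
    rw [← ENNReal.ofReal_natCast, ENNReal.ofReal_le_ofReal_iff (by positivity)] at hmain
    exact hmain
  have hs2 : 0 < √((n : ℝ) + 2) := Real.sqrt_pos.mpr (by positivity)
  have hs3 : 0 < √(2 * π) := Real.sqrt_pos.mpr (by positivity)
  have e1 : 4 * L = 8 * √((n : ℝ) + 2) / √(2 * π) / w := by
    rw [hL, Real.sqrt_div (by positivity)]
    ring
  rw [e1] at hreal
  calc √(2 * π) / (8 * √((n : ℝ) + 2)) * k
      ≤ √(2 * π) / (8 * √((n : ℝ) + 2)) *
        (8 * √((n : ℝ) + 2) / √(2 * π) / w * ∑ i, (P i).width) :=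
        mul_le_mul_of_nonneg_left hreal (by positivity)
    _ = 1 / w * ∑ i, (P i).width := by field_simp

end Pool.Agent.Lib.MP_4043ba_gt
end

section

set_option autoImplicit false

open Set Metric Filter Topology

namespace Pool.Agent.Lib.MP_4043ba_gt

variable {d : ℕ}

/-- Putting a `k`-fold and an `l`-fold covering together. -/
lemma plankConst_add_le (hd : 0 < d) {K : Set (E d)} (hK : IsConvexBody K) (k l : ℕ) :
    plankConst K (k + l) ≤ plankConst K k + plankConst K l := by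
  have hw := minWidth_pos hd hK
  have key : ∀ s ∈ {s : ℝ | ∃ (m : ℕ) (P : Fin m → Plank d), IsKFoldCovering k K P ∧
      s = 1 / minWidth K * ∑ i, (P i).width}, ∀ t ∈ {s : ℝ | ∃ (m : ℕ) (P : Fin m → Plank d),
      IsKFoldCovering l K P ∧ s = 1 / minWidth K * ∑ i, (P i).width},
      plankConst K (k + l) ≤ s + t := by
    rintro s ⟨m, P, hP, rfl⟩ t ⟨n, Q, hQ, rfl⟩
    have h := plankConst_le_of_family (K := K) hw.le (k := k + l) (ι := Fin m ⊕ Fin n)
      (Sum.elim P Q) (fun x hx => by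
        have h1 := hP x hx
        have h2 := hQ x hx
        have h3 : {i : Fin m ⊕ Fin n | x ∈ (Sum.elim P Q i).carrier} =
            Sum.inl '' {i : Fin m | x ∈ (P i).carrier} ∪
            Sum.inr '' {i : Fin n | x ∈ (Q i).carrier} := by
          ext i
          rcases i with i | i <;> simp
        have h4 : Disjoint (Sum.inl '' {i : Fin m | x ∈ (P i).carrier} : Set (Fin m ⊕ Fin n))
            (Sum.inr '' {i : Fin n | x ∈ (Q i).carrier}) := by
          rw [Set.disjoint_left]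
          rintro i ⟨a, -, rfl⟩ ⟨b, -, hb⟩
          exact absurd hb (by simp)
        rw [h3, Set.ncard_union_eq h4 (Set.toFinite _) (Set.toFinite _),
          Set.ncard_image_of_injective _ Sum.inl_injective,
          Set.ncard_image_of_injective _ Sum.inr_injective]
        exact Nat.add_le_add h1 h2)
    refine h.trans (le_of_eq ?_)
    rw [Fintype.sum_sum_type]
    simp only [Sum.elim_inl, Sum.elim_inr]
    ring
  obtain ⟨m₁, P₁, hP₁⟩ := exists_covering hd hK k
  obtain ⟨m₂, P₂, hP₂⟩ := exists_covering hd hK l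
  have h1 : ∀ t ∈ {s : ℝ | ∃ (m : ℕ) (P : Fin m → Plank d),
      IsKFoldCovering l K P ∧ s = 1 / minWidth K * ∑ i, (P i).width},
      plankConst K (k + l) - t ≤ plankConst K k := by
    intro t ht
    refine le_csInf ⟨_, m₁, P₁, hP₁, rfl⟩ fun s hs => ?_
    have := key s hs t ht
    linarith
  have h2 : plankConst K (k + l) - plankConst K k ≤ plankConst K l := by
    refine le_csInf ⟨_, m₂, P₂, hP₂, rfl⟩ fun t ht => ?_
    have := h1 t ht
    linarith
  linarith

/-- The fractional covering constant: the limit of `c_K(k) / k`. -/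
lemma exists_limit (hd : 0 < d) {K : Set (E d)} (hK : IsConvexBody K) :
    ∃ L : ℝ, 0 ≤ L ∧ (∀ k : ℕ, L * k ≤ plankConst K k) ∧
      Tendsto (fun k : ℕ => plankConst K k / k) atTop (𝓝 L) := by
  have hw := minWidth_pos hd hK
  have hsub : Subadditive (fun k => plankConst K k) := fun k l => plankConst_add_le hd hK k l
  have hbdd : BddBelow (range fun k : ℕ => plankConst K k / k) := by
    refine ⟨0, ?_⟩
    rintro _ ⟨k, rfl⟩
    exact div_nonneg (plankConst_nonneg hw.le k) (Nat.cast_nonneg _)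
  refine ⟨hsub.lim, ?_, ?_, hsub.tendsto_lim hbdd⟩
  · refine ge_of_tendsto' (hsub.tendsto_lim hbdd) fun k => ?_
    exact div_nonneg (plankConst_nonneg hw.le k) (Nat.cast_nonneg _)
  · intro k
    rcases Nat.eq_zero_or_pos k with rfl | hk
    · simpa using plankConst_nonneg hw.le 0
    · have hk' : (0 : ℝ) < k := by exact_mod_cast hk
      have := hsub.lim_le_div hbdd hk.ne'
      rwa [le_div_iff₀ hk'] at this

/-- The limit of `c_d(k) / k` exists. -/
lemma exists_limit_dim (hd : 0 < d) :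
    ∃ L : ℝ, (∀ k : ℕ, L * k ≤ plankConstDim d k) ∧
      Tendsto (fun k : ℕ => plankConstDim d k / k) atTop (𝓝 L) := by
  classical
  choose! F hF0 hF1 hF2 using fun (K : Set (E d)) (hK : IsConvexBody K) => exists_limit hd hK
  set S : Set ℝ := {s | ∃ K : Set (E d), IsConvexBody K ∧ s = F K} with hS
  have hSb : BddBelow S := by
    refine ⟨0, ?_⟩
    rintro _ ⟨K, hK, rfl⟩
    exact hF0 K hK
  obtain ⟨K₀, hK₀⟩ := exists_convexBody hd
  have hSne : S.Nonempty := ⟨_, K₀, hK₀, rfl⟩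
  have hlow : ∀ k : ℕ, sInf S * k ≤ plankConstDim d k := by
    intro k
    refine le_plankConstDim hd fun K hK => ?_
    refine le_trans ?_ (hF1 K hK k)
    exact mul_le_mul_of_nonneg_right (csInf_le hSb ⟨K, hK, rfl⟩) (Nat.cast_nonneg _)
  refine ⟨sInf S, hlow, ?_⟩
  rw [tendsto_order]
  constructor
  · intro a ha
    filter_upwards [eventually_gt_atTop 0] with k hk
    have hk' : (0 : ℝ) < k := by exact_mod_cast hk
    rw [lt_div_iff₀ hk']
    exact (mul_lt_mul_of_pos_right ha hk').trans_le (hlow k)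
  · intro a ha
    obtain ⟨_, ⟨K, hK, rfl⟩, hlt⟩ := exists_lt_of_csInf_lt hSne ha
    filter_upwards [(hF2 K hK).eventually_lt_const hlt, eventually_gt_atTop 0] with k h1 h2
    have hk' : (0 : ℝ) < k := by exact_mod_cast h2
    refine lt_of_le_of_lt ?_ h1
    exact div_le_div_of_nonneg_right (plankConstDim_le hd hK k) hk'.le

end Pool.Agent.Lib.MP_4043ba_gt
end
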